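import Pool.Agent.Unbent.Flow

/-!
A branching certificate for the lower bound: in two drawings such that every edge is
unbent in one of them there are at least 36 bends.
-/

namespace Unbent

/-- The faces on the two sides of the nineteen edges. -/
def LR0 : List (ℕ × ℕ × ℕ) :=
  [(0, 1, 0), (1, 3, 2), (2, 0, 3), (3, 2, 1), (4, 5, 0), (5, 4, 5), (6, 1, 4), (7, 3, 7), (8, 6, 2), (9, 7, 6), (10, 8, 0), (11, 5, 9), (12, 9, 8), (13, 8, 7), (14, 6, 9), (15, 4, 6), (16, 6, 4), (17, 4, 6), (18, 6, 4)]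

/-- Value number `f` of an encoded potential. -/
def pot (p f : ℕ) : ℕ := p / 128 ^ f % 128

/-- Values differing by at most one. -/
def near (a b : ℕ) : Bool := decide (a ≤ b + 1) && decide (b ≤ a + 1)

/-- The potential changes by at most one across the edges outside `S`. -/
def potOK (S : List ℕ) (p : ℕ) : Bool :=
  LR0.all fun x => S.contains x.1 || near (pot p x.2.1) (pot p x.2.2)

/-- The gain of a potential. -/
def gain (p : ℕ) : ℕ := pot p 1 + pot p 2 + pot p 3 + pot p 4 + pot p 5 + pot p 7 + pot p 8 + pot p 9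

/-- The loss of a potential. -/
def loss (p : ℕ) : ℕ := 8 * pot p 6 + 3 * ((pot p 4 - pot p 6) + (pot p 6 - pot p 4))

/-- Branching certificates. -/
inductive Cert where
  | leaf (p q : ℕ) : Cert
  | node (e : ℕ) (l r : Cert) : Cert

/-- Check of a certificate, given the edges already fixed as unbent in the two drawings. -/
def Cert.check : Cert → List ℕ → List ℕ → Bool
  | .leaf p q, S, T => potOK S p && potOK T q && decide (36 + loss p + loss q ≤ gain p + gain q)
  | .node e l r, S, T => decide (e < 19) && l.check (e :: S) T && r.check S (e :: T)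

theorem mul_le_abs {a t : ℤ} (h : t = 0 ∨ |a| ≤ 1) : a * t ≤ |t| := by
  rcases h with h | h
  · subst h; simp
  · calc a * t ≤ |a * t| := le_abs_self _
      _ = |a| * |t| := abs_mul _ _
      _ ≤ 1 * |t| := mul_le_mul_of_nonneg_right h (abs_nonneg _)
      _ = |t| := one_mul _

theorem near_abs {a b : ℕ} (h : near a b = true) : |(a : ℤ) - b| ≤ 1 := by
  unfold near at h
  simp only [Bool.and_eq_true, decide_eq_true_eq] at h
  rw [abs_le]; omega

theorem bound_le {t : ℕ → ℤ} {Y : ℤ} (h : IsFlow t Y) (S : List ℕ) (p : ℕ)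
    (hp : potOK S p = true) (hS : ∀ e ∈ S, t e = 0) :
    2 * (gain p : ℤ) ≤ 2 * (loss p : ℤ) + ∑ e ∈ Finset.range 19, |t e| := by
  obtain ⟨hY, e0, e1, e2, e3, e4, e5, e6, e7, e8, e9⟩ := h
  unfold potOK at hp
  rw [List.all_eq_true] at hp
  have hk : ∀ e l r, (e, l, r) ∈ LR0 → ((pot p l : ℤ) - pot p r) * t e ≤ |t e| := by
    intro e l r hm
    have := hp _ hm
    simp only [Bool.or_eq_true, List.contains_iff_mem] at this
    exact mul_le_abs (this.imp (hS e) near_abs)
  have k0 := hk 0 1 0 (by decide)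
  have k1 := hk 1 3 2 (by decide)
  have k2 := hk 2 0 3 (by decide)
  have k3 := hk 3 2 1 (by decide)
  have k4 := hk 4 5 0 (by decide)
  have k5 := hk 5 4 5 (by decide)
  have k6 := hk 6 1 4 (by decide)
  have k7 := hk 7 3 7 (by decide)
  have k8 := hk 8 6 2 (by decide)
  have k9 := hk 9 7 6 (by decide)
  have k10 := hk 10 8 0 (by decide)
  have k11 := hk 11 5 9 (by decide)
  have k12 := hk 12 9 8 (by decide)
  have k13 := hk 13 8 7 (by decide)
  have k14 := hk 14 6 9 (by decide)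
  have k15 := hk 15 4 6 (by decide)
  have k16 := hk 16 6 4 (by decide)
  have k17 := hk 17 4 6 (by decide)
  have k18 := hk 18 6 4 (by decide)
  have hl : (loss p : ℤ) = 8 * pot p 6 + 3 * |(pot p 4 : ℤ) - pot p 6| := by
    unfold loss
    rcases le_total (pot p 4) (pot p 6) with hle | hle
    · rw [abs_of_nonpos (by omega)]; push_cast [Nat.sub_eq_zero_of_le hle, Nat.cast_sub hle]; ring
    · rw [abs_of_nonneg (by omega)]; push_cast [Nat.sub_eq_zero_of_le hle, Nat.cast_sub hle]; ring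
  have hg : (gain p : ℤ) = pot p 1 + pot p 2 + pot p 3 + pot p 4 + pot p 5 + pot p 7 + pot p 8
      + pot p 9 := by unfold gain; push_cast; ring
  have hy : Y * ((pot p 4 : ℤ) - pot p 6) ≤ 6 * |(pot p 4 : ℤ) - pot p 6| := by
    calc Y * ((pot p 4 : ℤ) - pot p 6) ≤ |Y * ((pot p 4 : ℤ) - pot p 6)| := le_abs_self _
      _ = |Y| * |(pot p 4 : ℤ) - pot p 6| := abs_mul _ _
      _ ≤ 6 * |(pot p 4 : ℤ) - pot p 6| := mul_le_mul_of_nonneg_right hY (abs_nonneg _)
  rw [hl, hg]
  generalize (pot p 0 : ℤ) = r0 at *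
  generalize (pot p 1 : ℤ) = r1 at *
  generalize (pot p 2 : ℤ) = r2 at *
  generalize (pot p 3 : ℤ) = r3 at *
  generalize (pot p 4 : ℤ) = r4 at *
  generalize (pot p 5 : ℤ) = r5 at *
  generalize (pot p 6 : ℤ) = r6 at *
  generalize (pot p 7 : ℤ) = r7 at *
  generalize (pot p 8 : ℤ) = r8 at *
  generalize (pot p 9 : ℤ) = r9 at *
  generalize |r4 - r6| = m at *
  have id : (r1 - r0) * t 0 + (r3 - r2) * t 1 + (r0 - r3) * t 2 + (r2 - r1) * t 3 + (r5 - r0) * t 4 + (r4 - r5) * t 5 + (r1 - r4) * t 6 + (r3 - r7) * t 7 + (r6 - r2) * t 8 + (r7 - r6) * t 9 + (r8 - r0) * t 10 + (r5 - r9) * t 11 + (r9 - r8) * t 12 + (r8 - r7) * t 13 + (r6 - r9) * t 14 + (r4 - r6) * t 15 + (r6 - r4) * t 16 + (r4 - r6) * t 17 + (r6 - r4) * t 18 =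
      r0 * 0 + r1 * 2 + r2 * 2 + r3 * 2 + r4 * (2 - Y) + r5 * 2 + r6 * (-16 + Y) + r7 * 2 + r8 * 2 + r9 * 2 := by
    linear_combination r0 * e0 + r1 * e1 + r2 * e2 + r3 * e3 + r4 * e4 + r5 * e5 + r6 * e6 + r7 * e7 + r8 * e8 + r9 * e9
  simp only [Finset.sum_range_succ, Finset.sum_range_zero]
  linarith

theorem Cert.sound {t1 t2 : ℕ → ℤ} {Y1 Y2 : ℤ} (h1 : IsFlow t1 Y1) (h2 : IsFlow t2 Y2)
    (h : ∀ e < 19, t1 e = 0 ∨ t2 e = 0) : ∀ (c : Cert) (S T : List ℕ), c.check S T = true →
    (∀ e ∈ S, t1 e = 0) → (∀ e ∈ T, t2 e = 0) →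
    72 ≤ ∑ e ∈ Finset.range 19, |t1 e| + ∑ e ∈ Finset.range 19, |t2 e|
  | .leaf p q, S, T, hc, hS, hT => by
    unfold check at hc
    simp only [Bool.and_eq_true, decide_eq_true_eq] at hc
    have b1 := bound_le h1 S p hc.1.1 hS
    have b2 := bound_le h2 T q hc.1.2 hT
    have b3 : (36 : ℤ) + loss p + loss q ≤ gain p + gain q := by exact_mod_cast hc.2
    linarith
  | .node e l r, S, T, hc, hS, hT => by
    unfold check at hc
    simp only [Bool.and_eq_true, decide_eq_true_eq] at hc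
    rcases h e hc.1.1 with he | he
    · exact Cert.sound h1 h2 h l (e :: S) T hc.1.2 (by
        intro f hf
        rw [List.mem_cons] at hf
        rcases hf with rfl | hf
        · exact he
        · exact hS f hf) hT
    · exact Cert.sound h1 h2 h r S (e :: T) hc.2 hS (by
        intro f hf
        rw [List.mem_cons] at hf
        rcases hf with rfl | hf
        · exact he
        · exact hT f hf)

end Unbent
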