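import Pool.Agent.Unbent.Faces

/-!
Turns at bends and at vertices of an orthogonal drawing.
-/

namespace Unbent

open SignType DrawingData

variable {n : ℕ} {G : PlaneFourGraph n}

/-- A proper turn. -/
def Perp (p q r : Pt) : Prop := (p.1 = q.1 ∧ q.2 = r.2) ∨ (p.2 = q.2 ∧ q.1 = r.1)

theorem perp_sign1 : ∀ a b : SignType, a ≠ 0 → b ≠ 0 →
    dS (-a) 0 (-a) (-b) + dS (-a) (-b) 0 (-b) = -(dS 0 b a b + dS a b a 0) ∧
    |dS 0 b a b + dS a b a 0| ≤ 2 := by
  decide

theorem perp_sign2 : ∀ a b : SignType, a ≠ 0 → b ≠ 0 →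
    dS 0 (-b) (-a) (-b) + dS (-a) (-b) (-a) 0 = -(dS a 0 a b + dS a b 0 b) ∧
    |dS a 0 a b + dS a b 0 b| ≤ 2 := by
  decide

theorem tau_perp {p q r : Pt} (h : Perp p q r) (n1 : p ≠ q) (n2 : q ≠ r) :
    tau r q p = -tau p q r ∧ |tau p q r| ≤ 2 := by
  rcases h with ⟨h1, h2⟩ | ⟨h1, h2⟩
  · have m1 : q.2 - p.2 ≠ 0 := fun h => n1 (Prod.ext h1 (by linarith))
    have m2 : r.1 - q.1 ≠ 0 := fun h => n2 (Prod.ext (by linarith) h2)
    have key := perp_sign1 (sign (r.1 - q.1)) (sign (q.2 - p.2))
      (by rwa [Ne, sign_eq_zero_iff]) (by rwa [Ne, sign_eq_zero_iff])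
    have s1 : sign (q.1 - p.1) = 0 := sign_eq_zero_iff.2 (by linarith)
    have s2 : r.1 - p.1 = r.1 - q.1 := by rw [h1]
    have s3 : r.2 - p.2 = q.2 - p.2 := by rw [h2]
    have s4 : sign (r.2 - q.2) = 0 := sign_eq_zero_iff.2 (by linarith)
    have t1 : sign (q.1 - r.1) = -sign (r.1 - q.1) := by rw [← sign_neg', neg_sub]
    have t2 : sign (q.2 - r.2) = 0 := sign_eq_zero_iff.2 (by linarith)
    have t3 : sign (p.1 - r.1) = -sign (r.1 - q.1) := by rw [← sign_neg', neg_sub, h1]
    have t4 : sign (p.2 - r.2) = -sign (q.2 - p.2) := by rw [← sign_neg', neg_sub, h2]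
    have t5 : sign (p.1 - q.1) = 0 := sign_eq_zero_iff.2 (by linarith)
    have t6 : sign (p.2 - q.2) = -sign (q.2 - p.2) := by rw [← sign_neg', neg_sub]
    simp only [tau, dl, Prod.fst_sub, Prod.snd_sub, s1, s2, s3, s4, t1, t2, t3, t4, t5, t6]
    exact key
  · have m1 : q.1 - p.1 ≠ 0 := fun h => n1 (Prod.ext (by linarith) h1)
    have m2 : r.2 - q.2 ≠ 0 := fun h => n2 (Prod.ext h2 (by linarith))
    have key := perp_sign2 (sign (q.1 - p.1)) (sign (r.2 - q.2))
      (by rwa [Ne, sign_eq_zero_iff]) (by rwa [Ne, sign_eq_zero_iff])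
    have s1 : sign (q.2 - p.2) = 0 := sign_eq_zero_iff.2 (by linarith)
    have s2 : r.2 - p.2 = r.2 - q.2 := by rw [h1]
    have s3 : r.1 - p.1 = q.1 - p.1 := by rw [h2]
    have s4 : sign (r.1 - q.1) = 0 := sign_eq_zero_iff.2 (by linarith)
    have t1 : sign (q.2 - r.2) = -sign (r.2 - q.2) := by rw [← sign_neg', neg_sub]
    have t2 : sign (q.1 - r.1) = 0 := sign_eq_zero_iff.2 (by linarith)
    have t3 : sign (p.2 - r.2) = -sign (r.2 - q.2) := by rw [← sign_neg', neg_sub, h1]
    have t4 : sign (p.1 - r.1) = -sign (q.1 - p.1) := by rw [← sign_neg', neg_sub, h2]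
    have t5 : sign (p.2 - q.2) = 0 := sign_eq_zero_iff.2 (by linarith)
    have t6 : sign (p.1 - q.1) = -sign (q.1 - p.1) := by rw [← sign_neg', neg_sub]
    simp only [tau, dl, Prod.fst_sub, Prod.snd_sub, s1, s2, s3, s4, t1, t2, t3, t4, t5, t6]
    exact key

theorem length_triples {α : Type} : ∀ M : List α, (triples M).length = M.length - 2
  | [] => rfl
  | [x] => rfl
  | [x, y] => rfl
  | x :: y :: z :: l => by
    have ih := length_triples (y :: z :: l)
    simp only [triples, List.length_cons] at ih ⊢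
    omega

theorem triples_reverse {α : Type} : ∀ M : List α,
    triples M.reverse = ((triples M).map fun e => (e.2.2, e.2.1, e.1)).reverse
  | [] => rfl
  | [x] => rfl
  | [x, y] => rfl
  | x :: y :: z :: l => by
    have ih := triples_reverse (y :: z :: l)
    have e : (x :: y :: z :: l).reverse = l.reverse ++ z :: y :: [x] := by simp
    have e' : (y :: z :: l).reverse = l.reverse ++ [z, y] := by simp
    rw [e, triples_append, ← e', ih]
    simp [triples]

theorem triples_ne {α : Type} : ∀ M : List α, M.Nodup → ∀ e ∈ triples M, e.1 ≠ e.2.1 ∧ e.2.1 ≠ e.2.2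
  | [], _, e, he => by simp [triples] at he
  | [x], _, e, he => by simp [triples] at he
  | [x, y], _, e, he => by simp [triples] at he
  | x :: y :: z :: l, h, e, he => by
    rw [triples, List.mem_cons] at he
    rw [List.nodup_cons] at h
    rcases he with rfl | he
    · refine ⟨fun hxy => h.1 (by simp only at hxy; simp [hxy]), fun hyz => ?_⟩
      simp only at hyz
      rw [List.nodup_cons] at h
      exact h.2.1 (by simp [hyz])
    · exact triples_ne _ h.2 e he

theorem tsum_reverse {M : List Pt} (h : ∀ e ∈ triples M, Perp e.1 e.2.1 e.2.2)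
    (hnd : M.Nodup) : tsum M.reverse = -tsum M := by
  unfold tsum
  rw [triples_reverse, List.map_reverse, List.sum_reverse, List.map_map]
  have hne := triples_ne M hnd
  generalize triples M = K at h hne ⊢
  induction K with
  | nil => simp
  | cons e K ih =>
    rw [List.map_cons, List.map_cons, List.sum_cons, List.sum_cons,
      ih (fun f hf => h f (List.mem_cons_of_mem _ hf))
        (fun f hf => hne f (List.mem_cons_of_mem _ hf))]
    have hn := hne e List.mem_cons_self
    have := (tau_perp (h e List.mem_cons_self) hn.1 hn.2).1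
    simp only [Function.comp]
    rw [this]; ring

theorem tsum_abs {M : List Pt} (h : ∀ e ∈ triples M, Perp e.1 e.2.1 e.2.2)
    (hnd : M.Nodup) : |tsum M| ≤ 2 * (M.length - 2 : ℕ) := by
  unfold tsum
  rw [← length_triples]
  have hne := triples_ne M hnd
  generalize triples M = K at h hne ⊢
  induction K with
  | nil => simp
  | cons e K ih =>
    have i := ih (fun f hf => h f (List.mem_cons_of_mem _ hf))
        (fun f hf => hne f (List.mem_cons_of_mem _ hf))
    have hn := hne e List.mem_cons_self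
    have := (tau_perp (h e List.mem_cons_self) hn.1 hn.2).2
    rw [List.map_cons, List.sum_cons, List.length_cons]
    push_cast
    calc |tau e.1 e.2.1 e.2.2 + _| ≤ |tau e.1 e.2.1 e.2.2| + |_| := abs_add_le _ _
      _ ≤ 2 + 2 * (K.length : ℤ) := add_le_add this i
      _ = _ := by ring

theorem dirIx_0 {v : Pt} (h : 0 < v.1) : dirIx v = 0 := by simp [dirIx, h]
theorem dirIx_1 {v : Pt} (h : v.1 = 0) (h' : 0 < v.2) : dirIx v = 1 := by simp [dirIx, h, h']
theorem dirIx_2 {v : Pt} (h : v.1 < 0) (h' : v.2 = 0) : dirIx v = 2 := by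
  simp [dirIx, h, h', h.le]
theorem dirIx_3 {v : Pt} (h : v.1 = 0) (h' : v.2 < 0) : dirIx v = 3 := by
  simp [dirIx, h, h'.le]

/-- Sign pattern of a direction. -/
def patt : Fin 4 → SignType × SignType
  | 0 => (1, 0)
  | 1 => (0, 1)
  | 2 => (-1, 0)
  | 3 => (0, -1)

theorem tau_ccw {p q r : Pt} (h1 : Axis p q) (h2 : Axis q r) (n1 : p ≠ q) (n2 : q ≠ r)
    (ha : box p q ∩ box q r ⊆ {q}) :
    tau p q r = 4 - 2 * (ccw (dirIx (r - q)) (dirIx (p - q)) : ℕ) := by
  obtain ⟨nf1, nf2, nf3, nf4⟩ := no_fold h1 h2 n1 n2 ha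
  rcases axis_cases h1 n1 with ⟨a, b⟩ | ⟨a, b⟩ | ⟨a, b⟩ | ⟨a, b⟩ <;>
  rcases axis_cases h2 n2 with ⟨c, d⟩ | ⟨c, d⟩ | ⟨c, d⟩ | ⟨c, d⟩
  · have s1 : sign (q.1 - p.1) = 1 := sign_pos (by linarith)
    have s2 : sign (q.2 - p.2) = 0 := sign_eq_zero_iff.2 (by linarith)
    have s3 : sign (r.1 - p.1) = 1 := sign_pos (by linarith)
    have s4 : sign (r.2 - p.2) = 0 := sign_eq_zero_iff.2 (by linarith)
    have s5 : sign (r.1 - q.1) = 1 := sign_pos (by linarith)
    have s6 : sign (r.2 - q.2) = 0 := sign_eq_zero_iff.2 (by linarith)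
    have e1 : dirIx (r - q) = 0 := dirIx_0 (by simp only [Prod.fst_sub]; linarith)
    have e2 : dirIx (p - q) = 2 := dirIx_2 (by simp only [Prod.fst_sub]; linarith) (by simp only [Prod.snd_sub]; linarith)
    rw [e1, e2]
    simp only [tau, dl, Prod.fst_sub, Prod.snd_sub, s1, s2, s3, s4, s5, s6]
    decide
  · have s1 : sign (q.1 - p.1) = 1 := sign_pos (by linarith)
    have s2 : sign (q.2 - p.2) = 0 := sign_eq_zero_iff.2 (by linarith)
    have s3 : sign (r.1 - p.1) = 1 := sign_pos (by linarith)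
    have s4 : sign (r.2 - p.2) = 1 := sign_pos (by linarith)
    have s5 : sign (r.1 - q.1) = 0 := sign_eq_zero_iff.2 (by linarith)
    have s6 : sign (r.2 - q.2) = 1 := sign_pos (by linarith)
    have e1 : dirIx (r - q) = 1 := dirIx_1 (by simp only [Prod.fst_sub]; linarith) (by simp only [Prod.snd_sub]; linarith)
    have e2 : dirIx (p - q) = 2 := dirIx_2 (by simp only [Prod.fst_sub]; linarith) (by simp only [Prod.snd_sub]; linarith)
    rw [e1, e2]
    simp only [tau, dl, Prod.fst_sub, Prod.snd_sub, s1, s2, s3, s4, s5, s6]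
    decide
  · exact absurd (nf1 a) (by linarith)
  · have s1 : sign (q.1 - p.1) = 1 := sign_pos (by linarith)
    have s2 : sign (q.2 - p.2) = 0 := sign_eq_zero_iff.2 (by linarith)
    have s3 : sign (r.1 - p.1) = 1 := sign_pos (by linarith)
    have s4 : sign (r.2 - p.2) = -1 := sign_neg (by linarith)
    have s5 : sign (r.1 - q.1) = 0 := sign_eq_zero_iff.2 (by linarith)
    have s6 : sign (r.2 - q.2) = -1 := sign_neg (by linarith)
    have e1 : dirIx (r - q) = 3 := dirIx_3 (by simp only [Prod.fst_sub]; linarith) (by simp only [Prod.snd_sub]; linarith)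
    have e2 : dirIx (p - q) = 2 := dirIx_2 (by simp only [Prod.fst_sub]; linarith) (by simp only [Prod.snd_sub]; linarith)
    rw [e1, e2]
    simp only [tau, dl, Prod.fst_sub, Prod.snd_sub, s1, s2, s3, s4, s5, s6]
    decide
  · have s1 : sign (q.1 - p.1) = 0 := sign_eq_zero_iff.2 (by linarith)
    have s2 : sign (q.2 - p.2) = 1 := sign_pos (by linarith)
    have s3 : sign (r.1 - p.1) = 1 := sign_pos (by linarith)
    have s4 : sign (r.2 - p.2) = 1 := sign_pos (by linarith)
    have s5 : sign (r.1 - q.1) = 1 := sign_pos (by linarith)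
    have s6 : sign (r.2 - q.2) = 0 := sign_eq_zero_iff.2 (by linarith)
    have e1 : dirIx (r - q) = 0 := dirIx_0 (by simp only [Prod.fst_sub]; linarith)
    have e2 : dirIx (p - q) = 3 := dirIx_3 (by simp only [Prod.fst_sub]; linarith) (by simp only [Prod.snd_sub]; linarith)
    rw [e1, e2]
    simp only [tau, dl, Prod.fst_sub, Prod.snd_sub, s1, s2, s3, s4, s5, s6]
    decide
  · have s1 : sign (q.1 - p.1) = 0 := sign_eq_zero_iff.2 (by linarith)
    have s2 : sign (q.2 - p.2) = 1 := sign_pos (by linarith)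
    have s3 : sign (r.1 - p.1) = 0 := sign_eq_zero_iff.2 (by linarith)
    have s4 : sign (r.2 - p.2) = 1 := sign_pos (by linarith)
    have s5 : sign (r.1 - q.1) = 0 := sign_eq_zero_iff.2 (by linarith)
    have s6 : sign (r.2 - q.2) = 1 := sign_pos (by linarith)
    have e1 : dirIx (r - q) = 1 := dirIx_1 (by simp only [Prod.fst_sub]; linarith) (by simp only [Prod.snd_sub]; linarith)
    have e2 : dirIx (p - q) = 3 := dirIx_3 (by simp only [Prod.fst_sub]; linarith) (by simp only [Prod.snd_sub]; linarith)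
    rw [e1, e2]
    simp only [tau, dl, Prod.fst_sub, Prod.snd_sub, s1, s2, s3, s4, s5, s6]
    decide
  · have s1 : sign (q.1 - p.1) = 0 := sign_eq_zero_iff.2 (by linarith)
    have s2 : sign (q.2 - p.2) = 1 := sign_pos (by linarith)
    have s3 : sign (r.1 - p.1) = -1 := sign_neg (by linarith)
    have s4 : sign (r.2 - p.2) = 1 := sign_pos (by linarith)
    have s5 : sign (r.1 - q.1) = -1 := sign_neg (by linarith)
    have s6 : sign (r.2 - q.2) = 0 := sign_eq_zero_iff.2 (by linarith)
    have e1 : dirIx (r - q) = 2 := dirIx_2 (by simp only [Prod.fst_sub]; linarith) (by simp only [Prod.snd_sub]; linarith)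
    have e2 : dirIx (p - q) = 3 := dirIx_3 (by simp only [Prod.fst_sub]; linarith) (by simp only [Prod.snd_sub]; linarith)
    rw [e1, e2]
    simp only [tau, dl, Prod.fst_sub, Prod.snd_sub, s1, s2, s3, s4, s5, s6]
    decide
  · exact absurd (nf3 a) (by linarith)
  · exact absurd (nf2 a) (by linarith)
  · have s1 : sign (q.1 - p.1) = -1 := sign_neg (by linarith)
    have s2 : sign (q.2 - p.2) = 0 := sign_eq_zero_iff.2 (by linarith)
    have s3 : sign (r.1 - p.1) = -1 := sign_neg (by linarith)
    have s4 : sign (r.2 - p.2) = 1 := sign_pos (by linarith)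
    have s5 : sign (r.1 - q.1) = 0 := sign_eq_zero_iff.2 (by linarith)
    have s6 : sign (r.2 - q.2) = 1 := sign_pos (by linarith)
    have e1 : dirIx (r - q) = 1 := dirIx_1 (by simp only [Prod.fst_sub]; linarith) (by simp only [Prod.snd_sub]; linarith)
    have e2 : dirIx (p - q) = 0 := dirIx_0 (by simp only [Prod.fst_sub]; linarith)
    rw [e1, e2]
    simp only [tau, dl, Prod.fst_sub, Prod.snd_sub, s1, s2, s3, s4, s5, s6]
    decide
  · have s1 : sign (q.1 - p.1) = -1 := sign_neg (by linarith)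
    have s2 : sign (q.2 - p.2) = 0 := sign_eq_zero_iff.2 (by linarith)
    have s3 : sign (r.1 - p.1) = -1 := sign_neg (by linarith)
    have s4 : sign (r.2 - p.2) = 0 := sign_eq_zero_iff.2 (by linarith)
    have s5 : sign (r.1 - q.1) = -1 := sign_neg (by linarith)
    have s6 : sign (r.2 - q.2) = 0 := sign_eq_zero_iff.2 (by linarith)
    have e1 : dirIx (r - q) = 2 := dirIx_2 (by simp only [Prod.fst_sub]; linarith) (by simp only [Prod.snd_sub]; linarith)
    have e2 : dirIx (p - q) = 0 := dirIx_0 (by simp only [Prod.fst_sub]; linarith)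
    rw [e1, e2]
    simp only [tau, dl, Prod.fst_sub, Prod.snd_sub, s1, s2, s3, s4, s5, s6]
    decide
  · have s1 : sign (q.1 - p.1) = -1 := sign_neg (by linarith)
    have s2 : sign (q.2 - p.2) = 0 := sign_eq_zero_iff.2 (by linarith)
    have s3 : sign (r.1 - p.1) = -1 := sign_neg (by linarith)
    have s4 : sign (r.2 - p.2) = -1 := sign_neg (by linarith)
    have s5 : sign (r.1 - q.1) = 0 := sign_eq_zero_iff.2 (by linarith)
    have s6 : sign (r.2 - q.2) = -1 := sign_neg (by linarith)
    have e1 : dirIx (r - q) = 3 := dirIx_3 (by simp only [Prod.fst_sub]; linarith) (by simp only [Prod.snd_sub]; linarith)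
    have e2 : dirIx (p - q) = 0 := dirIx_0 (by simp only [Prod.fst_sub]; linarith)
    rw [e1, e2]
    simp only [tau, dl, Prod.fst_sub, Prod.snd_sub, s1, s2, s3, s4, s5, s6]
    decide
  · have s1 : sign (q.1 - p.1) = 0 := sign_eq_zero_iff.2 (by linarith)
    have s2 : sign (q.2 - p.2) = -1 := sign_neg (by linarith)
    have s3 : sign (r.1 - p.1) = 1 := sign_pos (by linarith)
    have s4 : sign (r.2 - p.2) = -1 := sign_neg (by linarith)
    have s5 : sign (r.1 - q.1) = 1 := sign_pos (by linarith)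
    have s6 : sign (r.2 - q.2) = 0 := sign_eq_zero_iff.2 (by linarith)
    have e1 : dirIx (r - q) = 0 := dirIx_0 (by simp only [Prod.fst_sub]; linarith)
    have e2 : dirIx (p - q) = 1 := dirIx_1 (by simp only [Prod.fst_sub]; linarith) (by simp only [Prod.snd_sub]; linarith)
    rw [e1, e2]
    simp only [tau, dl, Prod.fst_sub, Prod.snd_sub, s1, s2, s3, s4, s5, s6]
    decide
  · exact absurd (nf4 a) (by linarith)
  · have s1 : sign (q.1 - p.1) = 0 := sign_eq_zero_iff.2 (by linarith)
    have s2 : sign (q.2 - p.2) = -1 := sign_neg (by linarith)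
    have s3 : sign (r.1 - p.1) = -1 := sign_neg (by linarith)
    have s4 : sign (r.2 - p.2) = -1 := sign_neg (by linarith)
    have s5 : sign (r.1 - q.1) = -1 := sign_neg (by linarith)
    have s6 : sign (r.2 - q.2) = 0 := sign_eq_zero_iff.2 (by linarith)
    have e1 : dirIx (r - q) = 2 := dirIx_2 (by simp only [Prod.fst_sub]; linarith) (by simp only [Prod.snd_sub]; linarith)
    have e2 : dirIx (p - q) = 1 := dirIx_1 (by simp only [Prod.fst_sub]; linarith) (by simp only [Prod.snd_sub]; linarith)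
    rw [e1, e2]
    simp only [tau, dl, Prod.fst_sub, Prod.snd_sub, s1, s2, s3, s4, s5, s6]
    decide
  · have s1 : sign (q.1 - p.1) = 0 := sign_eq_zero_iff.2 (by linarith)
    have s2 : sign (q.2 - p.2) = -1 := sign_neg (by linarith)
    have s3 : sign (r.1 - p.1) = 0 := sign_eq_zero_iff.2 (by linarith)
    have s4 : sign (r.2 - p.2) = -1 := sign_neg (by linarith)
    have s5 : sign (r.1 - q.1) = 0 := sign_eq_zero_iff.2 (by linarith)
    have s6 : sign (r.2 - q.2) = -1 := sign_neg (by linarith)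
    have e1 : dirIx (r - q) = 3 := dirIx_3 (by simp only [Prod.fst_sub]; linarith) (by simp only [Prod.snd_sub]; linarith)
    have e2 : dirIx (p - q) = 1 := dirIx_1 (by simp only [Prod.fst_sub]; linarith) (by simp only [Prod.snd_sub]; linarith)
    rw [e1, e2]
    simp only [tau, dl, Prod.fst_sub, Prod.snd_sub, s1, s2, s3, s4, s5, s6]
    decide

theorem ccw_pos (a b : Fin 4) : 1 ≤ ccw a b := by revert a b; decide

namespace OrthoDrawing

variable (D : OrthoDrawing G)

theorem chain_nodup {u v : Fin n} (h : G.graph.Adj u v) : (D.chain u v).Nodup := by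
  have ho := D.isOrthogonal
  unfold DrawingData.chain
  rw [List.nodup_cons, List.nodup_append]
  refine ⟨?_, ho.bends_nodup u v, by simp, ?_⟩
  · rw [List.mem_append, not_or]
    refine ⟨ho.pos_ne_bend _ _ _, ?_⟩
    rw [List.mem_singleton]
    exact fun he => h.ne (ho.pos_inj he)
  · intro p hp q hq
    rw [List.mem_singleton] at hq
    subst hq
    rintro rfl
    exact ho.pos_ne_bend _ _ _ hp

theorem chain_reverse (u v : Fin n) : (D.chain u v).reverse = D.chain v u := by
  unfold DrawingData.chain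
  rw [D.isOrthogonal.bends_symm u v]
  simp

theorem tt_symm {u v : Fin n} (h : G.graph.Adj u v) : D.tt v u = -D.tt u v := by
  unfold tt
  rw [← D.chain_reverse u v]
  exact tsum_reverse (fun e he => D.isOrthogonal.turn u v h _ _ _ he) (D.chain_nodup h)

theorem tt_abs {u v : Fin n} (h : G.graph.Adj u v) :
    |D.tt u v| ≤ 2 * ((D.bends u v).length : ℤ) := by
  unfold tt
  have := tsum_abs (fun e he => D.isOrthogonal.turn u v h _ _ _ he) (D.chain_nodup h)
  have hl : (D.chain u v).length - 2 = (D.bends u v).length := by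
    unfold DrawingData.chain; simp
  rwa [hl] at this

theorem piece_next {u v : Fin n} (h : G.graph.Adj u v) : D.IsPiece G (D.pos u) (D.next u v) := by
  refine ⟨u, v, h, ?_⟩
  unfold DrawingData.chain DrawingData.next
  cases D.bends u v with
  | nil => simp [segs]
  | cons y Y => simp [segs]

theorem next_mem (u v : Fin n) : D.next u v ∈ D.bends u v ∨ D.next u v = D.pos v := by
  unfold DrawingData.next
  cases D.bends u v with
  | nil => right; rfl
  | cons y Y => left; simp

theorem pos_ne_next {u v : Fin n} (h : G.graph.Adj u v) : D.pos u ≠ D.next u v := by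
  have ho := D.isOrthogonal
  rcases D.next_mem u v with hm | hm
  · intro he; rw [← he] at hm; exact ho.pos_ne_bend _ _ _ hm
  · rw [hm]; exact fun he => h.ne (ho.pos_inj he)

theorem next_ne_next {a b c : Fin n} (hac : a ≠ c) : D.next b a ≠ D.next b c := by
  have ho := D.isOrthogonal
  intro he
  rcases D.next_mem b a with h1 | h1 <;> rcases D.next_mem b c with h2 | h2
  · rw [he] at h1
    have := ho.bends_disj _ _ _ _ _ h1 h2
    rw [Sym2.eq_iff] at this
    rcases this with ⟨_, h⟩ | ⟨h, h'⟩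
    · exact hac h
    · exact hac (h'.trans h)
  · rw [he, h2] at h1; exact ho.pos_ne_bend _ _ _ h1
  · rw [← he, h1] at h2; exact ho.pos_ne_bend _ _ _ h2
  · rw [h1, h2] at he; exact hac (ho.pos_inj he)

theorem cor_eq {a b c : Fin n} (h1 : G.graph.Adj b a) (h2 : G.graph.Adj b c) (hac : a ≠ c) :
    D.cor a b c = 4 - 2 * (ccw (D.dir b c) (D.dir b a) : ℕ) := by
  have ho := D.isOrthogonal
  have p1 := D.piece_next h1
  have p2 := D.piece_next h2
  have a1 : Axis (D.next b a) (D.pos b) := (ho.piece _ _ p1).imp Eq.symm Eq.symm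
  have a2 : Axis (D.pos b) (D.next b c) := ho.piece _ _ p2
  have n1 := D.pos_ne_next h1
  have n2 := D.pos_ne_next h2
  refine tau_ccw a1 a2 n1.symm n2 ?_
  intro z hz
  have hne : s(D.pos b, D.next b a) ≠ s(D.pos b, D.next b c) := by
    intro he
    rw [Sym2.eq_iff] at he
    rcases he with ⟨_, h⟩ | ⟨h, _⟩
    · exact D.next_ne_next hac h
    · exact n2 h
  have hm : z ∈ segment ℝ (D.pos b) (D.next b a) ∩ segment ℝ (D.pos b) (D.next b c) :=
    ⟨by rw [segment_eq_box (ho.piece _ _ p1), box_comm]; exact hz.1,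
     by rw [segment_eq_box (ho.piece _ _ p2)]; exact hz.2⟩
  obtain ⟨hz1, hz2⟩ := ho.planar _ _ _ _ p1 p2 hne hm
  rcases hz1 with hz1 | hz1
  · exact hz1
  · rcases hz2 with hz2 | hz2
    · exact hz2
    · exact absurd (hz1.symm.trans hz2) (D.next_ne_next hac)

end OrthoDrawing

end Unbent
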