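import Pool.Agent.Unbent.Outer

/-!
The local computation of the winding number next to the left side of a side.
-/

set_option linter.unusedVariables false

namespace Unbent

open SignType Filter Topology

/-- The point at parameter `e` on the left of the midpoint of `p q`. -/
noncomputable def leftPt (p q : Pt) (e : ℝ) : Pt :=
  ((p.1 + q.1) / 2 - e * (q.2 - p.2), (p.2 + q.2) / 2 + e * (q.1 - p.1))

theorem corr_0_0 {p q r z : Pt}
    (h1 : p.1 < q.1) (h2 : p.2 = q.2) (h3 : r.1 < p.1) (h4 : p.2 = r.2)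
    (h5 : p.1 < z.1) (h6 : p.2 < z.2) (h7 : z.1 < q.1) (h8 : q.2 < z.2)
    (h9 : r.1 < z.1) (h10 : r.2 < z.2) :
    dl (p - z) (q - z) + dl (r - z) (p - z) + dl (r - p) (r - z) - dl (q - p) (q - z)
      - tau r p q = 4 := by
  have s1 : sign (p.1 - z.1) = -1 := sign_neg (by linarith)
  have s2 : sign (p.2 - z.2) = -1 := sign_neg (by linarith)
  have s3 : sign (q.1 - z.1) = 1 := sign_pos (by linarith)
  have s4 : sign (q.2 - z.2) = -1 := sign_neg (by linarith)
  have s5 : sign (r.1 - z.1) = -1 := sign_neg (by linarith)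
  have s6 : sign (r.2 - z.2) = -1 := sign_neg (by linarith)
  have s7 : sign (r.1 - p.1) = -1 := sign_neg (by linarith)
  have s8 : sign (r.2 - p.2) = 0 := sign_eq_zero_iff.2 (by linarith)
  have s9 : sign (q.1 - p.1) = 1 := sign_pos (by linarith)
  have s10 : sign (q.2 - p.2) = 0 := sign_eq_zero_iff.2 (by linarith)
  have s11 : sign (p.1 - r.1) = 1 := sign_pos (by linarith)
  have s12 : sign (p.2 - r.2) = 0 := sign_eq_zero_iff.2 (by linarith)
  have s13 : sign (q.1 - r.1) = 1 := sign_pos (by linarith)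
  have s14 : sign (q.2 - r.2) = 0 := sign_eq_zero_iff.2 (by linarith)
  simp only [tau, dl, Prod.fst_sub, Prod.snd_sub, s1, s2, s3, s4, s5, s6, s7, s8, s9, s10, s11, s12, s13, s14]
  decide

theorem corr_0_1 {p q r z : Pt}
    (h1 : p.1 < q.1) (h2 : p.2 = q.2) (h3 : p.1 = r.1) (h4 : p.2 < r.2)
    (h5 : p.1 < z.1) (h6 : p.2 < z.2) (h7 : z.1 < q.1) (h8 : q.2 < z.2)
    (h9 : r.1 < z.1) (h10 : z.2 < r.2) :
    dl (p - z) (q - z) + dl (r - z) (p - z) + dl (r - p) (r - z) - dl (q - p) (q - z)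
      - tau r p q = 4 := by
  have s1 : sign (p.1 - z.1) = -1 := sign_neg (by linarith)
  have s2 : sign (p.2 - z.2) = -1 := sign_neg (by linarith)
  have s3 : sign (q.1 - z.1) = 1 := sign_pos (by linarith)
  have s4 : sign (q.2 - z.2) = -1 := sign_neg (by linarith)
  have s5 : sign (r.1 - z.1) = -1 := sign_neg (by linarith)
  have s6 : sign (r.2 - z.2) = 1 := sign_pos (by linarith)
  have s7 : sign (r.1 - p.1) = 0 := sign_eq_zero_iff.2 (by linarith)
  have s8 : sign (r.2 - p.2) = 1 := sign_pos (by linarith)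
  have s9 : sign (q.1 - p.1) = 1 := sign_pos (by linarith)
  have s10 : sign (q.2 - p.2) = 0 := sign_eq_zero_iff.2 (by linarith)
  have s11 : sign (p.1 - r.1) = 0 := sign_eq_zero_iff.2 (by linarith)
  have s12 : sign (p.2 - r.2) = -1 := sign_neg (by linarith)
  have s13 : sign (q.1 - r.1) = 1 := sign_pos (by linarith)
  have s14 : sign (q.2 - r.2) = -1 := sign_neg (by linarith)
  simp only [tau, dl, Prod.fst_sub, Prod.snd_sub, s1, s2, s3, s4, s5, s6, s7, s8, s9, s10, s11, s12, s13, s14]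
  decide

theorem corr_0_2 {p q r z : Pt}
    (h1 : p.1 < q.1) (h2 : p.2 = q.2) (h3 : p.1 = r.1) (h4 : r.2 < p.2)
    (h5 : p.1 < z.1) (h6 : p.2 < z.2) (h7 : z.1 < q.1) (h8 : q.2 < z.2)
    (h9 : r.1 < z.1) (h10 : r.2 < z.2) :
    dl (p - z) (q - z) + dl (r - z) (p - z) + dl (r - p) (r - z) - dl (q - p) (q - z)
      - tau r p q = 4 := by
  have s1 : sign (p.1 - z.1) = -1 := sign_neg (by linarith)
  have s2 : sign (p.2 - z.2) = -1 := sign_neg (by linarith)
  have s3 : sign (q.1 - z.1) = 1 := sign_pos (by linarith)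
  have s4 : sign (q.2 - z.2) = -1 := sign_neg (by linarith)
  have s5 : sign (r.1 - z.1) = -1 := sign_neg (by linarith)
  have s6 : sign (r.2 - z.2) = -1 := sign_neg (by linarith)
  have s7 : sign (r.1 - p.1) = 0 := sign_eq_zero_iff.2 (by linarith)
  have s8 : sign (r.2 - p.2) = -1 := sign_neg (by linarith)
  have s9 : sign (q.1 - p.1) = 1 := sign_pos (by linarith)
  have s10 : sign (q.2 - p.2) = 0 := sign_eq_zero_iff.2 (by linarith)
  have s11 : sign (p.1 - r.1) = 0 := sign_eq_zero_iff.2 (by linarith)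
  have s12 : sign (p.2 - r.2) = 1 := sign_pos (by linarith)
  have s13 : sign (q.1 - r.1) = 1 := sign_pos (by linarith)
  have s14 : sign (q.2 - r.2) = 1 := sign_pos (by linarith)
  simp only [tau, dl, Prod.fst_sub, Prod.snd_sub, s1, s2, s3, s4, s5, s6, s7, s8, s9, s10, s11, s12, s13, s14]
  decide

theorem corr_1_0 {p q r z : Pt}
    (h1 : p.1 = q.1) (h2 : p.2 < q.2) (h3 : p.1 = r.1) (h4 : r.2 < p.2)
    (h5 : z.1 < p.1) (h6 : p.2 < z.2) (h7 : z.1 < q.1) (h8 : z.2 < q.2)
    (h9 : z.1 < r.1) (h10 : r.2 < z.2) :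
    dl (p - z) (q - z) + dl (r - z) (p - z) + dl (r - p) (r - z) - dl (q - p) (q - z)
      - tau r p q = 4 := by
  have s1 : sign (p.1 - z.1) = 1 := sign_pos (by linarith)
  have s2 : sign (p.2 - z.2) = -1 := sign_neg (by linarith)
  have s3 : sign (q.1 - z.1) = 1 := sign_pos (by linarith)
  have s4 : sign (q.2 - z.2) = 1 := sign_pos (by linarith)
  have s5 : sign (r.1 - z.1) = 1 := sign_pos (by linarith)
  have s6 : sign (r.2 - z.2) = -1 := sign_neg (by linarith)
  have s7 : sign (r.1 - p.1) = 0 := sign_eq_zero_iff.2 (by linarith)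
  have s8 : sign (r.2 - p.2) = -1 := sign_neg (by linarith)
  have s9 : sign (q.1 - p.1) = 0 := sign_eq_zero_iff.2 (by linarith)
  have s10 : sign (q.2 - p.2) = 1 := sign_pos (by linarith)
  have s11 : sign (p.1 - r.1) = 0 := sign_eq_zero_iff.2 (by linarith)
  have s12 : sign (p.2 - r.2) = 1 := sign_pos (by linarith)
  have s13 : sign (q.1 - r.1) = 0 := sign_eq_zero_iff.2 (by linarith)
  have s14 : sign (q.2 - r.2) = 1 := sign_pos (by linarith)
  simp only [tau, dl, Prod.fst_sub, Prod.snd_sub, s1, s2, s3, s4, s5, s6, s7, s8, s9, s10, s11, s12, s13, s14]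
  decide

theorem corr_1_1 {p q r z : Pt}
    (h1 : p.1 = q.1) (h2 : p.2 < q.2) (h3 : r.1 < p.1) (h4 : p.2 = r.2)
    (h5 : z.1 < p.1) (h6 : p.2 < z.2) (h7 : z.1 < q.1) (h8 : z.2 < q.2)
    (h9 : r.1 < z.1) (h10 : r.2 < z.2) :
    dl (p - z) (q - z) + dl (r - z) (p - z) + dl (r - p) (r - z) - dl (q - p) (q - z)
      - tau r p q = 4 := by
  have s1 : sign (p.1 - z.1) = 1 := sign_pos (by linarith)
  have s2 : sign (p.2 - z.2) = -1 := sign_neg (by linarith)
  have s3 : sign (q.1 - z.1) = 1 := sign_pos (by linarith)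
  have s4 : sign (q.2 - z.2) = 1 := sign_pos (by linarith)
  have s5 : sign (r.1 - z.1) = -1 := sign_neg (by linarith)
  have s6 : sign (r.2 - z.2) = -1 := sign_neg (by linarith)
  have s7 : sign (r.1 - p.1) = -1 := sign_neg (by linarith)
  have s8 : sign (r.2 - p.2) = 0 := sign_eq_zero_iff.2 (by linarith)
  have s9 : sign (q.1 - p.1) = 0 := sign_eq_zero_iff.2 (by linarith)
  have s10 : sign (q.2 - p.2) = 1 := sign_pos (by linarith)
  have s11 : sign (p.1 - r.1) = 1 := sign_pos (by linarith)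
  have s12 : sign (p.2 - r.2) = 0 := sign_eq_zero_iff.2 (by linarith)
  have s13 : sign (q.1 - r.1) = 1 := sign_pos (by linarith)
  have s14 : sign (q.2 - r.2) = 1 := sign_pos (by linarith)
  simp only [tau, dl, Prod.fst_sub, Prod.snd_sub, s1, s2, s3, s4, s5, s6, s7, s8, s9, s10, s11, s12, s13, s14]
  decide

theorem corr_1_2 {p q r z : Pt}
    (h1 : p.1 = q.1) (h2 : p.2 < q.2) (h3 : p.1 < r.1) (h4 : p.2 = r.2)
    (h5 : z.1 < p.1) (h6 : p.2 < z.2) (h7 : z.1 < q.1) (h8 : z.2 < q.2)
    (h9 : z.1 < r.1) (h10 : r.2 < z.2) :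
    dl (p - z) (q - z) + dl (r - z) (p - z) + dl (r - p) (r - z) - dl (q - p) (q - z)
      - tau r p q = 4 := by
  have s1 : sign (p.1 - z.1) = 1 := sign_pos (by linarith)
  have s2 : sign (p.2 - z.2) = -1 := sign_neg (by linarith)
  have s3 : sign (q.1 - z.1) = 1 := sign_pos (by linarith)
  have s4 : sign (q.2 - z.2) = 1 := sign_pos (by linarith)
  have s5 : sign (r.1 - z.1) = 1 := sign_pos (by linarith)
  have s6 : sign (r.2 - z.2) = -1 := sign_neg (by linarith)
  have s7 : sign (r.1 - p.1) = 1 := sign_pos (by linarith)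
  have s8 : sign (r.2 - p.2) = 0 := sign_eq_zero_iff.2 (by linarith)
  have s9 : sign (q.1 - p.1) = 0 := sign_eq_zero_iff.2 (by linarith)
  have s10 : sign (q.2 - p.2) = 1 := sign_pos (by linarith)
  have s11 : sign (p.1 - r.1) = -1 := sign_neg (by linarith)
  have s12 : sign (p.2 - r.2) = 0 := sign_eq_zero_iff.2 (by linarith)
  have s13 : sign (q.1 - r.1) = -1 := sign_neg (by linarith)
  have s14 : sign (q.2 - r.2) = 1 := sign_pos (by linarith)
  simp only [tau, dl, Prod.fst_sub, Prod.snd_sub, s1, s2, s3, s4, s5, s6, s7, s8, s9, s10, s11, s12, s13, s14]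
  decide

theorem corr_2_0 {p q r z : Pt}
    (h1 : q.1 < p.1) (h2 : p.2 = q.2) (h3 : p.1 < r.1) (h4 : p.2 = r.2)
    (h5 : z.1 < p.1) (h6 : z.2 < p.2) (h7 : q.1 < z.1) (h8 : z.2 < q.2)
    (h9 : z.1 < r.1) (h10 : z.2 < r.2) :
    dl (p - z) (q - z) + dl (r - z) (p - z) + dl (r - p) (r - z) - dl (q - p) (q - z)
      - tau r p q = 4 := by
  have s1 : sign (p.1 - z.1) = 1 := sign_pos (by linarith)
  have s2 : sign (p.2 - z.2) = 1 := sign_pos (by linarith)
  have s3 : sign (q.1 - z.1) = -1 := sign_neg (by linarith)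
  have s4 : sign (q.2 - z.2) = 1 := sign_pos (by linarith)
  have s5 : sign (r.1 - z.1) = 1 := sign_pos (by linarith)
  have s6 : sign (r.2 - z.2) = 1 := sign_pos (by linarith)
  have s7 : sign (r.1 - p.1) = 1 := sign_pos (by linarith)
  have s8 : sign (r.2 - p.2) = 0 := sign_eq_zero_iff.2 (by linarith)
  have s9 : sign (q.1 - p.1) = -1 := sign_neg (by linarith)
  have s10 : sign (q.2 - p.2) = 0 := sign_eq_zero_iff.2 (by linarith)
  have s11 : sign (p.1 - r.1) = -1 := sign_neg (by linarith)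
  have s12 : sign (p.2 - r.2) = 0 := sign_eq_zero_iff.2 (by linarith)
  have s13 : sign (q.1 - r.1) = -1 := sign_neg (by linarith)
  have s14 : sign (q.2 - r.2) = 0 := sign_eq_zero_iff.2 (by linarith)
  simp only [tau, dl, Prod.fst_sub, Prod.snd_sub, s1, s2, s3, s4, s5, s6, s7, s8, s9, s10, s11, s12, s13, s14]
  decide

theorem corr_2_1 {p q r z : Pt}
    (h1 : q.1 < p.1) (h2 : p.2 = q.2) (h3 : p.1 = r.1) (h4 : r.2 < p.2)
    (h5 : z.1 < p.1) (h6 : z.2 < p.2) (h7 : q.1 < z.1) (h8 : z.2 < q.2)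
    (h9 : z.1 < r.1) (h10 : r.2 < z.2) :
    dl (p - z) (q - z) + dl (r - z) (p - z) + dl (r - p) (r - z) - dl (q - p) (q - z)
      - tau r p q = 4 := by
  have s1 : sign (p.1 - z.1) = 1 := sign_pos (by linarith)
  have s2 : sign (p.2 - z.2) = 1 := sign_pos (by linarith)
  have s3 : sign (q.1 - z.1) = -1 := sign_neg (by linarith)
  have s4 : sign (q.2 - z.2) = 1 := sign_pos (by linarith)
  have s5 : sign (r.1 - z.1) = 1 := sign_pos (by linarith)
  have s6 : sign (r.2 - z.2) = -1 := sign_neg (by linarith)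
  have s7 : sign (r.1 - p.1) = 0 := sign_eq_zero_iff.2 (by linarith)
  have s8 : sign (r.2 - p.2) = -1 := sign_neg (by linarith)
  have s9 : sign (q.1 - p.1) = -1 := sign_neg (by linarith)
  have s10 : sign (q.2 - p.2) = 0 := sign_eq_zero_iff.2 (by linarith)
  have s11 : sign (p.1 - r.1) = 0 := sign_eq_zero_iff.2 (by linarith)
  have s12 : sign (p.2 - r.2) = 1 := sign_pos (by linarith)
  have s13 : sign (q.1 - r.1) = -1 := sign_neg (by linarith)
  have s14 : sign (q.2 - r.2) = 1 := sign_pos (by linarith)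
  simp only [tau, dl, Prod.fst_sub, Prod.snd_sub, s1, s2, s3, s4, s5, s6, s7, s8, s9, s10, s11, s12, s13, s14]
  decide

theorem corr_2_2 {p q r z : Pt}
    (h1 : q.1 < p.1) (h2 : p.2 = q.2) (h3 : p.1 = r.1) (h4 : p.2 < r.2)
    (h5 : z.1 < p.1) (h6 : z.2 < p.2) (h7 : q.1 < z.1) (h8 : z.2 < q.2)
    (h9 : z.1 < r.1) (h10 : z.2 < r.2) :
    dl (p - z) (q - z) + dl (r - z) (p - z) + dl (r - p) (r - z) - dl (q - p) (q - z)
      - tau r p q = 4 := by
  have s1 : sign (p.1 - z.1) = 1 := sign_pos (by linarith)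
  have s2 : sign (p.2 - z.2) = 1 := sign_pos (by linarith)
  have s3 : sign (q.1 - z.1) = -1 := sign_neg (by linarith)
  have s4 : sign (q.2 - z.2) = 1 := sign_pos (by linarith)
  have s5 : sign (r.1 - z.1) = 1 := sign_pos (by linarith)
  have s6 : sign (r.2 - z.2) = 1 := sign_pos (by linarith)
  have s7 : sign (r.1 - p.1) = 0 := sign_eq_zero_iff.2 (by linarith)
  have s8 : sign (r.2 - p.2) = 1 := sign_pos (by linarith)
  have s9 : sign (q.1 - p.1) = -1 := sign_neg (by linarith)
  have s10 : sign (q.2 - p.2) = 0 := sign_eq_zero_iff.2 (by linarith)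
  have s11 : sign (p.1 - r.1) = 0 := sign_eq_zero_iff.2 (by linarith)
  have s12 : sign (p.2 - r.2) = -1 := sign_neg (by linarith)
  have s13 : sign (q.1 - r.1) = -1 := sign_neg (by linarith)
  have s14 : sign (q.2 - r.2) = -1 := sign_neg (by linarith)
  simp only [tau, dl, Prod.fst_sub, Prod.snd_sub, s1, s2, s3, s4, s5, s6, s7, s8, s9, s10, s11, s12, s13, s14]
  decide

theorem corr_3_0 {p q r z : Pt}
    (h1 : p.1 = q.1) (h2 : q.2 < p.2) (h3 : p.1 = r.1) (h4 : p.2 < r.2)
    (h5 : p.1 < z.1) (h6 : z.2 < p.2) (h7 : q.1 < z.1) (h8 : q.2 < z.2)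
    (h9 : r.1 < z.1) (h10 : z.2 < r.2) :
    dl (p - z) (q - z) + dl (r - z) (p - z) + dl (r - p) (r - z) - dl (q - p) (q - z)
      - tau r p q = 4 := by
  have s1 : sign (p.1 - z.1) = -1 := sign_neg (by linarith)
  have s2 : sign (p.2 - z.2) = 1 := sign_pos (by linarith)
  have s3 : sign (q.1 - z.1) = -1 := sign_neg (by linarith)
  have s4 : sign (q.2 - z.2) = -1 := sign_neg (by linarith)
  have s5 : sign (r.1 - z.1) = -1 := sign_neg (by linarith)
  have s6 : sign (r.2 - z.2) = 1 := sign_pos (by linarith)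
  have s7 : sign (r.1 - p.1) = 0 := sign_eq_zero_iff.2 (by linarith)
  have s8 : sign (r.2 - p.2) = 1 := sign_pos (by linarith)
  have s9 : sign (q.1 - p.1) = 0 := sign_eq_zero_iff.2 (by linarith)
  have s10 : sign (q.2 - p.2) = -1 := sign_neg (by linarith)
  have s11 : sign (p.1 - r.1) = 0 := sign_eq_zero_iff.2 (by linarith)
  have s12 : sign (p.2 - r.2) = -1 := sign_neg (by linarith)
  have s13 : sign (q.1 - r.1) = 0 := sign_eq_zero_iff.2 (by linarith)
  have s14 : sign (q.2 - r.2) = -1 := sign_neg (by linarith)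
  simp only [tau, dl, Prod.fst_sub, Prod.snd_sub, s1, s2, s3, s4, s5, s6, s7, s8, s9, s10, s11, s12, s13, s14]
  decide

theorem corr_3_1 {p q r z : Pt}
    (h1 : p.1 = q.1) (h2 : q.2 < p.2) (h3 : p.1 < r.1) (h4 : p.2 = r.2)
    (h5 : p.1 < z.1) (h6 : z.2 < p.2) (h7 : q.1 < z.1) (h8 : q.2 < z.2)
    (h9 : z.1 < r.1) (h10 : z.2 < r.2) :
    dl (p - z) (q - z) + dl (r - z) (p - z) + dl (r - p) (r - z) - dl (q - p) (q - z)
      - tau r p q = 4 := by
  have s1 : sign (p.1 - z.1) = -1 := sign_neg (by linarith)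
  have s2 : sign (p.2 - z.2) = 1 := sign_pos (by linarith)
  have s3 : sign (q.1 - z.1) = -1 := sign_neg (by linarith)
  have s4 : sign (q.2 - z.2) = -1 := sign_neg (by linarith)
  have s5 : sign (r.1 - z.1) = 1 := sign_pos (by linarith)
  have s6 : sign (r.2 - z.2) = 1 := sign_pos (by linarith)
  have s7 : sign (r.1 - p.1) = 1 := sign_pos (by linarith)
  have s8 : sign (r.2 - p.2) = 0 := sign_eq_zero_iff.2 (by linarith)
  have s9 : sign (q.1 - p.1) = 0 := sign_eq_zero_iff.2 (by linarith)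
  have s10 : sign (q.2 - p.2) = -1 := sign_neg (by linarith)
  have s11 : sign (p.1 - r.1) = -1 := sign_neg (by linarith)
  have s12 : sign (p.2 - r.2) = 0 := sign_eq_zero_iff.2 (by linarith)
  have s13 : sign (q.1 - r.1) = -1 := sign_neg (by linarith)
  have s14 : sign (q.2 - r.2) = -1 := sign_neg (by linarith)
  simp only [tau, dl, Prod.fst_sub, Prod.snd_sub, s1, s2, s3, s4, s5, s6, s7, s8, s9, s10, s11, s12, s13, s14]
  decide

theorem corr_3_2 {p q r z : Pt}
    (h1 : p.1 = q.1) (h2 : q.2 < p.2) (h3 : r.1 < p.1) (h4 : p.2 = r.2)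
    (h5 : p.1 < z.1) (h6 : z.2 < p.2) (h7 : q.1 < z.1) (h8 : q.2 < z.2)
    (h9 : r.1 < z.1) (h10 : z.2 < r.2) :
    dl (p - z) (q - z) + dl (r - z) (p - z) + dl (r - p) (r - z) - dl (q - p) (q - z)
      - tau r p q = 4 := by
  have s1 : sign (p.1 - z.1) = -1 := sign_neg (by linarith)
  have s2 : sign (p.2 - z.2) = 1 := sign_pos (by linarith)
  have s3 : sign (q.1 - z.1) = -1 := sign_neg (by linarith)
  have s4 : sign (q.2 - z.2) = -1 := sign_neg (by linarith)
  have s5 : sign (r.1 - z.1) = -1 := sign_neg (by linarith)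
  have s6 : sign (r.2 - z.2) = 1 := sign_pos (by linarith)
  have s7 : sign (r.1 - p.1) = -1 := sign_neg (by linarith)
  have s8 : sign (r.2 - p.2) = 0 := sign_eq_zero_iff.2 (by linarith)
  have s9 : sign (q.1 - p.1) = 0 := sign_eq_zero_iff.2 (by linarith)
  have s10 : sign (q.2 - p.2) = -1 := sign_neg (by linarith)
  have s11 : sign (p.1 - r.1) = 1 := sign_pos (by linarith)
  have s12 : sign (p.2 - r.2) = 0 := sign_eq_zero_iff.2 (by linarith)
  have s13 : sign (q.1 - r.1) = 1 := sign_pos (by linarith)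
  have s14 : sign (q.2 - r.2) = -1 := sign_neg (by linarith)
  simp only [tau, dl, Prod.fst_sub, Prod.snd_sub, s1, s2, s3, s4, s5, s6, s7, s8, s9, s10, s11, s12, s13, s14]
  decide

/-- All twelve cases together. -/
theorem corr {p q r : Pt} (ha : Axis r p) (hb : Axis p q) (n1 : r ≠ p) (n2 : p ≠ q)
    (hx : box r p ∩ box p q ⊆ {p}) {e : ℝ} (he : 0 < e)
    (e1 : e * |q.1 - p.1| < |r.2 - p.2| ∨ r.2 = p.2)
    (e2 : e * |q.2 - p.2| < |r.1 - p.1| ∨ r.1 = p.1) :
    dl (p - leftPt p q e) (q - leftPt p q e) + dl (r - leftPt p q e) (p - leftPt p q e)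
      + dl (r - p) (r - leftPt p q e) - dl (q - p) (q - leftPt p q e) - tau r p q = 4 := by
  obtain ⟨nf1, nf2, nf3, nf4⟩ := no_fold ha hb n1 n2 hx
  have z1 : (leftPt p q e).1 = (p.1 + q.1) / 2 - e * (q.2 - p.2) := rfl
  have z2 : (leftPt p q e).2 = (p.2 + q.2) / 2 + e * (q.1 - p.1) := rfl
  generalize leftPt p q e = z at z1 z2 ⊢
  rcases axis_cases hb n2 with ⟨a, b⟩ | ⟨a, b⟩ | ⟨a, b⟩ | ⟨a, b⟩
  · -- direction 0
    have k : 0 < e * (q.1 - p.1) := mul_pos he (by linarith)
    have k0 : e * (q.2 - p.2) = 0 := by rw [b]; ring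
    rcases axis_cases ha n1 with ⟨c, f⟩ | ⟨c, f⟩ | ⟨c, f⟩ | ⟨c, f⟩
    · exact corr_0_0 (by linarith) (by linarith) (by linarith) (by linarith) (by linarith) (by linarith) (by linarith) (by linarith) (by linarith) (by linarith)
    · exact corr_0_2 (by linarith) (by linarith) (by linarith) (by linarith) (by linarith) (by linarith) (by linarith) (by linarith) (by linarith) (by linarith)
    · exact absurd (nf2 c) (by linarith)
    · have e3 := e1.resolve_right (by intro h; linarith)
      rw [abs_of_pos (show 0 < q.1 - p.1 by linarith), abs_of_pos (show 0 < r.2 - p.2 by linarith)] at e3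
      exact corr_0_1 (by linarith) (by linarith) (by linarith) (by linarith) (by linarith) (by linarith) (by linarith) (by linarith) (by linarith) (by linarith)
  · -- direction 1
    have k : 0 < e * (q.2 - p.2) := mul_pos he (by linarith)
    have k0 : e * (q.1 - p.1) = 0 := by rw [b]; ring
    rcases axis_cases ha n1 with ⟨c, f⟩ | ⟨c, f⟩ | ⟨c, f⟩ | ⟨c, f⟩
    · have e3 := e2.resolve_right (by intro h; linarith)
      rw [abs_of_pos (show 0 < q.2 - p.2 by linarith), abs_of_neg (show r.1 - p.1 < 0 by linarith)] at e3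
      exact corr_1_1 (by linarith) (by linarith) (by linarith) (by linarith) (by linarith) (by linarith) (by linarith) (by linarith) (by linarith) (by linarith)
    · exact corr_1_0 (by linarith) (by linarith) (by linarith) (by linarith) (by linarith) (by linarith) (by linarith) (by linarith) (by linarith) (by linarith)
    · exact corr_1_2 (by linarith) (by linarith) (by linarith) (by linarith) (by linarith) (by linarith) (by linarith) (by linarith) (by linarith) (by linarith)
    · exact absurd (nf4 c) (by linarith)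
  · -- direction 2
    have k : 0 < e * (p.1 - q.1) := mul_pos he (by linarith)
    have k0 : e * (q.2 - p.2) = 0 := by rw [b]; ring
    have k1 : e * (q.1 - p.1) = -(e * (p.1 - q.1)) := by ring
    rcases axis_cases ha n1 with ⟨c, f⟩ | ⟨c, f⟩ | ⟨c, f⟩ | ⟨c, f⟩
    · exact absurd (nf1 c) (by linarith)
    · have e3 := e1.resolve_right (by intro h; linarith)
      rw [abs_of_neg (show q.1 - p.1 < 0 by linarith), abs_of_neg (show r.2 - p.2 < 0 by linarith)] at e3
      have e4 : e * -(q.1 - p.1) = e * (p.1 - q.1) := by ring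
      exact corr_2_1 (by linarith) (by linarith) (by linarith) (by linarith) (by linarith) (by linarith) (by linarith) (by linarith) (by linarith) (by linarith)
    · exact corr_2_0 (by linarith) (by linarith) (by linarith) (by linarith) (by linarith) (by linarith) (by linarith) (by linarith) (by linarith) (by linarith)
    · exact corr_2_2 (by linarith) (by linarith) (by linarith) (by linarith) (by linarith) (by linarith) (by linarith) (by linarith) (by linarith) (by linarith)
  · -- direction 3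
    have k : 0 < e * (p.2 - q.2) := mul_pos he (by linarith)
    have k0 : e * (q.1 - p.1) = 0 := by rw [b]; ring
    have k1 : e * (q.2 - p.2) = -(e * (p.2 - q.2)) := by ring
    rcases axis_cases ha n1 with ⟨c, f⟩ | ⟨c, f⟩ | ⟨c, f⟩ | ⟨c, f⟩
    · exact corr_3_2 (by linarith) (by linarith) (by linarith) (by linarith) (by linarith) (by linarith) (by linarith) (by linarith) (by linarith) (by linarith)
    · exact absurd (nf3 c) (by linarith)
    · have e3 := e2.resolve_right (by intro h; linarith)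
      rw [abs_of_neg (show q.2 - p.2 < 0 by linarith), abs_of_pos (show 0 < r.1 - p.1 by linarith)] at e3
      have e4 : e * -(q.2 - p.2) = e * (p.2 - q.2) := by ring
      exact corr_3_1 (by linarith) (by linarith) (by linarith) (by linarith) (by linarith) (by linarith) (by linarith) (by linarith) (by linarith) (by linarith)
    · exact corr_3_0 (by linarith) (by linarith) (by linarith) (by linarith) (by linarith) (by linarith) (by linarith) (by linarith) (by linarith) (by linarith)

end Unbent
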