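import Mathlib

/-!
Plane 4-graphs, orthogonal drawings adhering to an embedding, and unbent collections.
-/

namespace Unbent

/-- The pairs of consecutive entries of a list. -/
def segs {α : Type} : List α → List (α × α)
  | p :: q :: l => (p, q) :: segs (q :: l)
  | _ => []

/-- The triples of consecutive entries of a list. -/
def triples {α : Type} : List α → List (α × α × α)
  | p :: q :: r :: l => (p, q, r) :: triples (q :: r :: l)
  | _ => []

/-- A connected plane 4-graph with vertices `0, ..., n - 1`: a connected simple graph, the
counter-clockwise order `rot v` of the (at most four) neighbours around every vertex `v`,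
and an oriented edge `ext` that has the external face on its left. -/
structure PlaneFourGraph (n : ℕ) where
  graph : SimpleGraph (Fin n)
  connected : graph.Connected
  rot : Fin n → List (Fin n)
  rot_nodup : ∀ v, (rot v).Nodup
  mem_rot : ∀ v w, w ∈ rot v ↔ graph.Adj v w
  rot_length : ∀ v, (rot v).length ≤ 4
  ext : Fin n × Fin n
  ext_adj : graph.Adj ext.1 ext.2

/-- The data of a drawing: the positions of the vertices and, for every ordered pair `u v`
of vertices, the list of the bends met on the way from `u` to `v` along the edge `uv`. -/
structure DrawingData (n : ℕ) where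
  pos : Fin n → ℝ × ℝ
  bends : Fin n → Fin n → List (ℝ × ℝ)

namespace DrawingData

variable {n : ℕ}

/-- The polygonal chain that represents the edge `uv`, traversed from `u` to `v`: the
position of `u`, the bends, the position of `v`. -/
def chain (D : DrawingData n) (u v : Fin n) : List (ℝ × ℝ) :=
  D.pos u :: (D.bends u v ++ [D.pos v])

/-- `p q` is a straight piece of (the drawing of) some edge. -/
def IsPiece (D : DrawingData n) (G : PlaneFourGraph n) (p q : ℝ × ℝ) : Prop :=
  ∃ u v, G.graph.Adj u v ∧ (p, q) ∈ segs (D.chain u v)

/-- The subset of the plane covered by the drawing. -/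
def image (D : DrawingData n) (G : PlaneFourGraph n) : Set (ℝ × ℝ) :=
  {z | ∃ p q, D.IsPiece G p q ∧ z ∈ segment ℝ p q}

/-- The drawing is orthogonal and crossing-free: vertices and bends are pairwise distinct
points, all pieces are horizontal or vertical, the direction changes between horizontal and
vertical at every bend, and any two different pieces meet only in common endpoints. -/
structure IsOrthogonal (D : DrawingData n) (G : PlaneFourGraph n) : Prop where
  bends_symm : ∀ u v, D.bends v u = (D.bends u v).reverse
  bends_nil : ∀ u v, ¬ G.graph.Adj u v → D.bends u v = []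
  pos_inj : Function.Injective D.pos
  bends_nodup : ∀ u v, (D.bends u v).Nodup
  pos_ne_bend : ∀ w u v, D.pos w ∉ D.bends u v
  bends_disj : ∀ u v x y p, p ∈ D.bends u v → p ∈ D.bends x y → s(u, v) = s(x, y)
  piece : ∀ p q, D.IsPiece G p q → p.1 = q.1 ∨ p.2 = q.2
  turn : ∀ u v, G.graph.Adj u v → ∀ p q r, (p, q, r) ∈ triples (D.chain u v) →
    (p.1 = q.1 ∧ q.2 = r.2) ∨ (p.2 = q.2 ∧ q.1 = r.1)
  planar : ∀ p q p' q', D.IsPiece G p q → D.IsPiece G p' q' → s(p, q) ≠ s(p', q') →
    segment ℝ p q ∩ segment ℝ p' q' ⊆ {p, q} ∩ {p', q'}

/-- The first point after `u` on the chain from `u` to `v`. -/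
def next (D : DrawingData n) (u v : Fin n) : ℝ × ℝ := (D.bends u v).headD (D.pos v)

/-- The direction of a nonzero axis-parallel vector: east `0`, north `1`, west `2`,
south `3`. -/
noncomputable def dirIx (v : ℝ × ℝ) : Fin 4 :=
  if 0 < v.1 then 0 else if 0 < v.2 then 1 else if v.1 < 0 then 2 else 3

/-- The direction in which the edge `uv` leaves `u`. -/
noncomputable def dir (D : DrawingData n) (u v : Fin n) : Fin 4 := dirIx (D.next u v - D.pos u)

/-- The counter-clockwise angle from direction `a` to direction `b`, in right angles; from
a direction to itself it is a full turn. -/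
def ccw (a b : Fin 4) : ℕ := if a = b then 4 else (b - a).val

/-- The set of the points whose connected component in the complement of the drawing is
unbounded. -/
def outer (D : DrawingData n) (G : PlaneFourGraph n) : Set (ℝ × ℝ) :=
  {z | ¬ Bornology.IsBounded (connectedComponentIn (D.image G)ᶜ z)}

/-- The point at parameter `e` on the normal that leaves the midpoint of `p q` to the left
of the direction from `p` to `q`. -/
noncomputable def leftPoint (p q : ℝ × ℝ) (e : ℝ) : ℝ × ℝ :=
  ((p.1 + q.1) / 2 - e * (q.2 - p.2), (p.2 + q.2) / 2 + e * (q.1 - p.1))

/-- The drawing adheres to the embedding: around every vertex `v` the angles between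
consecutive edges in the order `rot v`, measured counter-clockwise, add up to one full turn;
and the points immediately to the left of the first piece of the oriented edge `ext` lie in
the unbounded region. -/
structure Adheres (D : DrawingData n) (G : PlaneFourGraph n) : Prop where
  rotation : ∀ v, (((G.rot v).zip ((G.rot v).rotate 1)).map
    fun e => ccw (D.dir v e.1) (D.dir v e.2)).sum = 4
  external : ∀ᶠ e in nhdsWithin (0 : ℝ) (Set.Ioi 0),
    leftPoint (D.pos G.ext.1) (D.next G.ext.1 G.ext.2) e ∈ D.outer G

end DrawingData

/-- An orthogonal drawing of `G` adhering to its embedding. -/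
structure OrthoDrawing {n : ℕ} (G : PlaneFourGraph n) extends DrawingData n where
  isOrthogonal : toDrawingData.IsOrthogonal G
  adheres : toDrawingData.Adheres G

namespace OrthoDrawing

variable {n : ℕ} {G : PlaneFourGraph n}

/-- The number of bends of a drawing. -/
def bendCount (D : OrthoDrawing G) : ℕ :=
  ∑ e ∈ Finset.univ.filter (fun e : Fin n × Fin n => e.1 < e.2), (D.bends e.1 e.2).length

end OrthoDrawing

variable {n : ℕ} {G : PlaneFourGraph n}

/-- A finite set of orthogonal drawings is an unbent collection if every edge is drawn
without bends in at least one of them. -/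
def IsUnbent (C : Finset (OrthoDrawing G)) : Prop :=
  ∀ u v, G.graph.Adj u v → ∃ D ∈ C, D.bends u v = []

/-- The total number of bends of a finite set of drawings. -/
def totalBends (C : Finset (OrthoDrawing G)) : ℕ := ∑ D ∈ C, D.bendCount

variable (G)

/-- The minimum size of an unbent collection. -/
noncomputable def un : ℕ :=
  sInf {k | ∃ C : Finset (OrthoDrawing G), IsUnbent C ∧ C.card = k}

/-- The minimum total bend number of an unbent collection. -/
noncomputable def tbn : ℕ :=
  sInf {b | ∃ C : Finset (OrthoDrawing G), IsUnbent C ∧ totalBends C = b}

end Unbent
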