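import Pool.Agent.Unbent.Explicit

/-!
The five explicit drawings: three with eleven bends each, and two with fifteen and
twenty-one bends.
-/

namespace Unbent

open NDraw

/-- Drawing A0. -/
def drawA0 : NDraw where
  pos := [(3, 3), (3, 4), (3, 2), (4, 4), (4, 3), (3, 5), (2, 2), (5, 3), (0, 0), (2, 0), (0, 5)]
  tab := [
    (6, [(2, 3)]),
    (17, [(1, 4), (1, 2)]),
    (26, [(4, 2)]),
    (29, [(3, 1), (5, 1)]),
    (38, [(4, 5)]),
    (40, [(5, 4)]),
    (62, [(3, 6), (6, 6), (6, 3)])]

theorem goodA0 : drawA0.Good := ⟨by decide +kernel, by decide +kernel, by decide +kernel,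
  by decide +kernel, by decide +kernel, by decide +kernel, by decide +kernel, by decide +kernel,
  by decide +kernel, by decide +kernel, by decide +kernel⟩

theorem countA0 : drawA0.count = 11 := by decide +kernel

/-- Drawing A1. -/
def drawA1 : NDraw where
  pos := [(2, 2), (2, 3), (3, 1), (3, 3), (3, 2), (4, 4), (1, 3), (4, 3), (5, 6), (1, 6), (5, 4)]
  tab := [
    (2, [(2, 1)]),
    (6, [(1, 2)]),
    (16, [(2, 5), (4, 5)]),
    (28, [(3, 0), (0, 0), (0, 3)]),
    (29, [(6, 1), (6, 3)]),
    (38, [(3, 4)]),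
    (51, [(4, 2)])]

theorem goodA1 : drawA1.Good := ⟨by decide +kernel, by decide +kernel, by decide +kernel,
  by decide +kernel, by decide +kernel, by decide +kernel, by decide +kernel, by decide +kernel,
  by decide +kernel, by decide +kernel, by decide +kernel⟩

theorem countA1 : drawA1.count = 11 := by decide +kernel

/-- Drawing A2. -/
def drawA2 : NDraw where
  pos := [(2, 3), (2, 4), (4, 2), (3, 4), (3, 3), (3, 5), (1, 3), (4, 3), (0, 6), (0, 3), (3, 6)]
  tab := [
    (2, [(2, 1), (4, 1)]),
    (16, [(2, 5)]),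
    (17, [(1, 4)]),
    (26, [(3, 2)]),
    (28, [(8, 2), (8, 0), (1, 0)]),
    (40, [(4, 4)]),
    (62, [(5, 5), (5, 3)])]

theorem goodA2 : drawA2.Good := ⟨by decide +kernel, by decide +kernel, by decide +kernel,
  by decide +kernel, by decide +kernel, by decide +kernel, by decide +kernel, by decide +kernel,
  by decide +kernel, by decide +kernel, by decide +kernel⟩

theorem countA2 : drawA2.count = 11 := by decide +kernel

/-- Drawing B0. -/
def drawB0 : NDraw where
  pos := [(3, 3), (3, 4), (2, 2), (4, 4), (4, 3), (6, 3), (2, 3), (5, 3), (0, 7), (0, 3), (8, 7)]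
  tab := [
    (2, [(3, 2)]),
    (16, [(3, 6), (7, 6), (7, 3)]),
    (17, [(2, 4)]),
    (26, [(2, 1), (4, 1)]),
    (29, [(1, 2), (1, 0), (5, 0)]),
    (38, [(4, 5), (6, 5)]),
    (40, [(5, 4)]),
    (65, [(6, 1), (8, 1)])]

theorem goodB0 : drawB0.Good := ⟨by decide +kernel, by decide +kernel, by decide +kernel,
  by decide +kernel, by decide +kernel, by decide +kernel, by decide +kernel, by decide +kernel,
  by decide +kernel, by decide +kernel, by decide +kernel⟩

theorem countB0 : drawB0.count = 15 := by decide +kernel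

/-- Drawing B1. -/
def drawB1 : NDraw where
  pos := [(12, 8), (11, 3), (12, 7), (12, 4), (13, 7), (11, 4), (9, 3), (12, 6), (10, 5), (9, 5), (10, 4)]
  tab := [
    (1, [(12, 9), (15, 9), (15, 2), (11, 2)]),
    (4, [(13, 8)]),
    (6, [(8, 8), (8, 10), (16, 10), (16, 1), (9, 1)]),
    (14, [(12, 3)]),
    (28, [(0, 7), (0, 11), (17, 11), (17, 0), (8, 0), (8, 3)]),
    (37, [(14, 4), (14, 7)]),
    (51, [(13, 6)]),
    (62, [(11, 6)])]

theorem goodB1 : drawB1.Good := ⟨by decide +kernel, by decide +kernel, by decide +kernel,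
  by decide +kernel, by decide +kernel, by decide +kernel, by decide +kernel, by decide +kernel,
  by decide +kernel, by decide +kernel, by decide +kernel⟩

theorem countB1 : drawB1.count = 21 := by decide +kernel

theorem coverA : ∀ u v : Fin 11, drawA0.b u v = [] ∨ drawA1.b u v = [] ∨ drawA2.b u v = [] := by
  decide +kernel

theorem coverB : ∀ u v : Fin 11, drawB0.b u v = [] ∨ drawB1.b u v = [] := by
  decide +kernel

end Unbent
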