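import Pool.Agent.Unbent.Graph

/-!
Orthogonal drawings of `G0` given by points with natural coordinates.
-/

namespace Unbent

open DrawingData Filter Topology

/-- A grid point. -/
abbrev NPt := ℕ × ℕ

/-- A grid point as a point of the plane. -/
def toPt (p : NPt) : ℝ × ℝ := ((p.1 : ℝ), (p.2 : ℝ))

theorem toPt_inj : Function.Injective toPt := by
  intro p q h
  simp only [toPt, Prod.mk.injEq, Nat.cast_inj] at h
  exact Prod.ext h.1 h.2

/-- Positions and bends on the grid. -/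
structure NDraw where
  pos : List NPt
  tab : List (ℕ × List NPt)

namespace NDraw

/-- Table lookup. -/
def look : List (ℕ × List NPt) → ℕ → List NPt
  | [], _ => []
  | (a, l) :: t, k => if a = k then l else look t k

variable (I : NDraw)

/-- Position of a vertex. -/
def p (v : Fin 11) : NPt := I.pos.getD v.val (0, 0)

/-- Bends from `u` to `v`. -/
def b (u v : Fin 11) : List NPt :=
  if u < v then look I.tab (11 * u.val + v.val) else (look I.tab (11 * v.val + u.val)).reverse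

/-- Chain from `u` to `v`. -/
def ch (u v : Fin 11) : List NPt := I.p u :: (I.b u v ++ [I.p v])

/-- First point after `u` on the way to `v`. -/
def nx (u v : Fin 11) : NPt := (I.b u v).headD (I.p v)

/-- Direction of a step. -/
def ndir (p q : NPt) : Fin 4 :=
  if p.1 < q.1 then 0 else if p.2 < q.2 then 1 else if q.1 < p.1 then 2 else 3

/-- All pieces, in both directions. -/
def pieces : List (NPt × NPt) :=
  (List.finRange 11).flatMap fun u => (rot0 u).flatMap fun v => segs (I.ch u v)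

/-- Two pieces agree up to orientation, or meet at most in a common endpoint. -/
def meet (e f : NPt × NPt) : Bool :=
  let lx := max (min e.1.1 e.2.1) (min f.1.1 f.2.1)
  let hx := min (max e.1.1 e.2.1) (max f.1.1 f.2.1)
  let ly := max (min e.1.2 e.2.2) (min f.1.2 f.2.2)
  let hy := min (max e.1.2 e.2.2) (max f.1.2 f.2.2)
  (hx < lx) || (hy < ly) ||
    (lx == hx && ly == hy && ((lx, ly) == e.1 || (lx, ly) == e.2) &&
      ((lx, ly) == f.1 || (lx, ly) == f.2)) ||
    (e.1 == f.1 && e.2 == f.2) || (e.1 == f.2 && e.2 == f.1)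

/-- The ray to the left of the midpoint of `p q` misses the piece `e`. -/
def miss (p q : NPt) (e : NPt × NPt) : Bool :=
  (p.2 == q.2 && (2 * max e.1.1 e.2.1 < p.1 + q.1 || p.1 + q.1 < 2 * min e.1.1 e.2.1 ||
    (p.1 < q.1 && max e.1.2 e.2.2 ≤ p.2) || (q.1 < p.1 && p.2 ≤ min e.1.2 e.2.2))) ||
  (p.1 == q.1 && (2 * max e.1.2 e.2.2 < p.2 + q.2 || p.2 + q.2 < 2 * min e.1.2 e.2.2 ||
    (p.2 < q.2 && p.1 ≤ min e.1.1 e.2.1) || (q.2 < p.2 && max e.1.1 e.2.1 ≤ p.1)))

/-- The checks. -/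
structure Good : Prop where
  c1 : ∀ u v, I.b v u = (I.b u v).reverse
  c2 : ∀ u v, v ∉ rot0 u → I.b u v = []
  c3 : ∀ u v, I.p u = I.p v → u = v
  c4 : ∀ u v, (I.b u v).Nodup
  c5 : ∀ w u v, I.p w ∉ I.b u v
  c6 : ∀ u v, ∀ p ∈ I.b u v, ∀ x y, p ∈ I.b x y → s(u, v) = s(x, y)
  c7 : ∀ e ∈ I.pieces, e.1.1 = e.2.1 ∨ e.1.2 = e.2.2
  c8 : ∀ u, ∀ v ∈ rot0 u, ∀ e ∈ triples (I.ch u v),
    (e.1.1 = e.2.1.1 ∧ e.2.1.2 = e.2.2.2) ∨ (e.1.2 = e.2.1.2 ∧ e.2.1.1 = e.2.2.1)
  c9 : ∀ e ∈ I.pieces, ∀ f ∈ I.pieces, meet e f = true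
  c10 : ∀ v, (((rot0 v).zip ((rot0 v).rotate 1)).map
    fun e => ccw (ndir (I.p v) (I.nx v e.1)) (ndir (I.p v) (I.nx v e.2))).sum = 4
  c11 : ∀ e ∈ I.pieces, miss (I.p 2) (I.nx 2 6) e = true

/-- The real drawing. -/
def data : DrawingData 11 where
  pos v := toPt (I.p v)
  bends u v := (I.b u v).map toPt

theorem data_chain (u v : Fin 11) : I.data.chain u v = (I.ch u v).map toPt := by
  simp [data, DrawingData.chain, ch]

theorem segs_map {α β : Type} (f : α → β) : ∀ L : List α,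
    segs (L.map f) = (segs L).map fun e => (f e.1, f e.2)
  | [] => rfl
  | [x] => rfl
  | x :: y :: l => by
    have ih := segs_map f (y :: l)
    simp only [List.map_cons, segs] at ih ⊢
    rw [ih]

theorem triples_map {α β : Type} (f : α → β) : ∀ L : List α,
    triples (L.map f) = (triples L).map fun e => (f e.1, f e.2.1, f e.2.2)
  | [] => rfl
  | [x] => rfl
  | [x, y] => rfl
  | x :: y :: z :: l => by
    have ih := triples_map f (y :: z :: l)
    simp only [List.map_cons, triples] at ih ⊢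
    rw [ih]

theorem piece_iff {p q : ℝ × ℝ} (h : I.data.IsPiece G0 p q) :
    ∃ e ∈ I.pieces, p = toPt e.1 ∧ q = toPt e.2 := by
  obtain ⟨u, v, hadj, hm⟩ := h
  rw [data_chain, segs_map, List.mem_map] at hm
  obtain ⟨e, he, h2⟩ := hm
  refine ⟨e, ?_, (congrArg Prod.fst h2).symm, (congrArg Prod.snd h2).symm⟩
  unfold pieces
  rw [List.mem_flatMap]
  refine ⟨u, List.mem_finRange u, ?_⟩
  rw [List.mem_flatMap]
  exact ⟨v, adj0.1 hadj, he⟩

theorem data_next (u v : Fin 11) : I.data.next u v = toPt (I.nx u v) := by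
  unfold DrawingData.next data nx
  simp only
  cases I.b u v with
  | nil => rfl
  | cons y Y => rfl

theorem dir_eq {p q : NPt} (h : p.1 = q.1 ∨ p.2 = q.2) (hne : p ≠ q) :
    dirIx (toPt q - toPt p) = ndir p q := by
  have h1 : (toPt q - toPt p).1 = (q.1 : ℝ) - p.1 := rfl
  have h2 : (toPt q - toPt p).2 = (q.2 : ℝ) - p.2 := rfl
  unfold ndir
  by_cases a1 : p.1 < q.1
  · rw [if_pos a1]
    refine dirIx_0 ?_
    rw [h1, sub_pos]; exact_mod_cast a1
  · rw [if_neg a1]
    by_cases a2 : p.2 < q.2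
    · rw [if_pos a2]
      refine dirIx_1 ?_ ?_
      · rcases h with h | h
        · rw [h1, h, sub_self]
        · omega
      · rw [h2, sub_pos]; exact_mod_cast a2
    · rw [if_neg a2]
      by_cases a3 : q.1 < p.1
      · rw [if_pos a3]
        refine dirIx_2 ?_ ?_
        · rw [h1, sub_neg]; exact_mod_cast a3
        · rcases h with h | h
          · omega
          · rw [h2, h, sub_self]
      · rw [if_neg a3]
        have e1 : p.1 = q.1 := by omega
        have e2 : q.2 < p.2 := by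
          have : p.2 ≠ q.2 := fun e => hne (Prod.ext e1 e)
          omega
        refine dirIx_3 ?_ ?_
        · rw [h1, e1, sub_self]
        · rw [h2, sub_neg]; exact_mod_cast e2

theorem meet_spec {e f : NPt × NPt} (h : meet e f = true) :
    s(toPt e.1, toPt e.2) = s(toPt f.1, toPt f.2) ∨
    box (toPt e.1) (toPt e.2) ∩ box (toPt f.1) (toPt f.2) ⊆
      {toPt e.1, toPt e.2} ∩ {toPt f.1, toPt f.2} := by
  obtain ⟨⟨a1, a2⟩, ⟨b1, b2⟩⟩ := e
  obtain ⟨⟨c1, c2⟩, ⟨d1, d2⟩⟩ := f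
  simp only [meet, Bool.or_eq_true, Bool.and_eq_true, decide_eq_true_eq, beq_iff_eq,
    Prod.mk.injEq] at h
  have key : ∀ z : ℝ × ℝ, z ∈ box (toPt (a1, a2)) (toPt (b1, b2)) ∩
      box (toPt (c1, c2)) (toPt (d1, d2)) →
      ((max (min a1 b1) (min c1 d1) : ℕ) : ℝ) ≤ z.1 ∧ z.1 ≤ ((min (max a1 b1) (max c1 d1) : ℕ) : ℝ) ∧
      ((max (min a2 b2) (min c2 d2) : ℕ) : ℝ) ≤ z.2 ∧
      z.2 ≤ ((min (max a2 b2) (max c2 d2) : ℕ) : ℝ) := by
    rintro z ⟨⟨h1, h2, h3, h4⟩, ⟨h5, h6, h7, h8⟩⟩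
    simp only [toPt] at h1 h2 h3 h4 h5 h6 h7 h8
    push_cast
    exact ⟨max_le h1 h5, le_min h2 h6, max_le h3 h7, le_min h4 h8⟩
  generalize max (min a1 b1) (min c1 d1) = lx at h key
  generalize min (max a1 b1) (max c1 d1) = hx at h key
  generalize max (min a2 b2) (min c2 d2) = ly at h key
  generalize min (max a2 b2) (max c2 d2) = hy at h key
  rcases h with ((((h | h) | h) | h) | h)
  · right
    intro z hz
    obtain ⟨k1, k2, _, _⟩ := key z hz
    have : (hx : ℝ) < lx := by exact_mod_cast h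
    linarith
  · right
    intro z hz
    obtain ⟨_, _, k1, k2⟩ := key z hz
    have : (hy : ℝ) < ly := by exact_mod_cast h
    linarith
  · right
    obtain ⟨⟨⟨h1, h2⟩, h3⟩, h4⟩ := h
    intro z hz
    obtain ⟨k1, k2, k3, k4⟩ := key z hz
    rw [← h1] at k2
    rw [← h2] at k4
    have ez : z = toPt (lx, ly) := Prod.ext (le_antisymm k2 k1) (le_antisymm k4 k3)
    rw [ez]
    refine ⟨?_, ?_⟩
    · rcases h3 with ⟨h3, h3'⟩ | ⟨h3, h3'⟩
      · left; rw [h3, h3']
      · right; rw [h3, h3']; rfl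
    · rcases h4 with ⟨h3, h3'⟩ | ⟨h3, h3'⟩
      · left; rw [h3, h3']
      · right; rw [h3, h3']; rfl
  · left
    obtain ⟨⟨h1, h2⟩, ⟨h3, h4⟩⟩ := h
    rw [h1, h2, h3, h4]
  · left
    obtain ⟨⟨h1, h2⟩, ⟨h3, h4⟩⟩ := h
    rw [h1, h2, h3, h4, Sym2.eq_swap]

theorem miss_spec {p q : NPt} {e : NPt × NPt} (h : miss p q e = true) {t : ℝ} (ht : 0 < t) :
    leftPoint (toPt p) (toPt q) t ∉ box (toPt e.1) (toPt e.2) := by
  obtain ⟨p1, p2⟩ := p
  obtain ⟨q1, q2⟩ := q
  obtain ⟨⟨c1, c2⟩, ⟨d1, d2⟩⟩ := e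
  simp only [miss, Bool.or_eq_true, Bool.and_eq_true, decide_eq_true_eq, beq_iff_eq] at h
  rintro ⟨h1, h2, h3, h4⟩
  simp only [toPt, leftPoint] at h1 h2 h3 h4
  rcases h with ⟨e1, h⟩ | ⟨e1, h⟩
  · subst e1
    rw [sub_self, mul_zero, sub_zero] at h1 h2
    rcases h with ((h | h) | h) | h
    · have : (2 * max (c1 : ℝ) (d1 : ℝ)) < p1 + q1 := by exact_mod_cast h
      linarith
    · have : (p1 + q1 : ℝ) < 2 * min (c1 : ℝ) (d1 : ℝ) := by exact_mod_cast h
      linarith
    · have k1 : (p1 : ℝ) < q1 := by exact_mod_cast h.1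
      have k2 : max (c2 : ℝ) (d2 : ℝ) ≤ p2 := by exact_mod_cast h.2
      have : 0 < t * ((q1 : ℝ) - p1) := mul_pos ht (by linarith)
      linarith
    · have k1 : (q1 : ℝ) < p1 := by exact_mod_cast h.1
      have k2 : (p2 : ℝ) ≤ min (c2 : ℝ) (d2 : ℝ) := by exact_mod_cast h.2
      have : 0 < t * ((p1 : ℝ) - q1) := mul_pos ht (by linarith)
      linarith
  · subst e1
    rw [sub_self, mul_zero, add_zero] at h3 h4
    rcases h with ((h | h) | h) | h
    · have : (2 * max (c2 : ℝ) (d2 : ℝ)) < p2 + q2 := by exact_mod_cast h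
      linarith
    · have : (p2 + q2 : ℝ) < 2 * min (c2 : ℝ) (d2 : ℝ) := by exact_mod_cast h
      linarith
    · have k1 : (p2 : ℝ) < q2 := by exact_mod_cast h.1
      have k2 : (p1 : ℝ) ≤ min (c1 : ℝ) (d1 : ℝ) := by exact_mod_cast h.2
      have : 0 < t * ((q2 : ℝ) - p2) := mul_pos ht (by linarith)
      linarith
    · have k1 : (q2 : ℝ) < p2 := by exact_mod_cast h.1
      have k2 : max (c1 : ℝ) (d1 : ℝ) ≤ p1 := by exact_mod_cast h.2
      have : 0 < t * ((p2 : ℝ) - q2) := mul_pos ht (by linarith)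
      linarith

end NDraw

theorem continuous_leftPoint (p q : ℝ × ℝ) : Continuous (leftPoint p q) := by
  unfold leftPoint; fun_prop

theorem outer_of_ray {n : ℕ} {G : PlaneFourGraph n} (D : DrawingData n) {p q : ℝ × ℝ} (hne : p ≠ q)
    (h : ∀ t : ℝ, 0 < t → leftPoint p q t ∉ D.image G) {t : ℝ} (ht : 0 < t) :
    leftPoint p q t ∈ D.outer G := by
  intro hb
  have hS : IsPreconnected (leftPoint p q '' Set.Ioi (0 : ℝ)) :=
    (isPreconnected_Ioi).image _ (continuous_leftPoint p q).continuousOn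
  have hsub : leftPoint p q '' Set.Ioi (0 : ℝ) ⊆ connectedComponentIn (D.image G)ᶜ
      (leftPoint p q t) := by
    refine hS.subset_connectedComponentIn ⟨t, ht, rfl⟩ ?_
    rintro _ ⟨s, hs, rfl⟩
    exact h s hs
  have hb' := hb.subset hsub
  obtain ⟨C, hC⟩ := hb'.exists_norm_le
  have hC' : ∀ s : ℝ, 0 < s → |(p.1 + q.1) / 2 - s * (q.2 - p.2)| ≤ C ∧
      |(p.2 + q.2) / 2 + s * (q.1 - p.1)| ≤ C := by
    intro s hs
    have := hC _ ⟨s, hs, rfl⟩
    rw [Prod.norm_def, max_le_iff, Real.norm_eq_abs, Real.norm_eq_abs] at this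
    exact this
  -- one of the differences is nonzero
  have hd : q.2 - p.2 ≠ 0 ∨ q.1 - p.1 ≠ 0 := by
    by_contra hc
    push Not at hc
    exact hne (Prod.ext (by linarith [hc.2]) (by linarith [hc.1]))
  have hC0 : 0 ≤ C := (abs_nonneg _).trans (hC' 1 one_pos).1
  rcases hd with hd | hd
  · have hpos : 0 < |q.2 - p.2| := abs_pos.2 hd
    have hs : 0 < (C + |(p.1 + q.1) / 2| + 1) / |q.2 - p.2| :=
      div_pos (by positivity) hpos
    have k := (hC' _ hs).1
    have e : |(C + |(p.1 + q.1) / 2| + 1) / |q.2 - p.2| * (q.2 - p.2)| =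
        C + |(p.1 + q.1) / 2| + 1 := by
      rw [abs_mul, abs_of_pos hs]; field_simp
    have k2 := abs_sub_abs_le_abs_sub
      ((C + |(p.1 + q.1) / 2| + 1) / |q.2 - p.2| * (q.2 - p.2)) ((p.1 + q.1) / 2)
    rw [abs_sub_comm] at k
    rw [e] at k2
    linarith
  · have hpos : 0 < |q.1 - p.1| := abs_pos.2 hd
    have hs : 0 < (C + |(p.2 + q.2) / 2| + 1) / |q.1 - p.1| :=
      div_pos (by positivity) hpos
    have k := (hC' _ hs).2
    have e : |(C + |(p.2 + q.2) / 2| + 1) / |q.1 - p.1| * (q.1 - p.1)| =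
        C + |(p.2 + q.2) / 2| + 1 := by
      rw [abs_mul, abs_of_pos hs]; field_simp
    have k2 := abs_sub_abs_le_abs_sub
      ((C + |(p.2 + q.2) / 2| + 1) / |q.1 - p.1| * (q.1 - p.1)) (-((p.2 + q.2) / 2))
    rw [e, abs_neg, sub_neg_eq_add, add_comm (_ * _) ((p.2 + q.2) / 2)] at k2
    linarith

namespace NDraw

variable (I : NDraw)

theorem good_orthogonal (h : I.Good) : I.data.IsOrthogonal G0 where
  bends_symm u v := by
    show (I.b v u).map toPt = ((I.b u v).map toPt).reverse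
    rw [h.c1 u v, List.map_reverse]
  bends_nil u v hn := by
    show (I.b u v).map toPt = []
    rw [h.c2 u v (fun hm => hn (adj0.2 hm))]; rfl
  pos_inj u v he := h.c3 u v (toPt_inj he)
  bends_nodup u v := (h.c4 u v).map toPt_inj
  pos_ne_bend w u v hm := by
    change toPt (I.p w) ∈ (I.b u v).map toPt at hm
    rw [List.mem_map] at hm
    obtain ⟨a, ha, hb⟩ := hm
    exact h.c5 w u v (toPt_inj hb ▸ ha)
  bends_disj u v x y p h1 h2 := by
    change p ∈ (I.b u v).map toPt at h1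
    change p ∈ (I.b x y).map toPt at h2
    rw [List.mem_map] at h1 h2
    obtain ⟨a, ha, rfl⟩ := h1
    obtain ⟨c, hc, hd⟩ := h2
    exact h.c6 u v a ha x y (toPt_inj hd ▸ hc)
  piece p q hp := by
    obtain ⟨e, he, rfl, rfl⟩ := I.piece_iff hp
    rcases h.c7 e he with h1 | h1
    · left; show ((e.1.1 : ℕ) : ℝ) = (e.2.1 : ℕ); rw [h1]
    · right; show ((e.1.2 : ℕ) : ℝ) = (e.2.2 : ℕ); rw [h1]
  turn u v hadj p q r hm := by
    rw [data_chain, triples_map, List.mem_map] at hm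
    obtain ⟨e, he, h2⟩ := hm
    have i1 : toPt e.1 = p := congrArg Prod.fst h2
    have i2 : toPt e.2.1 = q := congrArg (fun x => x.2.1) h2
    have i3 : toPt e.2.2 = r := congrArg (fun x => x.2.2) h2
    subst i1 i2 i3
    rcases h.c8 u v (adj0.1 hadj) e he with ⟨h1, h2⟩ | ⟨h1, h2⟩
    · left
      refine ⟨?_, ?_⟩
      · show ((e.1.1 : ℕ) : ℝ) = (e.2.1.1 : ℕ); rw [h1]
      · show ((e.2.1.2 : ℕ) : ℝ) = (e.2.2.2 : ℕ); rw [h2]
    · right
      refine ⟨?_, ?_⟩
      · show ((e.1.2 : ℕ) : ℝ) = (e.2.1.2 : ℕ); rw [h1]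
      · show ((e.2.1.1 : ℕ) : ℝ) = (e.2.2.1 : ℕ); rw [h2]
  planar p q r s h1 h2 h3 := by
    obtain ⟨e, he, rfl, rfl⟩ := I.piece_iff h1
    obtain ⟨f, hf, rfl, rfl⟩ := I.piece_iff h2
    have ax : ∀ e ∈ I.pieces, Axis (toPt e.1) (toPt e.2) := by
      intro e he
      rcases h.c7 e he with h1 | h1
      · left; show ((e.1.1 : ℕ) : ℝ) = (e.2.1 : ℕ); rw [h1]
      · right; show ((e.1.2 : ℕ) : ℝ) = (e.2.2 : ℕ); rw [h1]
    rw [OrthoDrawing.segment_eq_box (ax e he), OrthoDrawing.segment_eq_box (ax f hf)]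
    exact (meet_spec (h.c9 e he f hf)).resolve_left h3

theorem pieces_axis (h : I.Good) {e : NPt × NPt} (he : e ∈ I.pieces) :
    Axis (toPt e.1) (toPt e.2) := by
  rcases h.c7 e he with h1 | h1
  · left; show ((e.1.1 : ℕ) : ℝ) = (e.2.1 : ℕ); rw [h1]
  · right; show ((e.1.2 : ℕ) : ℝ) = (e.2.2 : ℕ); rw [h1]

theorem first_piece {u v : Fin 11} (h : v ∈ rot0 u) : (I.p u, I.nx u v) ∈ I.pieces := by
  unfold pieces
  rw [List.mem_flatMap]
  refine ⟨u, List.mem_finRange u, ?_⟩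
  rw [List.mem_flatMap]
  refine ⟨v, h, ?_⟩
  unfold ch nx
  cases I.b u v with
  | nil => simp [segs]
  | cons y Y => simp [segs]

theorem first_ne (h : I.Good) {u v : Fin 11} (huv : v ∈ rot0 u) : I.p u ≠ I.nx u v := by
  have hne : u ≠ v := by rintro rfl; exact rot0_irrefl u huv
  have hm : I.nx u v ∈ I.b u v ∨ I.nx u v = I.p v := by
    unfold nx
    cases I.b u v with
    | nil => right; rfl
    | cons y Y => left; simp
  intro he
  rcases hm with hm | hm
  · rw [← he] at hm; exact h.c5 u u v hm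
  · rw [hm] at he; exact hne (h.c3 u v he)

theorem data_dir (h : I.Good) {u v : Fin 11} (huv : v ∈ rot0 u) :
    I.data.dir u v = ndir (I.p u) (I.nx u v) := by
  unfold DrawingData.dir
  rw [data_next]
  exact dir_eq (h.c7 _ (I.first_piece huv)) (I.first_ne h huv)

theorem good_adheres (h : I.Good) : I.data.Adheres G0 where
  rotation v := by
    show (((rot0 v).zip ((rot0 v).rotate 1)).map
      fun e => ccw (I.data.dir v e.1) (I.data.dir v e.2)).sum = 4
    rw [← h.c10 v]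
    congr 1
    refine List.map_congr_left fun e he => ?_
    obtain ⟨m1, m2⟩ := List.of_mem_zip (show (e.1, e.2) ∈ (rot0 v).zip ((rot0 v).rotate 1) from he)
    rw [List.mem_rotate] at m2
    rw [I.data_dir h m1, I.data_dir h m2]
  external := by
    show ∀ᶠ e in nhdsWithin (0 : ℝ) (Set.Ioi 0),
      leftPoint (toPt (I.p 2)) (I.data.next 2 6) e ∈ I.data.outer G0
    rw [data_next]
    have hne : toPt (I.p 2) ≠ toPt (I.nx 2 6) := fun he =>
      I.first_ne h (show (6 : Fin 11) ∈ rot0 2 by decide) (toPt_inj he)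
    filter_upwards [self_mem_nhdsWithin] with e he
    refine outer_of_ray _ hne (fun t ht hm => ?_) he
    obtain ⟨p, q, hp, hz⟩ := hm
    obtain ⟨f, hf, rfl, rfl⟩ := I.piece_iff hp
    rw [OrthoDrawing.segment_eq_box (I.pieces_axis h hf)] at hz
    exact miss_spec (h.c11 f hf) ht hz

/-- The orthogonal drawing given by grid data that pass the checks. -/
def toOrtho (h : I.Good) : OrthoDrawing G0 where
  toDrawingData := I.data
  isOrthogonal := I.good_orthogonal h
  adheres := I.good_adheres h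

theorem bends_length (h : I.Good) (u v : Fin 11) :
    ((I.toOrtho h).bends u v).length = (I.b u v).length := by
  show ((I.b u v).map toPt).length = _
  rw [List.length_map]

/-- The number of bends. -/
def count : ℕ := ∑ e ∈ Finset.univ.filter (fun e : Fin 11 × Fin 11 => e.1 < e.2),
  (I.b e.1 e.2).length

theorem bendCount_eq (h : I.Good) : (I.toOrtho h).bendCount = I.count := by
  unfold OrthoDrawing.bendCount count
  exact Finset.sum_congr rfl fun e _ => I.bends_length h e.1 e.2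

theorem bends_eq_nil (h : I.Good) (u v : Fin 11) :
    (I.toOrtho h).bends u v = [] ↔ I.b u v = [] := by
  show (I.b u v).map toPt = [] ↔ _
  exact List.map_eq_nil_iff

end NDraw

end Unbent
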