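import Pool.Agent.Unbent.Lists

/-!
The closed polygon drawn for a cycle of the graph, its rotation as a sum over the edges and
corners of the cycle.
-/

namespace Unbent

open SignType Filter Topology

variable {n : ℕ} {G : PlaneFourGraph n}

namespace OrthoDrawing

variable (D : OrthoDrawing G)

/-- The points met along a walk. -/
def pts : List (Fin n) → List Pt
  | a :: b :: l => D.pos a :: (D.bends a b ++ pts (b :: l))
  | [a] => [D.pos a]
  | [] => []

/-- The same without the last one. -/
def body (l : List (Fin n)) : List Pt :=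
  (segs l).flatMap fun e => D.pos e.1 :: D.bends e.1 e.2

theorem pts_eq : ∀ (l : List (Fin n)) (z : Fin n), D.pts (l ++ [z]) = D.body (l ++ [z]) ++ [D.pos z]
  | [], z => rfl
  | [a], z => by simp [pts, body, segs]
  | a :: b :: l, z => by
    have ih := pts_eq (b :: l) z
    simp only [List.cons_append] at ih ⊢
    rw [pts, ih]
    simp [body, segs]

theorem segs_pts : ∀ (l : List (Fin n)) (e : Pt × Pt), e ∈ segs (D.pts l) →
    ∃ c d, (c, d) ∈ segs l ∧ e ∈ segs (D.chain c d)
  | [], e, h => by simp [pts, segs] at h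
  | [a], e, h => by simp [pts, segs] at h
  | a :: b :: l, e, h => by
    have hp : ∃ R, D.pts (b :: l) = D.pos b :: R := by
      cases l with
      | nil => exact ⟨[], rfl⟩
      | cons c l => exact ⟨_, rfl⟩
    obtain ⟨R, hR⟩ := hp
    have ih := segs_pts (b :: l) e
    rw [pts, hR, ← List.cons_append, segs_append, List.mem_append] at h
    rcases h with h | h
    · exact ⟨a, b, by simp [segs], by simpa [DrawingData.chain] using h⟩
    · rw [← hR] at h
      obtain ⟨c, d, h1, h2⟩ := ih h
      exact ⟨c, d, by rw [segs]; exact List.mem_cons_of_mem _ h1, h2⟩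

/-- The turn at `b` on the way from `a` to `c`. -/
noncomputable def cor (a b c : Fin n) : ℤ := tau (D.next b a) (D.pos b) (D.next b c)

/-- The sum of the turns at the bends on the way from `a` to `b`. -/
noncomputable def tt (a b : Fin n) : ℤ := tsum (D.chain a b)

/-- The sum of turns along a walk. -/
noncomputable def wturn : List (Fin n) → ℤ
  | a :: b :: c :: l => D.tt a b + D.cor a b c + wturn (b :: c :: l)
  | _ => 0

theorem chain_last (a b : Fin n) : ∃ X, D.pos a :: D.bends a b = X ++ [D.next b a] := by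
  have hs := D.isOrthogonal.bends_symm a b
  unfold DrawingData.next
  rw [hs]
  rcases List.eq_nil_or_concat (D.bends a b) with h | ⟨L, y, h⟩
  · rw [h]; exact ⟨[], rfl⟩
  · rw [h]; exact ⟨D.pos a :: L, by simp⟩

theorem wturn_eq : ∀ (l : List (Fin n)) (a w : Fin n),
    tsum (D.pts (a :: l) ++ [D.next ((a :: l).getLast (List.cons_ne_nil _ _)) w]) =
      D.wturn (a :: (l ++ [w]))
  | [], a, w => by simp [pts, wturn, tsum, triples]
  | b :: l, a, w => by
    have ih := wturn_eq l b w
    -- the rest starts with `pos b` and the next point after it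
    have hp : ∃ c m R, l ++ [w] = c :: m ∧
        D.pts (b :: l) ++ [D.next ((b :: l).getLast (List.cons_ne_nil _ _)) w] =
          D.pos b :: D.next b c :: R := by
      cases l with
      | nil => exact ⟨w, [], [], rfl, by simp [pts]⟩
      | cons c l =>
        have hq : ∃ Q, D.pts (c :: l) = D.pos c :: Q := by
          cases l with
          | nil => exact ⟨[], rfl⟩
          | cons c l => exact ⟨_, rfl⟩
        obtain ⟨Q, hQ⟩ := hq
        refine ⟨c, l ++ [w], ?_⟩
        simp only [List.cons_append, pts, hQ, true_and, List.cons.injEq]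
        unfold DrawingData.next
        cases D.bends b c with
        | nil => exact ⟨_, rfl⟩
        | cons y Y => exact ⟨_, rfl⟩
    obtain ⟨c, m, R, hc, hR⟩ := hp
    obtain ⟨X, hX⟩ := D.chain_last a b
    have e1 : (a :: b :: l).getLast (List.cons_ne_nil _ _) =
        (b :: l).getLast (List.cons_ne_nil _ _) := List.getLast_cons _
    rw [e1]
    have e2 : D.pts (a :: b :: l) ++ [D.next ((b :: l).getLast (List.cons_ne_nil _ _)) w] =
        X ++ D.next b a :: D.pos b :: D.next b c :: R := by
      rw [pts, List.cons_append, List.append_assoc, hR, ← List.cons_append, hX]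
      simp
    rw [e2, tsum_append, tsum_cons, ← hR, ih]
    have e3 : a :: (b :: l ++ [w]) = a :: b :: c :: m := by simp [hc]
    rw [e3, wturn, hc]
    have e4 : D.tt a b = tsum (X ++ [D.next b a, D.pos b]) := by
      unfold tt DrawingData.chain
      rw [← List.cons_append, hX]; simp
    rw [e4]
    unfold cor
    ring

theorem segment_eq_box {p q : Pt} (h : Axis p q) : segment ℝ p q = box p q := by
  obtain ⟨p1, p2⟩ := p
  obtain ⟨q1, q2⟩ := q
  rcases h with h | h
  · simp only at h
    subst h
    rw [← Prod.image_mk_segment_right, segment_eq_uIcc]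
    ext z
    rw [mem_box_of_axis_v (p := (p1, p2)) (q := (p1, q2)) rfl]
    simp only [Set.mem_image, Set.uIcc, Set.mem_Icc]
    constructor
    · rintro ⟨x, hx, rfl⟩; exact ⟨rfl, hx⟩
    · rintro ⟨h1, h2⟩; exact ⟨z.2, h2, Prod.ext h1.symm rfl⟩
  · simp only at h
    subst h
    rw [← Prod.image_mk_segment_left, segment_eq_uIcc]
    ext z
    rw [mem_box_of_axis_h (p := (p1, p2)) (q := (q1, p2)) rfl]
    simp only [Set.mem_image, Set.uIcc, Set.mem_Icc]
    constructor
    · rintro ⟨x, hx, rfl⟩; exact ⟨rfl, hx⟩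
    · rintro ⟨h1, h2⟩; exact ⟨z.1, h2, Prod.ext rfl h1.symm⟩

/-- A list of edges for which the drawn points are pairwise distinct. -/
theorem body_nodup (l : List (Fin n))
    (h : (segs l).Pairwise fun e f => e.1 ≠ f.1 ∧ s(e.1, e.2) ≠ s(f.1, f.2)) :
    (D.body l).Nodup := by
  have ho := D.isOrthogonal
  unfold body
  rw [List.nodup_flatMap]
  refine ⟨fun e _ => ?_, h.imp fun {e f} hef => ?_⟩
  · rw [List.nodup_cons]; exact ⟨ho.pos_ne_bend _ _ _, ho.bends_nodup _ _⟩
  · show List.Disjoint _ _
    intro p hp hp'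
    rw [List.mem_cons] at hp hp'
    rcases hp with hp | hp <;> rcases hp' with hp' | hp'
    · exact hef.1 (ho.pos_inj (hp.symm.trans hp'))
    · exact ho.pos_ne_bend _ _ _ (hp ▸ hp')
    · exact ho.pos_ne_bend _ _ _ (hp' ▸ hp)
    · exact hef.2 (ho.bends_disj _ _ _ _ _ hp hp')

/-- The polygon drawn for a cycle of the graph. -/
theorem poly (a b c : Fin n) (l : List (Fin n))
    (hadj : ∀ e ∈ segs (a :: b :: c :: (l ++ [a])), G.graph.Adj e.1 e.2)
    (hpw : (segs (a :: b :: c :: (l ++ [a]))).Pairwise
      fun e f => e.1 ≠ f.1 ∧ s(e.1, e.2) ≠ s(f.1, f.2)) :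
    ∃ L : List Pt, RPoly (L.length + 1) (cyc (D.pos a :: D.next a b :: L)) ∧
      D.wturn (a :: b :: c :: (l ++ [a, b])) =
        2 * RPoly.Lam (L.length + 1) (cyc (D.pos a :: D.next a b :: L)) 0 ∧
      sides (cyc (D.pos a :: D.next a b :: L)) ⊆ D.image G := by
  have ho := D.isOrthogonal
  have hb : ∃ L, D.body (a :: b :: c :: (l ++ [a])) = D.pos a :: D.next a b :: L ∧
      1 ≤ L.length := by
    have hne : ∃ f m, segs (c :: (l ++ [a])) = f :: m := by
      cases l with
      | nil => exact ⟨_, _, rfl⟩
      | cons d l => exact ⟨_, _, rfl⟩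
    obtain ⟨f, m, hf⟩ := hne
    unfold body DrawingData.next
    rw [segs, segs, hf, List.flatMap_cons, List.flatMap_cons, List.flatMap_cons]
    simp only
    cases D.bends a b with
    | nil =>
      refine ⟨D.bends b c ++ ((D.pos f.1 :: D.bends f.1 f.2) ++
        m.flatMap fun e => D.pos e.1 :: D.bends e.1 e.2), rfl, ?_⟩
      simp only [List.length_append, List.length_cons]; omega
    | cons y Y =>
      refine ⟨Y ++ ((D.pos b :: D.bends b c) ++ ((D.pos f.1 :: D.bends f.1 f.2) ++
        m.flatMap fun e => D.pos e.1 :: D.bends e.1 e.2)), rfl, ?_⟩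
      simp only [List.length_append, List.length_cons]; omega
  obtain ⟨L, hL, hlen⟩ := hb
  have hpts : D.pts (a :: b :: c :: (l ++ [a])) = (D.pos a :: D.next a b :: L) ++ [D.pos a] := by
    have := D.pts_eq (a :: b :: c :: l) a
    simp only [List.cons_append] at this ⊢
    rw [this, hL]
    simp
  have hR : RPoly (L.length + 1) (cyc (D.pos a :: D.next a b :: L)) := by
    refine RPoly.of_list _ _ _ hlen ?_ (D.IsPiece G) ?_ ho.piece ?_
    · rw [← hL]; exact D.body_nodup _ hpw
    · rw [← hpts]
      intro e he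
      obtain ⟨u, v, h1, h2⟩ := D.segs_pts _ _ he
      exact ⟨u, v, hadj _ h1, h2⟩
    · intro p q r s h1 h2 h3
      rw [← segment_eq_box (ho.piece _ _ h1), ← segment_eq_box (ho.piece _ _ h2)]
      exact ho.planar _ _ _ _ h1 h2 h3
  refine ⟨L, hR, ?_, ?_⟩
  · rw [← hR.total_list]
    have hw := D.wturn_eq (b :: c :: (l ++ [a])) a b
    have e1 : (a :: b :: c :: (l ++ [a])).getLast (List.cons_ne_nil _ _) = a := by simp
    rw [e1, hpts] at hw
    simp only [List.cons_append, List.append_assoc, List.nil_append] at hw ⊢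
    rw [← hw]
  · rintro z ⟨i, hi⟩
    -- reduce the index
    have hl : (D.pos a :: D.next a b :: L).length = L.length + 2 := rfl
    have h0 := segs_close (D.pos a) (D.next a b) L
      (Nat.mod_lt i (show 0 < L.length + 2 by omega))
    rw [← hpts] at h0
    obtain ⟨u, v, h1, h2⟩ := D.segs_pts _ _ h0
    have e0 : cyc (D.pos a :: D.next a b :: L) (i % (L.length + 2)) =
        cyc (D.pos a :: D.next a b :: L) i := hR.per_mod i
    have e1 : cyc (D.pos a :: D.next a b :: L) (i % (L.length + 2) + 1) =
        cyc (D.pos a :: D.next a b :: L) (i + 1) := by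
      have a1 := hR.per_mod (i % (L.length + 2) + 1)
      have a2 := hR.per_mod (i + 1)
      rw [← a1, ← a2, Nat.mod_add_mod]
    rw [e0, e1] at h2
    have hp : D.IsPiece G (cyc (D.pos a :: D.next a b :: L) i)
      (cyc (D.pos a :: D.next a b :: L) (i + 1)) := ⟨u, v, hadj _ h1, h2⟩
    exact ⟨_, _, hp, by rw [segment_eq_box (ho.piece _ _ hp)]; exact hi⟩

end OrthoDrawing

end Unbent
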