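import Pool.Agent.Unbent.Graph

/-!
The linear equations satisfied by the turns of an orthogonal drawing of the graph `G0`.
-/

set_option linter.unusedSimpArgs false

namespace Unbent

open DrawingData

/-- The nineteen edges. -/
def edges0 : List (Fin 11 × Fin 11) :=
  [(0, 1), (0, 2), (0, 4), (0, 6), (1, 3), (1, 5), (1, 6), (2, 4), (2, 6), (2, 7),
    (3, 4), (3, 5), (3, 7), (4, 7), (5, 7), (5, 10), (6, 9), (8, 9), (8, 10)]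

/-- The equations: one for each face. -/
structure IsFlow (t : ℕ → ℤ) (Y : ℤ) : Prop where
  hY : |Y| ≤ 6
  e0 : t 2 - t 0 - t 4 - t 10 = 0
  e1 : t 0 + t 6 - t 3 = 2
  e2 : t 3 - t 1 - t 8 = 2
  e3 : t 1 + t 7 - t 2 = 2
  e4 : t 5 + t 15 + t 17 - t 6 - t 16 - t 18 = 2 - Y
  e5 : t 4 + t 11 - t 5 = 2
  e6 : t 8 + t 14 + t 16 + t 18 - t 9 - t 15 - t 17 = -16 + Y
  e7 : t 9 - t 7 - t 13 = 2
  e8 : t 10 + t 13 - t 12 = 2
  e9 : t 12 - t 11 - t 14 = 2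

namespace OrthoDrawing

variable (D : OrthoDrawing G0)

/-- The turns along the edges. -/
noncomputable def tvec (i : ℕ) : ℤ := D.tt (edges0.getD i (0, 0)).1 (edges0.getD i (0, 0)).2

theorem cor0 : D.cor 1 0 4 = 2 ∧ D.cor 6 0 1 = 2 ∧ D.cor 2 0 6 = 2 ∧ D.cor 4 0 2 = 2 := by
  have h : ccw (D.dir 0 4) (D.dir 0 1) + ccw (D.dir 0 1) (D.dir 0 6) + ccw (D.dir 0 6) (D.dir 0 2) + ccw (D.dir 0 2) (D.dir 0 4) = 4 := by
    have := D.adheres.rotation 0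
    simpa [G0, rot0, Nat.add_assoc] using this
  have c0 : D.cor 1 0 4 = _ := D.cor_eq (adj0.2 (by decide)) (adj0.2 (by decide)) (by decide)
  have p0 := ccw_pos (D.dir 0 4) (D.dir 0 1)
  have c1 : D.cor 6 0 1 = _ := D.cor_eq (adj0.2 (by decide)) (adj0.2 (by decide)) (by decide)
  have p1 := ccw_pos (D.dir 0 1) (D.dir 0 6)
  have c2 : D.cor 2 0 6 = _ := D.cor_eq (adj0.2 (by decide)) (adj0.2 (by decide)) (by decide)
  have p2 := ccw_pos (D.dir 0 6) (D.dir 0 2)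
  have c3 : D.cor 4 0 2 = _ := D.cor_eq (adj0.2 (by decide)) (adj0.2 (by decide)) (by decide)
  have p3 := ccw_pos (D.dir 0 2) (D.dir 0 4)
  rw [c0, c1, c2, c3]
  refine ⟨?_, ?_, ?_, ?_⟩ <;> omega

theorem cor1 : D.cor 6 1 5 = 2 ∧ D.cor 0 1 6 = 2 ∧ D.cor 3 1 0 = 2 ∧ D.cor 5 1 3 = 2 := by
  have h : ccw (D.dir 1 5) (D.dir 1 6) + ccw (D.dir 1 6) (D.dir 1 0) + ccw (D.dir 1 0) (D.dir 1 3) + ccw (D.dir 1 3) (D.dir 1 5) = 4 := by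
    have := D.adheres.rotation 1
    simpa [G0, rot0, Nat.add_assoc] using this
  have c0 : D.cor 6 1 5 = _ := D.cor_eq (adj0.2 (by decide)) (adj0.2 (by decide)) (by decide)
  have p0 := ccw_pos (D.dir 1 5) (D.dir 1 6)
  have c1 : D.cor 0 1 6 = _ := D.cor_eq (adj0.2 (by decide)) (adj0.2 (by decide)) (by decide)
  have p1 := ccw_pos (D.dir 1 6) (D.dir 1 0)
  have c2 : D.cor 3 1 0 = _ := D.cor_eq (adj0.2 (by decide)) (adj0.2 (by decide)) (by decide)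
  have p2 := ccw_pos (D.dir 1 0) (D.dir 1 3)
  have c3 : D.cor 5 1 3 = _ := D.cor_eq (adj0.2 (by decide)) (adj0.2 (by decide)) (by decide)
  have p3 := ccw_pos (D.dir 1 3) (D.dir 1 5)
  rw [c0, c1, c2, c3]
  refine ⟨?_, ?_, ?_, ?_⟩ <;> omega

theorem cor2 : D.cor 6 2 0 = 2 ∧ D.cor 7 2 6 = 2 ∧ D.cor 4 2 7 = 2 ∧ D.cor 0 2 4 = 2 := by
  have h : ccw (D.dir 2 0) (D.dir 2 6) + ccw (D.dir 2 6) (D.dir 2 7) + ccw (D.dir 2 7) (D.dir 2 4) + ccw (D.dir 2 4) (D.dir 2 0) = 4 := by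
    have := D.adheres.rotation 2
    simpa [G0, rot0, Nat.add_assoc] using this
  have c0 : D.cor 6 2 0 = _ := D.cor_eq (adj0.2 (by decide)) (adj0.2 (by decide)) (by decide)
  have p0 := ccw_pos (D.dir 2 0) (D.dir 2 6)
  have c1 : D.cor 7 2 6 = _ := D.cor_eq (adj0.2 (by decide)) (adj0.2 (by decide)) (by decide)
  have p1 := ccw_pos (D.dir 2 6) (D.dir 2 7)
  have c2 : D.cor 4 2 7 = _ := D.cor_eq (adj0.2 (by decide)) (adj0.2 (by decide)) (by decide)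
  have p2 := ccw_pos (D.dir 2 7) (D.dir 2 4)
  have c3 : D.cor 0 2 4 = _ := D.cor_eq (adj0.2 (by decide)) (adj0.2 (by decide)) (by decide)
  have p3 := ccw_pos (D.dir 2 4) (D.dir 2 0)
  rw [c0, c1, c2, c3]
  refine ⟨?_, ?_, ?_, ?_⟩ <;> omega

theorem cor3 : D.cor 1 3 5 = 2 ∧ D.cor 4 3 1 = 2 ∧ D.cor 7 3 4 = 2 ∧ D.cor 5 3 7 = 2 := by
  have h : ccw (D.dir 3 5) (D.dir 3 1) + ccw (D.dir 3 1) (D.dir 3 4) + ccw (D.dir 3 4) (D.dir 3 7) + ccw (D.dir 3 7) (D.dir 3 5) = 4 := by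
    have := D.adheres.rotation 3
    simpa [G0, rot0, Nat.add_assoc] using this
  have c0 : D.cor 1 3 5 = _ := D.cor_eq (adj0.2 (by decide)) (adj0.2 (by decide)) (by decide)
  have p0 := ccw_pos (D.dir 3 5) (D.dir 3 1)
  have c1 : D.cor 4 3 1 = _ := D.cor_eq (adj0.2 (by decide)) (adj0.2 (by decide)) (by decide)
  have p1 := ccw_pos (D.dir 3 1) (D.dir 3 4)
  have c2 : D.cor 7 3 4 = _ := D.cor_eq (adj0.2 (by decide)) (adj0.2 (by decide)) (by decide)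
  have p2 := ccw_pos (D.dir 3 4) (D.dir 3 7)
  have c3 : D.cor 5 3 7 = _ := D.cor_eq (adj0.2 (by decide)) (adj0.2 (by decide)) (by decide)
  have p3 := ccw_pos (D.dir 3 7) (D.dir 3 5)
  rw [c0, c1, c2, c3]
  refine ⟨?_, ?_, ?_, ?_⟩ <;> omega

theorem cor4 : D.cor 0 4 3 = 2 ∧ D.cor 2 4 0 = 2 ∧ D.cor 7 4 2 = 2 ∧ D.cor 3 4 7 = 2 := by
  have h : ccw (D.dir 4 3) (D.dir 4 0) + ccw (D.dir 4 0) (D.dir 4 2) + ccw (D.dir 4 2) (D.dir 4 7) + ccw (D.dir 4 7) (D.dir 4 3) = 4 := by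
    have := D.adheres.rotation 4
    simpa [G0, rot0, Nat.add_assoc] using this
  have c0 : D.cor 0 4 3 = _ := D.cor_eq (adj0.2 (by decide)) (adj0.2 (by decide)) (by decide)
  have p0 := ccw_pos (D.dir 4 3) (D.dir 4 0)
  have c1 : D.cor 2 4 0 = _ := D.cor_eq (adj0.2 (by decide)) (adj0.2 (by decide)) (by decide)
  have p1 := ccw_pos (D.dir 4 0) (D.dir 4 2)
  have c2 : D.cor 7 4 2 = _ := D.cor_eq (adj0.2 (by decide)) (adj0.2 (by decide)) (by decide)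
  have p2 := ccw_pos (D.dir 4 2) (D.dir 4 7)
  have c3 : D.cor 3 4 7 = _ := D.cor_eq (adj0.2 (by decide)) (adj0.2 (by decide)) (by decide)
  have p3 := ccw_pos (D.dir 4 7) (D.dir 4 3)
  rw [c0, c1, c2, c3]
  refine ⟨?_, ?_, ?_, ?_⟩ <;> omega

theorem cor5 : D.cor 7 5 3 = 2 ∧ D.cor 10 5 7 = 2 ∧ D.cor 1 5 10 = 2 ∧ D.cor 3 5 1 = 2 := by
  have h : ccw (D.dir 5 3) (D.dir 5 7) + ccw (D.dir 5 7) (D.dir 5 10) + ccw (D.dir 5 10) (D.dir 5 1) + ccw (D.dir 5 1) (D.dir 5 3) = 4 := by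
    have := D.adheres.rotation 5
    simpa [G0, rot0, Nat.add_assoc] using this
  have c0 : D.cor 7 5 3 = _ := D.cor_eq (adj0.2 (by decide)) (adj0.2 (by decide)) (by decide)
  have p0 := ccw_pos (D.dir 5 3) (D.dir 5 7)
  have c1 : D.cor 10 5 7 = _ := D.cor_eq (adj0.2 (by decide)) (adj0.2 (by decide)) (by decide)
  have p1 := ccw_pos (D.dir 5 7) (D.dir 5 10)
  have c2 : D.cor 1 5 10 = _ := D.cor_eq (adj0.2 (by decide)) (adj0.2 (by decide)) (by decide)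
  have p2 := ccw_pos (D.dir 5 10) (D.dir 5 1)
  have c3 : D.cor 3 5 1 = _ := D.cor_eq (adj0.2 (by decide)) (adj0.2 (by decide)) (by decide)
  have p3 := ccw_pos (D.dir 5 1) (D.dir 5 3)
  rw [c0, c1, c2, c3]
  refine ⟨?_, ?_, ?_, ?_⟩ <;> omega

theorem cor6 : D.cor 9 6 1 = 2 ∧ D.cor 2 6 9 = 2 ∧ D.cor 0 6 2 = 2 ∧ D.cor 1 6 0 = 2 := by
  have h : ccw (D.dir 6 1) (D.dir 6 9) + ccw (D.dir 6 9) (D.dir 6 2) + ccw (D.dir 6 2) (D.dir 6 0) + ccw (D.dir 6 0) (D.dir 6 1) = 4 := by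
    have := D.adheres.rotation 6
    simpa [G0, rot0, Nat.add_assoc] using this
  have c0 : D.cor 9 6 1 = _ := D.cor_eq (adj0.2 (by decide)) (adj0.2 (by decide)) (by decide)
  have p0 := ccw_pos (D.dir 6 1) (D.dir 6 9)
  have c1 : D.cor 2 6 9 = _ := D.cor_eq (adj0.2 (by decide)) (adj0.2 (by decide)) (by decide)
  have p1 := ccw_pos (D.dir 6 9) (D.dir 6 2)
  have c2 : D.cor 0 6 2 = _ := D.cor_eq (adj0.2 (by decide)) (adj0.2 (by decide)) (by decide)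
  have p2 := ccw_pos (D.dir 6 2) (D.dir 6 0)
  have c3 : D.cor 1 6 0 = _ := D.cor_eq (adj0.2 (by decide)) (adj0.2 (by decide)) (by decide)
  have p3 := ccw_pos (D.dir 6 0) (D.dir 6 1)
  rw [c0, c1, c2, c3]
  refine ⟨?_, ?_, ?_, ?_⟩ <;> omega

theorem cor7 : D.cor 5 7 2 = 2 ∧ D.cor 3 7 5 = 2 ∧ D.cor 4 7 3 = 2 ∧ D.cor 2 7 4 = 2 := by
  have h : ccw (D.dir 7 2) (D.dir 7 5) + ccw (D.dir 7 5) (D.dir 7 3) + ccw (D.dir 7 3) (D.dir 7 4) + ccw (D.dir 7 4) (D.dir 7 2) = 4 := by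
    have := D.adheres.rotation 7
    simpa [G0, rot0, Nat.add_assoc] using this
  have c0 : D.cor 5 7 2 = _ := D.cor_eq (adj0.2 (by decide)) (adj0.2 (by decide)) (by decide)
  have p0 := ccw_pos (D.dir 7 2) (D.dir 7 5)
  have c1 : D.cor 3 7 5 = _ := D.cor_eq (adj0.2 (by decide)) (adj0.2 (by decide)) (by decide)
  have p1 := ccw_pos (D.dir 7 5) (D.dir 7 3)
  have c2 : D.cor 4 7 3 = _ := D.cor_eq (adj0.2 (by decide)) (adj0.2 (by decide)) (by decide)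
  have p2 := ccw_pos (D.dir 7 3) (D.dir 7 4)
  have c3 : D.cor 2 7 4 = _ := D.cor_eq (adj0.2 (by decide)) (adj0.2 (by decide)) (by decide)
  have p3 := ccw_pos (D.dir 7 4) (D.dir 7 2)
  rw [c0, c1, c2, c3]
  refine ⟨?_, ?_, ?_, ?_⟩ <;> omega

theorem cor8 : D.cor 9 8 10 + D.cor 10 8 9 = 0 ∧ |D.cor 10 8 9| ≤ 2 := by
  have h : ccw (D.dir 8 10) (D.dir 8 9) + ccw (D.dir 8 9) (D.dir 8 10) = 4 := by
    have := D.adheres.rotation 8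
    simpa [G0, rot0, Nat.add_assoc] using this
  have c0 : D.cor 9 8 10 = _ := D.cor_eq (adj0.2 (by decide)) (adj0.2 (by decide)) (by decide)
  have p0 := ccw_pos (D.dir 8 10) (D.dir 8 9)
  have c1 : D.cor 10 8 9 = _ := D.cor_eq (adj0.2 (by decide)) (adj0.2 (by decide)) (by decide)
  have p1 := ccw_pos (D.dir 8 9) (D.dir 8 10)
  rw [c0, c1, abs_le]
  refine ⟨?_, ?_, ?_⟩ <;> omega

theorem cor9 : D.cor 6 9 8 + D.cor 8 9 6 = 0 ∧ |D.cor 8 9 6| ≤ 2 := by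
  have h : ccw (D.dir 9 8) (D.dir 9 6) + ccw (D.dir 9 6) (D.dir 9 8) = 4 := by
    have := D.adheres.rotation 9
    simpa [G0, rot0, Nat.add_assoc] using this
  have c0 : D.cor 6 9 8 = _ := D.cor_eq (adj0.2 (by decide)) (adj0.2 (by decide)) (by decide)
  have p0 := ccw_pos (D.dir 9 8) (D.dir 9 6)
  have c1 : D.cor 8 9 6 = _ := D.cor_eq (adj0.2 (by decide)) (adj0.2 (by decide)) (by decide)
  have p1 := ccw_pos (D.dir 9 6) (D.dir 9 8)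
  rw [c0, c1, abs_le]
  refine ⟨?_, ?_, ?_⟩ <;> omega

theorem cor10 : D.cor 8 10 5 + D.cor 5 10 8 = 0 ∧ |D.cor 5 10 8| ≤ 2 := by
  have h : ccw (D.dir 10 5) (D.dir 10 8) + ccw (D.dir 10 8) (D.dir 10 5) = 4 := by
    have := D.adheres.rotation 10
    simpa [G0, rot0, Nat.add_assoc] using this
  have c0 : D.cor 8 10 5 = _ := D.cor_eq (adj0.2 (by decide)) (adj0.2 (by decide)) (by decide)
  have p0 := ccw_pos (D.dir 10 5) (D.dir 10 8)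
  have c1 : D.cor 5 10 8 = _ := D.cor_eq (adj0.2 (by decide)) (adj0.2 (by decide)) (by decide)
  have p1 := ccw_pos (D.dir 10 8) (D.dir 10 5)
  rw [c0, c1, abs_le]
  refine ⟨?_, ?_, ?_⟩ <;> omega

theorem le8 {x : ℤ} (h : x = 8 ∨ x = -8) : x ≤ 8 := by omega

set_option maxRecDepth 10000 in
/-- The equations hold. -/
theorem isFlow : IsFlow D.tvec (D.cor 10 8 9 + D.cor 8 9 6 + D.cor 5 10 8) := by
  have s0_1 : D.tt 1 0 = -D.tt 0 1 := D.tt_symm (adj0.2 (by decide))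
  have s0_2 : D.tt 2 0 = -D.tt 0 2 := D.tt_symm (adj0.2 (by decide))
  have s0_4 : D.tt 4 0 = -D.tt 0 4 := D.tt_symm (adj0.2 (by decide))
  have s0_6 : D.tt 6 0 = -D.tt 0 6 := D.tt_symm (adj0.2 (by decide))
  have s1_3 : D.tt 3 1 = -D.tt 1 3 := D.tt_symm (adj0.2 (by decide))
  have s1_5 : D.tt 5 1 = -D.tt 1 5 := D.tt_symm (adj0.2 (by decide))
  have s1_6 : D.tt 6 1 = -D.tt 1 6 := D.tt_symm (adj0.2 (by decide))
  have s2_4 : D.tt 4 2 = -D.tt 2 4 := D.tt_symm (adj0.2 (by decide))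
  have s2_6 : D.tt 6 2 = -D.tt 2 6 := D.tt_symm (adj0.2 (by decide))
  have s2_7 : D.tt 7 2 = -D.tt 2 7 := D.tt_symm (adj0.2 (by decide))
  have s3_4 : D.tt 4 3 = -D.tt 3 4 := D.tt_symm (adj0.2 (by decide))
  have s3_5 : D.tt 5 3 = -D.tt 3 5 := D.tt_symm (adj0.2 (by decide))
  have s3_7 : D.tt 7 3 = -D.tt 3 7 := D.tt_symm (adj0.2 (by decide))
  have s4_7 : D.tt 7 4 = -D.tt 4 7 := D.tt_symm (adj0.2 (by decide))
  have s5_7 : D.tt 7 5 = -D.tt 5 7 := D.tt_symm (adj0.2 (by decide))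
  have s5_10 : D.tt 10 5 = -D.tt 5 10 := D.tt_symm (adj0.2 (by decide))
  have s6_9 : D.tt 9 6 = -D.tt 6 9 := D.tt_symm (adj0.2 (by decide))
  have s8_9 : D.tt 9 8 = -D.tt 8 9 := D.tt_symm (adj0.2 (by decide))
  have s8_10 : D.tt 10 8 = -D.tt 8 10 := D.tt_symm (adj0.2 (by decide))
  obtain ⟨c0_0, c0_1, c0_2, c0_3⟩ := D.cor0
  obtain ⟨c1_0, c1_1, c1_2, c1_3⟩ := D.cor1
  obtain ⟨c2_0, c2_1, c2_2, c2_3⟩ := D.cor2
  obtain ⟨c3_0, c3_1, c3_2, c3_3⟩ := D.cor3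
  obtain ⟨c4_0, c4_1, c4_2, c4_3⟩ := D.cor4
  obtain ⟨c5_0, c5_1, c5_2, c5_3⟩ := D.cor5
  obtain ⟨c6_0, c6_1, c6_2, c6_3⟩ := D.cor6
  obtain ⟨c7_0, c7_1, c7_2, c7_3⟩ := D.cor7
  obtain ⟨c8_0, c8_1⟩ := D.cor8
  obtain ⟨c9_0, c9_1⟩ := D.cor9
  obtain ⟨c10_0, c10_1⟩ := D.cor10
  have w0 : D.wturn [0, 4, 3, 1, 0, 4] = 8 ∨ D.wturn [0, 4, 3, 1, 0, 4] = -8 :=
    D.lam_face 0 4 3 [1] (by decide) (by decide)
  simp only [wturn] at w0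
  have w1 : D.wturn [0, 1, 6, 0, 1] = 8 ∨ D.wturn [0, 1, 6, 0, 1] = -8 :=
    D.lam_face 0 1 6 [] (by decide) (by decide)
  simp only [wturn] at w1
  have w2 : D.wturn [0, 6, 2, 0, 6] = 8 ∨ D.wturn [0, 6, 2, 0, 6] = -8 :=
    D.lam_face 0 6 2 [] (by decide) (by decide)
  simp only [wturn] at w2
  have w3 : D.wturn [0, 2, 4, 0, 2] = 8 ∨ D.wturn [0, 2, 4, 0, 2] = -8 :=
    D.lam_face 0 2 4 [] (by decide) (by decide)
  simp only [wturn] at w3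
  have w4 : D.wturn [1, 5, 10, 8, 9, 6, 1, 5] = 8 ∨ D.wturn [1, 5, 10, 8, 9, 6, 1, 5] = -8 :=
    D.lam_face 1 5 10 [8, 9, 6] (by decide) (by decide)
  simp only [wturn] at w4
  have w5 : D.wturn [1, 3, 5, 1, 3] = 8 ∨ D.wturn [1, 3, 5, 1, 3] = -8 :=
    D.lam_face 1 3 5 [] (by decide) (by decide)
  simp only [wturn] at w5
  have w6 : D.wturn [2, 6, 9, 8, 10, 5, 7, 2, 6] = -8 := D.lam_ext
  simp only [wturn] at w6
  have w7 : D.wturn [2, 7, 4, 2, 7] = 8 ∨ D.wturn [2, 7, 4, 2, 7] = -8 :=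
    D.lam_face 2 7 4 [] (by decide) (by decide)
  simp only [wturn] at w7
  have w8 : D.wturn [3, 4, 7, 3, 4] = 8 ∨ D.wturn [3, 4, 7, 3, 4] = -8 :=
    D.lam_face 3 4 7 [] (by decide) (by decide)
  simp only [wturn] at w8
  have w9 : D.wturn [3, 7, 5, 3, 7] = 8 ∨ D.wturn [3, 7, 5, 3, 7] = -8 :=
    D.lam_face 3 7 5 [] (by decide) (by decide)
  simp only [wturn] at w9
  have t0 : ∀ i, D.tvec i = D.tt (edges0.getD i (0, 0)).1 (edges0.getD i (0, 0)).2 := fun _ => rfl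
  have v0 : D.tvec 0 = D.tt 0 1 := rfl
  have v1 : D.tvec 1 = D.tt 0 2 := rfl
  have v2 : D.tvec 2 = D.tt 0 4 := rfl
  have v3 : D.tvec 3 = D.tt 0 6 := rfl
  have v4 : D.tvec 4 = D.tt 1 3 := rfl
  have v5 : D.tvec 5 = D.tt 1 5 := rfl
  have v6 : D.tvec 6 = D.tt 1 6 := rfl
  have v7 : D.tvec 7 = D.tt 2 4 := rfl
  have v8 : D.tvec 8 = D.tt 2 6 := rfl
  have v9 : D.tvec 9 = D.tt 2 7 := rfl
  have v10 : D.tvec 10 = D.tt 3 4 := rfl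
  have v11 : D.tvec 11 = D.tt 3 5 := rfl
  have v12 : D.tvec 12 = D.tt 3 7 := rfl
  have v13 : D.tvec 13 = D.tt 4 7 := rfl
  have v14 : D.tvec 14 = D.tt 5 7 := rfl
  have v15 : D.tvec 15 = D.tt 5 10 := rfl
  have v16 : D.tvec 16 = D.tt 6 9 := rfl
  have v17 : D.tvec 17 = D.tt 8 9 := rfl
  have v18 : D.tvec 18 = D.tt 8 10 := rfl
  simp only [s0_1, s0_2, s0_4, s0_6, s1_3, s1_5, s1_6, s2_4, s2_6, s2_7, s3_4, s3_5, s3_7, s4_7, s5_7, s5_10, s6_9, s8_9, s8_10, c0_0, c0_1, c0_2, c0_3, c1_0, c1_1, c1_2, c1_3, c2_0, c2_1, c2_2, c2_3, c3_0, c3_1, c3_2, c3_3, c4_0, c4_1, c4_2, c4_3, c5_0, c5_1, c5_2, c5_3, c6_0, c6_1, c6_2, c6_3, c7_0, c7_1, c7_2, c7_3] at w0 w1 w2 w3 w4 w5 w6 w7 w8 w9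
  clear t0
  have u0 := le8 w0
  have u1 := le8 w1
  have u2 := le8 w2
  have u3 := le8 w3
  have u4 := le8 w4
  have u5 := le8 w5
  have u7 := le8 w7
  have u8 := le8 w8
  have u9 := le8 w9
  clear w0 w1 w2 w3 w4 w5 w7 w8 w9
  clear c0_0 c0_1 c0_2 c0_3 c1_0 c1_1 c1_2 c1_3 c2_0 c2_1 c2_2 c2_3 c3_0 c3_1 c3_2 c3_3 c4_0 c4_1 c4_2 c4_3 c5_0 c5_1 c5_2 c5_3 c6_0 c6_1 c6_2 c6_3 c7_0 c7_1 c7_2 c7_3
  clear s0_1 s0_2 s0_4 s0_6 s1_3 s1_5 s1_6 s2_4 s2_6 s2_7 s3_4 s3_5 s3_7 s4_7 s5_7 s5_10 s6_9 s8_9 s8_10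
  rw [abs_le] at c8_1 c9_1 c10_1
  have hy : |D.cor 10 8 9 + D.cor 8 9 6 + D.cor 5 10 8| ≤ 6 := by
    rw [abs_le]; constructor <;> linarith [c8_1.1, c8_1.2, c9_1.1, c9_1.2, c10_1.1, c10_1.2]
  clear c8_1 c9_1 c10_1
  refine ⟨hy, ?_, ?_, ?_, ?_, ?_, ?_, ?_, ?_, ?_, ?_⟩ <;>
    simp only [v0, v1, v2, v3, v4, v5, v6, v7, v8, v9, v10, v11, v12, v13, v14, v15, v16, v17, v18] <;>
    clear v0 v1 v2 v3 v4 v5 v6 v7 v8 v9 v10 v11 v12 v13 v14 v15 v16 v17 v18 hy <;> linarith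

end OrthoDrawing

end Unbent
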