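import Pool.Agent.Unbent.Corner

/-!
The plane 4-graph of the counterexample: eleven vertices, nineteen edges, ten faces.
-/

namespace Unbent

/-- The rotation system. -/
def rot0 : Fin 11 → List (Fin 11) :=
  ![[4, 1, 6, 2], [5, 6, 0, 3], [0, 6, 7, 4], [5, 1, 4, 7], [3, 0, 2, 7], [3, 7, 10, 1],
    [1, 9, 2, 0], [2, 5, 3, 4], [10, 9], [8, 6], [5, 8]]

theorem rot0_symm : ∀ v w, w ∈ rot0 v → v ∈ rot0 w := by decide

theorem rot0_irrefl : ∀ v, v ∉ rot0 v := by decide

/-- The underlying graph. -/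
def graph0 : SimpleGraph (Fin 11) where
  Adj v w := w ∈ rot0 v
  symm := ⟨fun v w h => rot0_symm v w h⟩
  loopless := ⟨fun v h => rot0_irrefl v h⟩

theorem graph0_adj (v w : Fin 11) : graph0.Adj v w ↔ w ∈ rot0 v := Iff.rfl

instance : DecidableRel graph0.Adj := fun v w => inferInstanceAs (Decidable (w ∈ rot0 v))

theorem graph0_connected : graph0.Connected := by
  have a : ∀ v w : Fin 11, w ∈ rot0 v → graph0.Reachable v w := fun v w h =>
    SimpleGraph.Adj.reachable h
  have h1 := a 0 1 (by decide)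
  have h2 := a 0 2 (by decide)
  have h4 := a 0 4 (by decide)
  have h6 := a 0 6 (by decide)
  have h3 := h1.trans (a 1 3 (by decide))
  have h5 := h1.trans (a 1 5 (by decide))
  have h7 := h2.trans (a 2 7 (by decide))
  have h9 := h6.trans (a 6 9 (by decide))
  have h8 := h9.trans (a 9 8 (by decide))
  have h10 := h5.trans (a 5 10 (by decide))
  have key : ∀ v : Fin 11, graph0.Reachable 0 v := by
    intro v
    fin_cases v
    exacts [SimpleGraph.Reachable.refl _, h1, h2, h3, h4, h5, h6, h7, h8, h9, h10]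
  exact { preconnected := fun u v => (key u).symm.trans (key v), nonempty := ⟨0⟩ }

/-- The plane 4-graph. -/
def G0 : PlaneFourGraph 11 where
  graph := graph0
  connected := graph0_connected
  rot := rot0
  rot_nodup := by decide
  mem_rot _ _ := Iff.rfl
  rot_length := by decide
  ext := (2, 6)
  ext_adj := by
    show (6 : Fin 11) ∈ rot0 2
    decide

theorem adj0 {v w : Fin 11} : G0.graph.Adj v w ↔ w ∈ rot0 v := Iff.rfl

namespace OrthoDrawing

variable (D : OrthoDrawing G0)

theorem lam_face (a b c : Fin 11) (l : List (Fin 11))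
    (hadj : ∀ e ∈ segs (a :: b :: c :: (l ++ [a])), e.2 ∈ rot0 e.1)
    (hpw : (segs (a :: b :: c :: (l ++ [a]))).Pairwise
      fun e f => e.1 ≠ f.1 ∧ s(e.1, e.2) ≠ s(f.1, f.2)) :
    D.wturn (a :: b :: c :: (l ++ [a, b])) = 8 ∨ D.wturn (a :: b :: c :: (l ++ [a, b])) = -8 := by
  obtain ⟨L, hR, h1, _⟩ := D.poly a b c l hadj hpw
  rw [h1]
  rcases hR.Lam_cases with h | h <;> rw [h]
  · left; norm_num
  · right; norm_num

set_option maxRecDepth 10000 in
theorem lam_ext : D.wturn [2, 6, 9, 8, 10, 5, 7, 2, 6] = -8 := by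
  have hadj : ∀ e ∈ segs ((2 : Fin 11) :: 6 :: 9 :: ([8, 10, 5, 7] ++ [2])), e.2 ∈ rot0 e.1 := by
    decide
  obtain ⟨L, hR, h1, h2⟩ := D.poly 2 6 9 [8, 10, 5, 7] hadj (by decide)
  have h3 : D.wturn [2, 6, 9, 8, 10, 5, 7, 2, 6] =
      2 * RPoly.Lam (L.length + 1) (cyc (D.pos 2 :: D.next 2 6 :: L)) 0 := h1
  rw [h3, hR.Lam_outer]
  · norm_num
  have hx := D.adheres.external
  filter_upwards [hx] with e he
  refine ⟨connectedComponentIn (D.image G0)ᶜ (DrawingData.leftPoint (D.pos 2) (D.next 2 6) e),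
    isPreconnected_connectedComponentIn, he, ?_, ?_⟩
  · rw [Set.disjoint_left]
    intro z hz hz'
    exact connectedComponentIn_subset _ _ hz (h2 hz')
  · have hne : (connectedComponentIn (D.image G0)ᶜ
        (DrawingData.leftPoint (D.pos 2) (D.next 2 6) e)).Nonempty := by
      by_contra hc
      rw [Set.not_nonempty_iff_eq_empty] at hc
      apply he
      show Bornology.IsBounded (connectedComponentIn (D.image G0)ᶜ
        (DrawingData.leftPoint (D.pos 2) (D.next 2 6) e))
      rw [hc]
      exact Bornology.isBounded_empty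
    have hm := connectedComponentIn_nonempty_iff.1 hne
    exact mem_connectedComponentIn hm

end OrthoDrawing

end Unbent
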