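import Pool.Agent.Unbent.Corr

/-!
Points close to the left side of a side of a simple closed rectilinear polygon have winding
number equal to the rotation plus four (in octants). Hence if the left side of a side lies
in an unbounded connected set missing the polygon, the polygon turns clockwise.
-/

namespace Unbent

open SignType Filter Topology

theorem isOpen_InH (k : Fin 4) : IsOpen {v : Pt | InH k v} := by
  fin_cases k
  · have : {v : Pt | InH 0 v} = {v | 0 < v.1} := by ext v; exact InH_zero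
    show IsOpen {v : Pt | InH 0 v}
    rw [this]; exact isOpen_lt continuous_const continuous_fst
  · have : {v : Pt | InH 1 v} = {v | 0 < v.2} := by ext v; exact InH_one
    show IsOpen {v : Pt | InH 1 v}
    rw [this]; exact isOpen_lt continuous_const continuous_snd
  · have : {v : Pt | InH 2 v} = {v | v.1 < 0} := by ext v; exact InH_two
    show IsOpen {v : Pt | InH 2 v}
    rw [this]; exact isOpen_lt continuous_fst continuous_const
  · have : {v : Pt | InH 3 v} = {v | v.2 < 0} := by ext v; exact InH_three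
    show IsOpen {v : Pt | InH 3 v}
    rw [this]; exact isOpen_lt continuous_snd continuous_const

theorem continuous_leftPt (p q : Pt) : Continuous (leftPt p q) := by
  unfold leftPt; fun_prop

theorem InH_mid {k : Fin 4} {v p q : Pt} (h1 : InH k (v - p)) (h2 : InH k (v - q)) :
    InH k (v - leftPt p q 0) := by
  have e1 : (leftPt p q 0).1 = (p.1 + q.1) / 2 := by simp [leftPt]
  have e2 : (leftPt p q 0).2 = (p.2 + q.2) / 2 := by simp [leftPt]
  fin_cases k
  · rw [show ((⟨0, by norm_num⟩ : Fin 4)) = 0 from rfl, InH_zero] at h1 h2 ⊢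
    simp only [Prod.fst_sub] at h1 h2 ⊢
    rw [e1]; linarith
  · rw [show ((⟨1, by norm_num⟩ : Fin 4)) = 1 from rfl, InH_one] at h1 h2 ⊢
    simp only [Prod.snd_sub] at h1 h2 ⊢
    rw [e2]; linarith
  · rw [show ((⟨2, by norm_num⟩ : Fin 4)) = 2 from rfl, InH_two] at h1 h2 ⊢
    simp only [Prod.fst_sub] at h1 h2 ⊢
    rw [e1]; linarith
  · rw [show ((⟨3, by norm_num⟩ : Fin 4)) = 3 from rfl, InH_three] at h1 h2 ⊢
    simp only [Prod.snd_sub] at h1 h2 ⊢
    rw [e2]; linarith

theorem InH_ev {k : Fin 4} {v p q : Pt} (h1 : InH k (v - p)) (h2 : InH k (v - q)) :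
    ∀ᶠ e in 𝓝 (0 : ℝ), InH k (v - leftPt p q e) := by
  have hc : Continuous fun e => v - leftPt p q e := continuous_const.sub (continuous_leftPt p q)
  exact hc.continuousAt.eventually ((isOpen_InH k).mem_nhds (InH_mid h1 h2))

theorem small_ev (a b : ℝ) : ∀ᶠ e in 𝓝 (0 : ℝ), e * |a| < |b| ∨ b = 0 := by
  by_cases hb : b = 0
  · exact Filter.Eventually.of_forall fun _ => Or.inr hb
  have hc : Continuous fun e : ℝ => e * |a| := by fun_prop
  have h0 : (fun e : ℝ => e * |a|) 0 < |b| := by simpa using hb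
  filter_upwards [hc.continuousAt.eventually (isOpen_Iio.mem_nhds h0)] with e he
  exact Or.inl he

/-- The second side seen from the left of the first. -/
theorem second_half {p q r : Pt} (ha : Axis p q) (hb : Axis q r) (n1 : p ≠ q) (n2 : q ≠ r)
    (hx : box p q ∩ box q r ⊆ {q}) (e : ℝ) :
    ∃ k, InH k (q - p) ∧ InH k (r - p) ∧ InH k (q - leftPt p q e) ∧ InH k (r - leftPt p q e) := by
  obtain ⟨nf1, nf2, nf3, nf4⟩ := no_fold ha hb n1 n2 hx
  have z1 : (leftPt p q e).1 = (p.1 + q.1) / 2 - e * (q.2 - p.2) := rfl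
  have z2 : (leftPt p q e).2 = (p.2 + q.2) / 2 + e * (q.1 - p.1) := rfl
  rcases axis_cases ha n1 with ⟨a, b⟩ | ⟨a, b⟩ | ⟨a, b⟩ | ⟨a, b⟩
  · have := nf1 a
    rw [b, sub_self, mul_zero, sub_zero] at z1
    refine ⟨0, InH_zero.2 ?_, InH_zero.2 ?_, InH_zero.2 ?_, InH_zero.2 ?_⟩ <;>
      simp only [Prod.fst_sub] <;> linarith
  · have := nf3 a
    rw [b, sub_self, mul_zero, add_zero] at z2
    refine ⟨1, InH_one.2 ?_, InH_one.2 ?_, InH_one.2 ?_, InH_one.2 ?_⟩ <;>
      simp only [Prod.snd_sub] <;> linarith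
  · have := nf2 a
    rw [b, sub_self, mul_zero, sub_zero] at z1
    refine ⟨2, InH_two.2 ?_, InH_two.2 ?_, InH_two.2 ?_, InH_two.2 ?_⟩ <;>
      simp only [Prod.fst_sub] <;> linarith
  · have := nf4 a
    rw [b, sub_self, mul_zero, add_zero] at z2
    refine ⟨3, InH_three.2 ?_, InH_three.2 ?_, InH_three.2 ?_, InH_three.2 ?_⟩ <;>
      simp only [Prod.snd_sub] <;> linarith

namespace RPoly

variable {N : ℕ} {P : ℕ → Pt}

theorem W_left (h : RPoly N P) :
    ∀ᶠ e in 𝓝[>] (0 : ℝ), W N P (leftPt (P 0) (P 1) e) = Lam N P 0 + 4 := by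
  have hN := h.hN
  have ev1 : ∀ᶠ e in 𝓝 (0 : ℝ), ∀ i ∈ Finset.Ico 2 N, ∃ k, InH k (P i - P 0) ∧
      InH k (P (i + 1) - P 0) ∧ InH k (P i - leftPt (P 0) (P 1) e) ∧
      InH k (P (i + 1) - leftPt (P 0) (P 1) e) := by
    rw [Filter.eventually_all_finset]
    intro i hi
    rw [Finset.mem_Ico] at hi
    obtain ⟨k, a, b, c, d⟩ := sep (h.disj 0 i (by omega) (by omega))
    filter_upwards [InH_ev a b, InH_ev c d] with e he1 he2
    exact ⟨k, a, c, he1, he2⟩
  have ev2 := small_ev ((P 1).1 - (P 0).1) ((P N).2 - (P 0).2)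
  have ev3 := small_ev ((P 1).2 - (P 0).2) ((P N).1 - (P 0).1)
  have ev : ∀ᶠ e in 𝓝[>] (0 : ℝ), 0 < e := eventually_mem_nhdsWithin
  filter_upwards [ev, ev1.filter_mono nhdsWithin_le_nhds, ev2.filter_mono nhdsWithin_le_nhds,
    ev3.filter_mono nhdsWithin_le_nhds] with e he h1 h2 h3
  have hw := h.W_sub (z := leftPt (P 0) (P 1) e) (fun i hi hi' => by
    rcases Nat.lt_or_ge i 2 with h4 | h4
    · have : i = 1 := by omega
      subst this
      exact second_half (h.axis 0) (h.axis 1) (h.ne 0) (h.ne 1) (h.adj 0) e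
    · exact h1 i (Finset.mem_Ico.2 ⟨h4, hi'⟩))
  rw [hw]
  have hc := corr (p := P 0) (q := P 1) (r := P N)
    (by have := h.axisp 0; rwa [zero_add] at this) (h.axis 0)
    (by have := h.nep 0; rwa [zero_add] at this) (h.ne 0)
    (by have := h.adjp 0; rwa [zero_add] at this) he
    (h2.imp_right fun h => by linarith) (h3.imp_right fun h => by linarith)
  have ht : T N P 0 = tau (P N) (P 0) (P 1) := by unfold T; rw [zero_add]
  rw [ht]
  linarith

/-- If the left side of the first side is visible from infinity, the rotation is negative. -/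
theorem Lam_outer (h : RPoly N P)
    (ho : ∀ᶠ e in 𝓝[>] (0 : ℝ), ∃ S : Set Pt, IsPreconnected S ∧ ¬ Bornology.IsBounded S ∧
      Disjoint S (sides P) ∧ leftPt (P 0) (P 1) e ∈ S) : Lam N P 0 = -4 := by
  obtain ⟨e, h1, S, hS, hb, hd, hm⟩ := (h.W_left.and ho).exists
  rw [h.W_unbounded hS hd hb hm] at h1
  linarith

end RPoly

end Unbent
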