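import Pool.Agent.Unbent.Left
import Pool.Agent.Unbent.Defs

/-!
Closed polygons given by lists of corners.
-/

namespace Unbent

variable {α : Type}

theorem segs_append (X : List α) (y : α) (R : List α) :
    segs (X ++ y :: R) = segs (X ++ [y]) ++ segs (y :: R) := by
  induction X with
  | nil => cases R <;> rfl
  | cons x X ih =>
    cases X with
    | nil => rfl
    | cons x' X =>
      simp only [List.cons_append, segs] at ih ⊢
      rw [ih]

theorem triples_append (X : List α) (y z : α) (R : List α) :
    triples (X ++ y :: z :: R) = triples (X ++ [y, z]) ++ triples (y :: z :: R) := by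
  induction X with
  | nil => cases R <;> rfl
  | cons x X ih =>
    cases X with
    | nil => cases R <;> rfl
    | cons x' X =>
      cases X with
      | nil => rfl
      | cons x'' X =>
        simp only [List.cons_append, triples] at ih ⊢
        rw [ih]

theorem segs_eq (d : α) : ∀ M : List α,
    segs M = (List.range (M.length - 1)).map fun i => (M.getD i d, M.getD (i + 1) d)
  | [] => rfl
  | [x] => rfl
  | x :: y :: l => by
    have ih := segs_eq d (y :: l)
    rw [segs, ih]
    simp only [List.length_cons, Nat.add_sub_cancel]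
    rw [List.range_succ_eq_map (n := l.length)]
    simp only [List.map_cons, List.map_map, List.getD_cons_zero, List.getD_cons_succ]
    congr 1

theorem triples_eq (d : α) : ∀ M : List α,
    triples M = (List.range (M.length - 2)).map fun i =>
      (M.getD i d, M.getD (i + 1) d, M.getD (i + 2) d)
  | [] => rfl
  | [x] => rfl
  | [x, y] => rfl
  | x :: y :: z :: l => by
    have ih := triples_eq d (y :: z :: l)
    rw [triples, ih]
    simp only [List.length_cons]
    rw [show l.length + 1 + 1 - 2 = l.length by omega,
      show l.length + 1 + 1 + 1 - 2 = l.length + 1 by omega,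
      List.range_succ_eq_map (n := l.length)]
    simp only [List.map_cons, List.map_map, List.getD_cons_zero, List.getD_cons_succ]
    congr 1

/-- The sum of the turns along a list of points. -/
noncomputable def tsum (L : List Pt) : ℤ := ((triples L).map fun e => tau e.1 e.2.1 e.2.2).sum

theorem tsum_append (X : List Pt) (y z : Pt) (R : List Pt) :
    tsum (X ++ y :: z :: R) = tsum (X ++ [y, z]) + tsum (y :: z :: R) := by
  unfold tsum; rw [triples_append, List.map_append, List.sum_append]

theorem tsum_cons (x y z : Pt) (R : List Pt) :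
    tsum (x :: y :: z :: R) = tau x y z + tsum (y :: z :: R) := by
  simp [tsum, triples]

/-- The periodic sequence of a list. -/
def cyc (L : List Pt) (i : ℕ) : Pt := L.getD (i % L.length) 0

theorem cyc_of_lt {L : List Pt} {i : ℕ} (h : i < L.length) : cyc L i = L.getD i 0 := by
  unfold cyc; rw [Nat.mod_eq_of_lt h]

theorem cyc_per (L : List Pt) (i : ℕ) : cyc L (i + L.length) = cyc L i := by
  unfold cyc; rw [Nat.add_mod_right]

theorem getD_close (x y : Pt) (L : List Pt) {i : ℕ} (h : i < L.length + 4) :
    ((x :: y :: L) ++ [x, y]).getD i 0 = cyc (x :: y :: L) i := by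
  have hl : (x :: y :: L).length = L.length + 2 := rfl
  rcases Nat.lt_or_ge i (L.length + 2) with h1 | h1
  · rw [cyc_of_lt (by rw [hl]; exact h1), List.getD_append _ _ _ _ (by rw [hl]; exact h1)]
  · rw [List.getD_append_right _ _ _ _ (by rw [hl]; exact h1), hl]
    obtain ⟨j, rfl⟩ : ∃ j, i = j + (L.length + 2) := ⟨i - (L.length + 2), by omega⟩
    rw [Nat.add_sub_cancel]
    have hp := cyc_per (x :: y :: L) j
    rw [hl] at hp
    rw [hp]
    have hj : j < 2 := by omega
    rw [cyc_of_lt (by rw [hl]; omega)]
    interval_cases j <;> rfl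

theorem segs_close (x y : Pt) (L : List Pt) {i : ℕ} (h : i < L.length + 2) :
    (cyc (x :: y :: L) i, cyc (x :: y :: L) (i + 1)) ∈ segs ((x :: y :: L) ++ [x]) := by
  rw [segs_eq 0, List.mem_map]
  refine ⟨i, ?_, ?_⟩
  · rw [List.mem_range, List.length_append, List.length_cons, List.length_cons,
      List.length_singleton]
    omega
  · have e : ∀ j, j < L.length + 3 →
        ((x :: y :: L) ++ [x]).getD j 0 = cyc (x :: y :: L) j := by
      intro j hj
      rw [← getD_close x y L (by omega)]
      have e1 : (x :: y :: L) ++ [x, y] = ((x :: y :: L) ++ [x]) ++ [y] := by simp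
      rw [e1]
      symm
      refine List.getD_append _ _ _ _ ?_
      rw [List.length_append, List.length_cons, List.length_cons, List.length_singleton]
      omega
    rw [e i (by omega), e (i + 1) (by omega)]

theorem tsum_close (x y : Pt) (L : List Pt) :
    tsum ((x :: y :: L) ++ [x, y]) = ∑ i ∈ Finset.range (L.length + 2),
      tau (cyc (x :: y :: L) i) (cyc (x :: y :: L) (i + 1)) (cyc (x :: y :: L) (i + 2)) := by
  unfold tsum
  rw [triples_eq 0, List.map_map]
  have hl : ((x :: y :: L) ++ [x, y]).length - 2 = L.length + 2 := by simp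
  rw [hl]
  rw [← List.sum_toFinset _ List.nodup_range, List.toFinset_range]
  refine Finset.sum_congr rfl fun i hi => ?_
  rw [Finset.mem_range] at hi
  simp only [Function.comp]
  rw [getD_close x y L (by omega), getD_close x y L (by omega), getD_close x y L (by omega)]

theorem cyc_inj {L : List Pt} (hnd : L.Nodup) {a b : ℕ} (h1 : a ≤ b) (h2 : b < a + L.length)
    (h : cyc L a = cyc L b) : a = b := by
  have hpos : 0 < L.length := by omega
  unfold cyc at h
  rw [List.getD_eq_getElem _ _ (Nat.mod_lt _ hpos), List.getD_eq_getElem _ _ (Nat.mod_lt _ hpos)]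
    at h
  have h' : a % L.length = b % L.length := by
    have := (List.nodup_iff_injective_get.1 hnd)
      (a₁ := ⟨a % L.length, Nat.mod_lt _ hpos⟩) (a₂ := ⟨b % L.length, Nat.mod_lt _ hpos⟩) h
    simpa using this
  have hd : L.length ∣ b - a := (Nat.modEq_iff_dvd' h1).1 h'
  have := Nat.eq_zero_of_dvd_of_lt hd (by omega)
  omega

/-- A simple closed rectilinear polygon from a list of corners. -/
theorem RPoly.of_list (x y : Pt) (L : List Pt) (h1 : 1 ≤ L.length)
    (hnd : (x :: y :: L).Nodup) (S : Pt → Pt → Prop)
    (hS : ∀ e ∈ segs ((x :: y :: L) ++ [x]), S e.1 e.2) (hax : ∀ p q, S p q → Axis p q)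
    (hpl : ∀ p q r s, S p q → S r s → s(p, q) ≠ s(r, s) →
      box p q ∩ box r s ⊆ {p, q} ∩ {r, s}) :
    RPoly (L.length + 1) (cyc (x :: y :: L)) := by
  have hl : (x :: y :: L).length = L.length + 2 := rfl
  have per : ∀ i, cyc (x :: y :: L) (i + (L.length + 1 + 1)) = cyc (x :: y :: L) i :=
    fun i => cyc_per _ i
  have inj : ∀ a b, a ≤ b → b < a + (L.length + 2) →
      cyc (x :: y :: L) a = cyc (x :: y :: L) b → a = b := fun a b h1 h2 h3 =>
    cyc_inj hnd h1 h2 h3
  have hs : ∀ i, S (cyc (x :: y :: L) i) (cyc (x :: y :: L) (i + 1)) := by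
    intro i
    have h0 := hS _ (segs_close x y L (Nat.mod_lt i (show 0 < L.length + 2 by omega)))
    have e : ∀ j, cyc (x :: y :: L) (j % (L.length + 2)) = cyc (x :: y :: L) j := by
      intro j; unfold cyc; rw [hl, Nat.mod_mod]
    have e2 : cyc (x :: y :: L) (i % (L.length + 2) + 1) = cyc (x :: y :: L) (i + 1) := by
      rw [← e (i % (L.length + 2) + 1), ← e (i + 1), Nat.mod_add_mod]
    simp only [e, e2] at h0
    exact h0
  refine ⟨by omega, per, fun i => hax _ _ (hs i), fun i he => ?_, fun i => ?_, fun i j hij hj => ?_⟩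
  · have := inj i (i + 1) (by omega) (by omega) he; omega
  · have hne : s(cyc (x :: y :: L) i, cyc (x :: y :: L) (i + 1)) ≠
        s(cyc (x :: y :: L) (i + 1), cyc (x :: y :: L) (i + 2)) := by
      intro he
      rw [Sym2.eq_iff] at he
      rcases he with ⟨h, _⟩ | ⟨h, _⟩
      · have := inj _ _ (by omega) (by omega) h; omega
      · have := inj _ _ (by omega) (by omega) h; omega
    intro z hz
    obtain ⟨hz1, hz2⟩ := hpl _ _ _ _ (hs i) (hs (i + 1)) hne hz
    rcases hz1 with hz1 | hz1
    · exfalso
      rcases hz2 with hz2 | hz2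
      · have := inj _ _ (by omega) (by omega) (hz1.symm.trans hz2); omega
      · have := inj i (i + 1 + 1) (by omega) (by omega) (hz1.symm.trans hz2); omega
    · exact hz1
  · have hne : s(cyc (x :: y :: L) i, cyc (x :: y :: L) (i + 1)) ≠
        s(cyc (x :: y :: L) j, cyc (x :: y :: L) (j + 1)) := by
      intro he
      rw [Sym2.eq_iff] at he
      rcases he with ⟨h, _⟩ | ⟨h, _⟩
      · have := inj _ _ (by omega) (by omega) h; omega
      · have := inj _ _ (by omega) (by omega) h; omega
    rw [Set.disjoint_left]
    intro z hz hz'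
    obtain ⟨hz1, hz2⟩ := hpl _ _ _ _ (hs i) (hs j) hne ⟨hz, hz'⟩
    rcases hz1 with hz1 | hz1 <;> rcases hz2 with hz2 | hz2
    · have := inj i j (by omega) (by omega) (hz1.symm.trans hz2); omega
    · have := inj i (j + 1) (by omega) (by omega) (hz1.symm.trans hz2); omega
    · have := inj (i + 1) j (by omega) (by omega) (hz1.symm.trans hz2); omega
    · have := inj (i + 1) (j + 1) (by omega) (by omega) (hz1.symm.trans hz2); omega

/-- The total rotation of the polygon, from the list. -/
theorem RPoly.total_list {x y : Pt} {L : List Pt} (h : RPoly (L.length + 1) (cyc (x :: y :: L))) :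
    tsum ((x :: y :: L) ++ [x, y]) = 2 * RPoly.Lam (L.length + 1) (cyc (x :: y :: L)) 0 := by
  rw [← h.total, tsum_close]
  have e : ∀ i, tau (cyc (x :: y :: L) i) (cyc (x :: y :: L) (i + 1)) (cyc (x :: y :: L) (i + 2)) =
      RPoly.T (L.length + 1) (cyc (x :: y :: L)) (i + 1) := fun i => (h.T_succ i).symm
  rw [Finset.sum_congr rfl fun i _ => e i]
  rw [Finset.sum_range_succ, Finset.sum_range_succ' (fun i => RPoly.T (L.length + 1) _ i)]
  congr 1
  unfold RPoly.T
  have p := h.per
  rw [show L.length + 1 + 1 + (L.length + 1) = 0 + (L.length + 1) + (L.length + 1 + 1) by ring, p,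
    show L.length + 1 + 1 = 0 + (L.length + 1 + 1) by ring, p,
    show 0 + (L.length + 1 + 1) + 1 = 0 + 1 + (L.length + 1 + 1) by ring, p]

end Unbent
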