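import Pool.Agent.Unbent.Tree
import Pool.Agent.Unbent.Draws

/-!
Unbent collections of the graph `G0`: the minimum size is two, the minimum total bend number
is 33, and collections of size two have at least 36 bends.
-/

namespace Unbent

open NDraw

theorem edges0_adj : ∀ i ∈ Finset.range 19,
    (edges0.getD i (0, 0)).2 ∈ rot0 (edges0.getD i (0, 0)).1 := by decide

theorem edges0_lt : ∀ i ∈ Finset.range 19,
    (edges0.getD i (0, 0)).1 < (edges0.getD i (0, 0)).2 := by decide

theorem edges0_inj : ∀ i ∈ Finset.range 19, ∀ j ∈ Finset.range 19,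
    edges0.getD i (0, 0) = edges0.getD j (0, 0) → i = j := by decide +kernel

theorem edge_index : ∀ u v : Fin 11, v ∈ rot0 u → ∃ i ∈ Finset.range 19,
    edges0.getD i (0, 0) = (u, v) ∨ edges0.getD i (0, 0) = (v, u) := by decide +kernel

namespace OrthoDrawing

variable (D : OrthoDrawing G0)

theorem tvec_abs {i : ℕ} (hi : i ∈ Finset.range 19) : |D.tvec i| ≤
    2 * ((D.bends (edges0.getD i (0, 0)).1 (edges0.getD i (0, 0)).2).length : ℤ) :=
  D.tt_abs (adj0.2 (edges0_adj i hi))

theorem tvec_zero {i : ℕ} (hi : i ∈ Finset.range 19)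
    (h : D.bends (edges0.getD i (0, 0)).1 (edges0.getD i (0, 0)).2 = []) : D.tvec i = 0 := by
  have := D.tvec_abs hi
  rw [h] at this
  simpa using this

theorem sum_le : ∑ i ∈ Finset.range 19, |D.tvec i| ≤ 2 * (D.bendCount : ℤ) := by
  have h1 : ∑ i ∈ Finset.range 19,
      (D.bends (edges0.getD i (0, 0)).1 (edges0.getD i (0, 0)).2).length ≤ D.bendCount := by
    unfold bendCount
    rw [← Finset.sum_image (s := Finset.range 19) (g := fun i => edges0.getD i (0, 0))
      (f := fun e : Fin 11 × Fin 11 => (D.bends e.1 e.2).length)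
      (fun i hi j hj h => edges0_inj i hi j hj h)]
    refine Finset.sum_le_sum_of_subset fun e he => ?_
    rw [Finset.mem_image] at he
    obtain ⟨i, hi, rfl⟩ := he
    rw [Finset.mem_filter]
    exact ⟨Finset.mem_univ _, edges0_lt i hi⟩
  have h2 : ∑ i ∈ Finset.range 19, |D.tvec i| ≤ ∑ i ∈ Finset.range 19,
      2 * ((D.bends (edges0.getD i (0, 0)).1 (edges0.getD i (0, 0)).2).length : ℤ) :=
    Finset.sum_le_sum fun i hi => D.tvec_abs hi
  rw [← Finset.mul_sum] at h2
  have h3 : ((∑ i ∈ Finset.range 19,
      (D.bends (edges0.getD i (0, 0)).1 (edges0.getD i (0, 0)).2).length : ℕ) : ℤ) ≤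
        (D.bendCount : ℤ) := by exact_mod_cast h1
  push_cast at h3
  linarith

theorem single (S : List ℕ) (p k : ℕ) (hp : potOK S p = true) (hk : k + loss p ≤ gain p)
    (hS : ∀ i ∈ S, i ∈ Finset.range 19 ∧
      D.bends (edges0.getD i (0, 0)).1 (edges0.getD i (0, 0)).2 = []) : k ≤ D.bendCount := by
  have h1 := bound_le D.isFlow S p hp (fun i hi => D.tvec_zero (hS i hi).1 (hS i hi).2)
  have h2 := D.sum_le
  have h3 : (k : ℤ) + loss p ≤ gain p := by exact_mod_cast hk
  have : (k : ℤ) ≤ D.bendCount := by linarith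
  exact_mod_cast this

open Classical in
/-- A drawing has at least nine bends, and at least two more for each of three special edges
that it draws without bends. -/
theorem bend_lower : 9 + 2 * ((if D.bends 2 6 = [] then 1 else 0) +
    (if D.bends 2 7 = [] then 1 else 0) + (if D.bends 5 7 = [] then 1 else 0)) ≤ D.bendCount := by
  by_cases h8 : D.bends 2 6 = [] <;> by_cases h9 : D.bends 2 7 = [] <;>
    by_cases h14 : D.bends 5 7 = []
  · rw [if_pos h8, if_pos h9, if_pos h14]
    refine D.single [8, 9, 14] 27961161305479495939 _ (by decide +kernel) (by decide +kernel) ?_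
    intro i hi
    fin_cases hi
    exacts [⟨by decide, h8⟩, ⟨by decide, h9⟩, ⟨by decide, h14⟩]
  · rw [if_pos h8, if_pos h9, if_neg h14]
    refine D.single [8, 9] 9369176143787245827 _ (by decide +kernel) (by decide +kernel) ?_
    intro i hi
    fin_cases hi
    exacts [⟨by decide, h8⟩, ⟨by decide, h9⟩]
  · rw [if_pos h8, if_neg h9, if_pos h14]
    refine D.single [8, 14] 27814794317585760515 _ (by decide +kernel) (by decide +kernel) ?_
    intro i hi
    fin_cases hi
    exacts [⟨by decide, h8⟩, ⟨by decide, h14⟩]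
  · rw [if_pos h8, if_neg h9, if_neg h14]
    refine D.single [8] 9368050243876208899 _ (by decide +kernel) (by decide +kernel) ?_
    intro i hi
    fin_cases hi
    exacts [⟨by decide, h8⟩]
  · rw [if_neg h8, if_pos h9, if_pos h14]
    refine D.single [9, 14] 27960035405568426243 _ (by decide +kernel) (by decide +kernel) ?_
    intro i hi
    fin_cases hi
    exacts [⟨by decide, h9⟩, ⟨by decide, h14⟩]
  · rw [if_neg h8, if_pos h9, if_neg h14]
    refine D.single [9] 9369176143783018755 _ (by decide +kernel) (by decide +kernel) ?_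
    intro i hi
    fin_cases hi
    exacts [⟨by decide, h9⟩]
  · rw [if_neg h8, if_neg h9, if_pos h14]
    refine D.single [14] 27814794317585727747 _ (by decide +kernel) (by decide +kernel) ?_
    intro i hi
    fin_cases hi
    exacts [⟨by decide, h14⟩]
  · rw [if_neg h8, if_neg h9, if_neg h14]
    refine D.single [] 9368050243876176131 _ (by decide +kernel) (by decide +kernel) ?_
    intro i hi
    simp at hi

theorem nine_le : 9 ≤ D.bendCount := le_trans (Nat.le_add_right _ _) D.bend_lower

end OrthoDrawing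

theorem two_bound (D1 D2 : OrthoDrawing G0)
    (h : ∀ u v, G0.graph.Adj u v → D1.bends u v = [] ∨ D2.bends u v = []) :
    36 ≤ D1.bendCount + D2.bendCount := by
  have h0 : ∀ e < 19, D1.tvec e = 0 ∨ D2.tvec e = 0 := by
    intro e he
    have hm := Finset.mem_range.2 he
    exact (h _ _ (adj0.2 (edges0_adj e hm))).imp (D1.tvec_zero hm) (D2.tvec_zero hm)
  have h1 := Cert.sound D1.isFlow D2.isFlow h0 tree [] [] tree_check
    (by simp) (by simp)
  have h2 := D1.sum_le
  have h3 := D2.sum_le
  have : (36 : ℤ) ≤ D1.bendCount + D2.bendCount := by linarith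
  exact_mod_cast this

theorem card_ge_two {C : Finset (OrthoDrawing G0)} (h : IsUnbent C) : 2 ≤ C.card := by
  by_contra hc
  have hc' : C.card = 0 ∨ C.card = 1 := by omega
  rcases hc' with hc' | hc'
  · rw [Finset.card_eq_zero] at hc'
    subst hc'
    obtain ⟨D, hD, _⟩ := h 0 1 (adj0.2 (by decide))
    simp at hD
  · rw [Finset.card_eq_one] at hc'
    obtain ⟨D, rfl⟩ := hc'
    have hz : D.bendCount = 0 := by
      unfold OrthoDrawing.bendCount
      refine Finset.sum_eq_zero fun e _ => ?_
      by_cases ha : G0.graph.Adj e.1 e.2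
      · obtain ⟨D', hD', h2⟩ := h _ _ ha
        rw [Finset.mem_singleton] at hD'
        rw [← hD', h2]; rfl
      · rw [D.isOrthogonal.bends_nil _ _ ha]; rfl
    have := D.nine_le
    omega

theorem two_total {C : Finset (OrthoDrawing G0)} (h : IsUnbent C) (hc : C.card = 2) :
    36 ≤ totalBends C := by
  classical
  rw [Finset.card_eq_two] at hc
  obtain ⟨D1, D2, hne, rfl⟩ := hc
  unfold totalBends
  rw [Finset.sum_pair hne]
  refine two_bound D1 D2 fun u v ha => ?_
  obtain ⟨D, hD, h2⟩ := h u v ha
  rw [Finset.mem_insert, Finset.mem_singleton] at hD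
  rcases hD with rfl | rfl
  · left; exact h2
  · right; exact h2

theorem total_ge {C : Finset (OrthoDrawing G0)} (h : IsUnbent C) : 33 ≤ totalBends C := by
  classical
  have h2 := card_ge_two h
  rcases Nat.lt_or_ge C.card 3 with h3 | h3
  · have := two_total h (by omega); omega
  have hsum : ∑ D ∈ C, (9 + 2 * ((if D.bends 2 6 = [] then 1 else 0) +
      (if D.bends 2 7 = [] then 1 else 0) + (if D.bends 5 7 = [] then 1 else 0))) ≤
      totalBends C := by
    unfold totalBends
    refine Finset.sum_le_sum fun D _ => ?_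
    convert D.bend_lower
  rw [Finset.sum_add_distrib, Finset.sum_const, ← Finset.mul_sum, Finset.sum_add_distrib,
    Finset.sum_add_distrib, smul_eq_mul] at hsum
  have one : ∀ u v : Fin 11, v ∈ rot0 u →
      1 ≤ ∑ D ∈ C, (if D.bends u v = [] then 1 else 0 : ℕ) := by
    intro u v huv
    obtain ⟨D, hD, hb⟩ := h u v (adj0.2 huv)
    calc 1 = (if D.bends u v = [] then 1 else 0 : ℕ) := by rw [if_pos hb]
      _ ≤ _ := Finset.single_le_sum (f := fun D : OrthoDrawing G0 =>
        (if D.bends u v = [] then 1 else 0 : ℕ)) (fun _ _ => Nat.zero_le _) hD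
  have o1 := one 2 6 (by decide)
  have o2 := one 2 7 (by decide)
  have o3 := one 5 7 (by decide)
  omega

/-- The three drawings with eleven bends each. -/
theorem three_exists : ∃ C : Finset (OrthoDrawing G0), IsUnbent C ∧ totalBends C ≤ 33 := by
  classical
  refine ⟨{drawA0.toOrtho goodA0, drawA1.toOrtho goodA1, drawA2.toOrtho goodA2}, ?_, ?_⟩
  · intro u v _
    rcases coverA u v with h | h | h
    · exact ⟨_, by simp, (bends_eq_nil _ goodA0 u v).2 h⟩
    · exact ⟨_, by simp, (bends_eq_nil _ goodA1 u v).2 h⟩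
    · exact ⟨_, by simp, (bends_eq_nil _ goodA2 u v).2 h⟩
  · unfold totalBends
    have hle : ∀ (a b c : OrthoDrawing G0), ∑ D ∈ ({a, b, c} : Finset (OrthoDrawing G0)),
        D.bendCount ≤ a.bendCount + (b.bendCount + c.bendCount) := by
      intro a b c
      have hi : ∀ (x : OrthoDrawing G0) (s : Finset (OrthoDrawing G0)),
          ∑ D ∈ insert x s, D.bendCount ≤ x.bendCount + ∑ D ∈ s, D.bendCount := by
        intro x s
        by_cases hx : x ∈ s
        · rw [Finset.insert_eq_of_mem hx]; omega
        · rw [Finset.sum_insert hx]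
      refine (hi a {b, c}).trans (Nat.add_le_add_left ((hi b {c}).trans ?_) _)
      rw [Finset.sum_singleton]
    refine (hle _ _ _).trans ?_
    rw [bendCount_eq, bendCount_eq, bendCount_eq, countA0, countA1, countA2]

/-- The two drawings with fifteen and twenty-one bends. -/
theorem two_exists : ∃ C : Finset (OrthoDrawing G0), IsUnbent C ∧ C.card = 2 ∧
    totalBends C = 36 := by
  classical
  have hne : drawB0.toOrtho goodB0 ≠ drawB1.toOrtho goodB1 := by
    intro h
    have : (drawB0.toOrtho goodB0).bendCount = (drawB1.toOrtho goodB1).bendCount := by rw [h]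
    rw [bendCount_eq, bendCount_eq, countB0, countB1] at this
    omega
  refine ⟨{drawB0.toOrtho goodB0, drawB1.toOrtho goodB1}, ?_, Finset.card_pair hne, ?_⟩
  · intro u v _
    rcases coverB u v with h | h
    · exact ⟨_, by simp, (bends_eq_nil _ goodB0 u v).2 h⟩
    · exact ⟨_, by simp, (bends_eq_nil _ goodB1 u v).2 h⟩
  · unfold totalBends
    rw [Finset.sum_pair hne, bendCount_eq, bendCount_eq, countB0, countB1]

theorem un_eq : un G0 = 2 := by
  unfold un
  refine le_antisymm (Nat.sInf_le ?_) (le_csInf ?_ ?_)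
  · obtain ⟨C, h1, h2, _⟩ := two_exists; exact ⟨C, h1, h2⟩
  · obtain ⟨C, h1, h2, _⟩ := two_exists; exact ⟨2, C, h1, h2⟩
  · rintro k ⟨C, h1, rfl⟩; exact card_ge_two h1

theorem tbn_eq : tbn G0 = 33 := by
  unfold tbn
  obtain ⟨C, h1, h2⟩ := three_exists
  apply le_antisymm
  · have hm : totalBends C ∈ {b | ∃ C : Finset (OrthoDrawing G0), IsUnbent C ∧
        totalBends C = b} := ⟨C, h1, rfl⟩
    exact (Nat.sInf_le hm).trans h2
  · refine le_csInf ?_ ?_
    · exact ⟨_, C, h1, rfl⟩
    · rintro k ⟨C, h1, rfl⟩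
      exact total_ge h1

end Unbent
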