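import Mathlib

/-!
Octant bookkeeping for rectilinear closed curves: `oct` is the index (0..7) of the
half-axis or open quadrant containing a nonzero vector, and `dl v w` is the signed
number of steps from `v` to `w`, valid whenever both lie in a common open half plane
bounded by a coordinate axis.
-/

namespace Unbent

open SignType

/-- The plane. -/
abbrev Pt := ℝ × ℝ

/-- Octant index of a sign pattern. -/
def octS : SignType → SignType → ℤ
  | .pos, .zero => 0
  | .pos, .pos => 1
  | .zero, .pos => 2
  | .neg, .pos => 3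
  | .neg, .zero => 4
  | .neg, .neg => 5
  | .zero, .neg => 6
  | .pos, .neg => 7
  | .zero, .zero => 0

/-- Signed number of octant steps between two sign patterns. -/
def dS (a b c d : SignType) : ℤ := Int.bmod (octS c d - octS a b) 8

/-- The half plane numbered `k` (0: x > 0, 1: y > 0, 2: x < 0, 3: y < 0), on signs. -/
def InS : Fin 4 → SignType → SignType → Prop
  | 0, a, _ => a = .pos
  | 1, _, b => b = .pos
  | 2, a, _ => a = .neg
  | 3, _, b => b = .neg

instance : ∀ k a b, Decidable (InS k a b)
  | 0, a, _ => inferInstanceAs (Decidable (a = .pos))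
  | 1, _, b => inferInstanceAs (Decidable (b = .pos))
  | 2, a, _ => inferInstanceAs (Decidable (a = .neg))
  | 3, _, b => inferInstanceAs (Decidable (b = .neg))

/-- Offset of the octant index from the centre of half plane `k`. -/
def liftS : Fin 4 → SignType → SignType → ℤ
  | 0, _, b => (b : ℤ)
  | 1, a, _ => -(a : ℤ)
  | 2, _, b => -(b : ℤ)
  | 3, a, _ => (a : ℤ)

theorem dS_eq : ∀ k a b c d, InS k a b → InS k c d →
    dS a b c d = liftS k c d - liftS k a b := by
  decide

theorem dS_neg : ∀ a b c d, (a ≠ 0 ∨ b ≠ 0) → (c ≠ 0 ∨ d ≠ 0) → octS c d - octS a b ≠ 4 →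
    octS c d - octS a b ≠ -4 →
    dS (-a) (-b) (-c) (-d) = dS a b c d := by
  decide

/-- Signed number of octant steps from `v` to `w`. -/
noncomputable def dl (v w : Pt) : ℤ := dS (sign v.1) (sign v.2) (sign w.1) (sign w.2)

/-- Membership in half plane `k`. -/
def InH (k : Fin 4) (v : Pt) : Prop := InS k (sign v.1) (sign v.2)

/-- Lift on half plane `k`. -/
noncomputable def lft (k : Fin 4) (v : Pt) : ℤ := liftS k (sign v.1) (sign v.2)

theorem dl_eq {k : Fin 4} {v w : Pt} (hv : InH k v) (hw : InH k w) :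
    dl v w = lft k w - lft k v := dS_eq _ _ _ _ _ hv hw

theorem InH_zero {v : Pt} : InH 0 v ↔ 0 < v.1 := by
  unfold InH InS; exact sign_eq_one_iff
theorem InH_one {v : Pt} : InH 1 v ↔ 0 < v.2 := by
  unfold InH InS; exact sign_eq_one_iff
theorem InH_two {v : Pt} : InH 2 v ↔ v.1 < 0 := by
  unfold InH InS; exact sign_eq_neg_one_iff
theorem InH_three {v : Pt} : InH 3 v ↔ v.2 < 0 := by
  unfold InH InS; exact sign_eq_neg_one_iff

/-- Axis-parallel (possibly degenerate) pair of points. -/
def Axis (p q : Pt) : Prop := p.1 = q.1 ∨ p.2 = q.2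

/-- The closed coordinate box spanned by two points. -/
def box (p q : Pt) : Set Pt :=
  {z | min p.1 q.1 ≤ z.1 ∧ z.1 ≤ max p.1 q.1 ∧ min p.2 q.2 ≤ z.2 ∧ z.2 ≤ max p.2 q.2}

theorem box_comm (p q : Pt) : box p q = box q p := by
  ext z; simp only [box, Set.mem_ofPred_eq, min_comm, max_comm]

theorem left_mem_box (p q : Pt) : p ∈ box p q := by
  refine ⟨min_le_left _ _, le_max_left _ _, min_le_left _ _, le_max_left _ _⟩

theorem right_mem_box (p q : Pt) : q ∈ box p q := by
  refine ⟨min_le_right _ _, le_max_right _ _, min_le_right _ _, le_max_right _ _⟩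

/-- Two disjoint boxes are separated by an axis-parallel line, so that all differences of
corners lie in one half plane. -/
theorem sep {a a' b b' : Pt} (h : Disjoint (box a a') (box b b')) :
    ∃ k, InH k (b - a) ∧ InH k (b - a') ∧ InH k (b' - a) ∧ InH k (b' - a') := by
  by_cases hx1 : max a.1 a'.1 < min b.1 b'.1
  · refine ⟨0, ?_⟩
    simp only [InH_zero, Prod.fst_sub, sub_pos]
    simp only [max_lt_iff, lt_min_iff] at hx1
    tauto
  by_cases hx2 : max b.1 b'.1 < min a.1 a'.1
  · refine ⟨2, ?_⟩
    simp only [InH_two, Prod.fst_sub, sub_neg]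
    simp only [max_lt_iff, lt_min_iff] at hx2
    tauto
  by_cases hy1 : max a.2 a'.2 < min b.2 b'.2
  · refine ⟨1, ?_⟩
    simp only [InH_one, Prod.snd_sub, sub_pos]
    simp only [max_lt_iff, lt_min_iff] at hy1
    tauto
  by_cases hy2 : max b.2 b'.2 < min a.2 a'.2
  · refine ⟨3, ?_⟩
    simp only [InH_three, Prod.snd_sub, sub_neg]
    simp only [max_lt_iff, lt_min_iff] at hy2
    tauto
  exfalso
  rw [Set.disjoint_left] at h
  push Not at hx1 hx2 hy1 hy2
  refine @h (max (min a.1 a'.1) (min b.1 b'.1), max (min a.2 a'.2) (min b.2 b'.2)) ?_ ?_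
  · refine ⟨le_max_left _ _, max_le (min_le_max) hx1, le_max_left _ _, max_le min_le_max hy1⟩
  · refine ⟨le_max_right _ _, max_le hx2 min_le_max, le_max_right _ _, max_le hy2 min_le_max⟩

/-- The square relation. -/
theorem square {a a' b b' : Pt} (h : Disjoint (box a a') (box b b')) :
    dl (b - a) (b' - a) + dl (b' - a) (b' - a') = dl (b - a) (b - a') + dl (b - a') (b' - a') := by
  obtain ⟨k, h1, h2, h3, h4⟩ := sep h
  rw [dl_eq h1 h3, dl_eq h3 h4, dl_eq h1 h2, dl_eq h2 h4]
  ring

theorem sign_neg' (x : ℝ) : sign (-x) = -sign x := by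
  rcases lt_trichotomy x 0 with h | h | h
  · rw [sign_neg h, sign_pos (by linarith)]; rfl
  · subst h; simp
  · rw [sign_pos h, sign_neg (by linarith)]

theorem dl_neg {k : Fin 4} {v w : Pt} (hv : InH k v) (hw : InH k w) :
    dl (-v) (-w) = dl v w := by
  unfold InH at hv hw
  unfold dl
  simp only [Prod.fst_neg, Prod.snd_neg, sign_neg']
  revert hv hw
  generalize sign v.1 = a
  generalize sign v.2 = b
  generalize sign w.1 = c
  generalize sign w.2 = d
  revert a b c d k
  decide

end Unbent
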