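import Pool.Agent.Unbent.Wind

/-!
The winding number (in octants) of a simple closed rectilinear polygon: it is locally
constant off the polygon, vanishes on unbounded connected sets, and next to the left side
of a side it equals the rotation plus four.
-/

namespace Unbent

open SignType Filter Topology

/-- The union of the sides. -/
def sides (P : ℕ → Pt) : Set Pt := {z | ∃ i, z ∈ box (P i) (P (i + 1))}

/-- The winding number around `z`, in octants. -/
noncomputable def W (N : ℕ) (P : ℕ → Pt) (z : Pt) : ℤ :=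
  ∑ i ∈ Finset.range (N + 1), dl (P i - z) (P (i + 1) - z)

theorem box_self (z : Pt) : box z z = {z} := by
  ext w
  simp only [box, min_self, max_self, Set.mem_ofPred_eq, Set.mem_singleton_iff]
  constructor
  · rintro ⟨a, b, c, d⟩; exact Prod.ext (le_antisymm b a) (le_antisymm d c)
  · rintro rfl; exact ⟨le_rfl, le_rfl, le_rfl, le_rfl⟩

theorem isClosed_box (p q : Pt) : IsClosed (box p q) := by
  have : box p q = Set.Icc (min p.1 q.1, min p.2 q.2) (max p.1 q.1, max p.2 q.2) := by
    ext z
    simp only [box, Set.mem_ofPred_eq, Set.mem_Icc, Prod.le_def]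
    tauto
  rw [this]; exact isClosed_Icc

namespace RPoly

variable {N : ℕ} {P : ℕ → Pt}

theorem sum_per (h : RPoly N P) (f : Pt → ℤ) :
    ∑ i ∈ Finset.range (N + 1), f (P (i + 1)) = ∑ i ∈ Finset.range (N + 1), f (P i) := by
  rw [Finset.sum_range_succ, Finset.sum_range_succ' (fun i => f (P i))]
  have := h.per 0
  rw [zero_add] at this
  rw [this]

theorem W_eq (h : RPoly N P) {z z' : Pt} (hd : ∀ i, Disjoint (box z z') (box (P i) (P (i + 1)))) :
    W N P z = W N P z' := by
  have key : ∀ i, dl (P i - z) (P (i + 1) - z) + dl (P (i + 1) - z) (P (i + 1) - z') =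
      dl (P i - z) (P i - z') + dl (P i - z') (P (i + 1) - z') := fun i => square (hd i)
  have s := Finset.sum_congr (rfl : Finset.range (N + 1) = Finset.range (N + 1))
    (fun i _ => key i)
  rw [Finset.sum_add_distrib, Finset.sum_add_distrib,
    h.sum_per (fun p => dl (p - z) (p - z'))] at s
  unfold W
  linarith

theorem isClosed_sides (h : RPoly N P) : IsClosed (sides P) := by
  have : sides P = ⋃ i ∈ Finset.range (N + 1), box (P i) (P (i + 1)) := by
    ext z
    simp only [sides, Set.mem_ofPred_eq, Set.mem_iUnion, exists_prop]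
    constructor
    · rintro ⟨i, hi⟩
      refine ⟨i % (N + 1), Finset.mem_range.2 (Nat.mod_lt _ (by omega)), ?_⟩
      have e : P (i % (N + 1) + 1) = P (i + 1) := by
        rw [← h.per_mod (i % (N + 1) + 1), ← h.per_mod (i + 1), Nat.mod_add_mod]
      rw [h.per_mod, e]; exact hi
    · rintro ⟨i, _, hi⟩; exact ⟨i, hi⟩
  rw [this]
  exact isClosed_biUnion_finset fun i _ => isClosed_box _ _

theorem W_eventually (h : RPoly N P) {z : Pt} (hz : z ∉ sides P) :
    ∀ᶠ z' in 𝓝 z, W N P z' = W N P z := by
  have ho : (sides P)ᶜ ∈ 𝓝 z := h.isClosed_sides.isOpen_compl.mem_nhds hz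
  obtain ⟨ε, hε, hb⟩ := Metric.mem_nhds_iff.1 ho
  refine Filter.mem_of_superset (Metric.ball_mem_nhds z hε) fun z' hz' => ?_
  show W N P z' = W N P z
  symm
  refine h.W_eq fun i => ?_
  rw [Set.disjoint_left]
  intro w hw hw'
  have : w ∈ Metric.ball z ε := by
    rw [Metric.mem_ball] at hz' ⊢
    rw [Prod.dist_eq, max_lt_iff, Real.dist_eq, Real.dist_eq, abs_lt, abs_lt] at hz' ⊢
    obtain ⟨a, b, c, d⟩ := hw
    obtain ⟨⟨e, f⟩, ⟨g, k⟩⟩ := hz'
    rcases le_total z.1 z'.1 with h1 | h1 <;> rcases le_total z.2 z'.2 with h2 | h2 <;>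
      simp only [h1, h2, min_eq_left, max_eq_right, min_eq_right, max_eq_left] at a b c d <;>
      exact ⟨⟨by linarith, by linarith⟩, ⟨by linarith, by linarith⟩⟩
  exact hb this ⟨i, hw'⟩

theorem W_const (h : RPoly N P) {S : Set Pt} (hS : IsPreconnected S) (hd : Disjoint S (sides P))
    {z z' : Pt} (hz : z ∈ S) (hz' : z' ∈ S) : W N P z = W N P z' := by
  refine hS.constant (f := W N P) ?_ hz hz'
  intro w hw
  have hw' : w ∉ sides P := Set.disjoint_left.1 hd hw
  refine ContinuousAt.continuousWithinAt ?_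
  exact (continuousAt_const (y := W N P w)).congr (by
    filter_upwards [h.W_eventually hw'] with a ha
    exact ha.symm)

theorem W_half (h : RPoly N P) {k : Fin 4} {z : Pt} (hk : ∀ i, InH k (P i - z)) :
    W N P z = 0 := by
  unfold W
  have : ∀ i ∈ Finset.range (N + 1), dl (P i - z) (P (i + 1) - z) =
      lft k (P (i + 1) - z) - lft k (P i - z) := fun i _ => dl_eq (hk i) (hk (i + 1))
  rw [Finset.sum_congr rfl this, Finset.sum_sub_distrib, h.sum_per (fun p => lft k (p - z)),
    sub_self]

theorem W_unbounded (h : RPoly N P) {S : Set Pt} (hS : IsPreconnected S)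
    (hd : Disjoint S (sides P)) (hb : ¬ Bornology.IsBounded S) {z : Pt} (hz : z ∈ S) :
    W N P z = 0 := by
  -- a bound for the corners
  obtain ⟨R, hR⟩ : ∃ R : ℝ, ∀ i, |(P i).1| < R ∧ |(P i).2| < R := by
    have hfin : ∀ i, ‖P i‖ ≤ ∑ j ∈ Finset.range (N + 1), ‖P j‖ := by
      intro i
      rw [← h.per_mod i]
      exact Finset.single_le_sum (f := fun j => ‖P j‖) (fun j _ => norm_nonneg _)
        (Finset.mem_range.2 (Nat.mod_lt _ (by omega)))
    refine ⟨(∑ j ∈ Finset.range (N + 1), ‖P j‖) + 1, fun i => ?_⟩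
    have := hfin i
    rw [Prod.norm_def, max_le_iff, Real.norm_eq_abs, Real.norm_eq_abs] at this
    constructor <;> linarith [this.1, this.2]
  have hex : ∃ w ∈ S, R < |w.1| ∨ R < |w.2| := by
    by_contra hc
    push Not at hc
    refine hb ?_
    refine (Metric.isBounded_closedBall (x := (0 : Pt)) (r := R)).subset fun w hw => ?_
    rw [Metric.mem_closedBall, dist_zero_right, Prod.norm_def, max_le_iff, Real.norm_eq_abs,
      Real.norm_eq_abs]
    exact hc w hw
  obtain ⟨w, hw, hw'⟩ := hex
  rw [h.W_const hS hd hz hw]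
  rcases hw' with hw' | hw'
  · rcases lt_abs.1 hw' with h1 | h1
    · refine h.W_half (k := 2) fun i => InH_two.2 ?_
      have := (abs_lt.1 (hR i).1).2
      simp only [Prod.fst_sub]; linarith
    · refine h.W_half (k := 0) fun i => InH_zero.2 ?_
      have := (abs_lt.1 (hR i).1).1
      simp only [Prod.fst_sub]; linarith
  · rcases lt_abs.1 hw' with h1 | h1
    · refine h.W_half (k := 3) fun i => InH_three.2 ?_
      have := (abs_lt.1 (hR i).2).2
      simp only [Prod.snd_sub]; linarith
    · refine h.W_half (k := 1) fun i => InH_one.2 ?_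
      have := (abs_lt.1 (hR i).2).1
      simp only [Prod.snd_sub]; linarith

/-- The relation between `W` and `Lam` at a point visible from `P 0`. -/
theorem W_sub (h : RPoly N P) {z : Pt}
    (hs : ∀ i, 1 ≤ i → i < N → ∃ k, InH k (P i - P 0) ∧ InH k (P (i + 1) - P 0) ∧
      InH k (P i - z) ∧ InH k (P (i + 1) - z)) :
    W N P z = Lam N P 0 + (dl (P 0 - z) (P 1 - z) + dl (P N - z) (P 0 - z)
      + dl (P N - P 0) (P N - z) - dl (P 1 - P 0) (P 1 - z) - T N P 0) := by
  have hN := h.hN
  have key : ∀ j, 1 ≤ j → j ≤ N → rowA P 0 j + dl (P j - P 0) (P j - z) =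
      dl (P 1 - P 0) (P 1 - z) + ∑ i ∈ Finset.Ico 1 j, dl (P i - z) (P (i + 1) - z) := by
    intro j hj
    induction j, hj using Nat.le_induction with
    | base =>
      intro _
      rw [show rowA P 0 1 = 0 from rowA_self P 0]; simp
    | succ j hj ih =>
      intro h2
      obtain ⟨k, a, b, c, d⟩ := hs j hj (by omega)
      have sq : dl (P j - P 0) (P (j + 1) - P 0) + dl (P (j + 1) - P 0) (P (j + 1) - z) =
          dl (P j - P 0) (P j - z) + dl (P j - z) (P (j + 1) - z) := by
        rw [dl_eq a b, dl_eq b d, dl_eq a c, dl_eq c d]; ring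
      rw [rowA_succ P (by omega), Finset.sum_Ico_succ_top hj]
      have := ih (by omega)
      linarith
  have k := key N (by omega) le_rfl
  have hp : P (N + 1) = P 0 := by have := h.per 0; rwa [zero_add] at this
  have e : W N P z = dl (P 0 - z) (P 1 - z) + ∑ i ∈ Finset.Ico 1 N, dl (P i - z) (P (i + 1) - z)
      + dl (P N - z) (P 0 - z) := by
    unfold W
    rw [Finset.sum_range_succ, Finset.range_eq_Ico, Finset.sum_eq_sum_Ico_succ_bot (by omega), hp]
  rw [e]
  unfold Lam
  simp only [zero_add]
  linarith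

end RPoly

end Unbent
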