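import Pool.Agent.Unbent.Oct

/-!
The rotation theorem for simple closed rectilinear polygons (Hopf's Umlaufsatz), by the
secant argument carried out with octants.
-/

namespace Unbent

open SignType

/-- A simple closed rectilinear polygon with `N + 1` corners `P 0, ..., P N` (periodic). -/
structure RPoly (N : ℕ) (P : ℕ → Pt) : Prop where
  hN : 2 ≤ N
  per : ∀ i, P (i + (N + 1)) = P i
  axis : ∀ i, Axis (P i) (P (i + 1))
  ne : ∀ i, P i ≠ P (i + 1)
  adj : ∀ i, box (P i) (P (i + 1)) ∩ box (P (i + 1)) (P (i + 2)) ⊆ {P (i + 1)}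
  disj : ∀ i j, i + 2 ≤ j → j < i + N →
    Disjoint (box (P i) (P (i + 1))) (box (P j) (P (j + 1)))

/-- The turn at `q` on the way from `p` to `r`, in octants. -/
noncomputable def tau (p q r : Pt) : ℤ := dl (q - p) (r - p) + dl (r - p) (r - q)

theorem mem_box_of_axis_h {p q z : Pt} (h : p.2 = q.2) :
    z ∈ box p q ↔ z.2 = p.2 ∧ min p.1 q.1 ≤ z.1 ∧ z.1 ≤ max p.1 q.1 := by
  simp only [box, Set.mem_ofPred_eq, ← h, min_self, max_self]
  constructor
  · rintro ⟨a, b, c, d⟩; exact ⟨le_antisymm d c, a, b⟩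
  · rintro ⟨a, b, c⟩; exact ⟨b, c, a.ge, a.le⟩

theorem mem_box_of_axis_v {p q z : Pt} (h : p.1 = q.1) :
    z ∈ box p q ↔ z.1 = p.1 ∧ min p.2 q.2 ≤ z.2 ∧ z.2 ≤ max p.2 q.2 := by
  simp only [box, Set.mem_ofPred_eq, ← h, min_self, max_self]
  constructor
  · rintro ⟨a, b, c, d⟩; exact ⟨le_antisymm b a, c, d⟩
  · rintro ⟨a, b, c⟩; exact ⟨a.ge, a.le, b, c⟩

/-- Consecutive sides do not fold back. -/
theorem no_fold {p q r : Pt} (h1 : Axis p q) (h2 : Axis q r) (n1 : p ≠ q) (n2 : q ≠ r)
    (ha : box p q ∩ box q r ⊆ {q}) :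
    (p.1 < q.1 → q.1 ≤ r.1) ∧ (q.1 < p.1 → r.1 ≤ q.1) ∧
    (p.2 < q.2 → q.2 ≤ r.2) ∧ (q.2 < p.2 → r.2 ≤ q.2) := by
  have key : ∀ z : Pt, z ∈ box p q → z ∈ box q r → z = q := fun z a b => ha ⟨a, b⟩
  refine ⟨?_, ?_, ?_, ?_⟩
  · intro h
    by_contra hc
    push Not at hc
    have e1 : p.2 = q.2 := h1.resolve_left h.ne
    have e2 : q.2 = r.2 := h2.resolve_left hc.ne'
    rcases le_total p.1 r.1 with hl | hl
    · have m1 : r ∈ box p q := (mem_box_of_axis_h e1).2 ⟨(e1.trans e2).symm,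
        (min_le_left _ _).trans hl, hc.le.trans (le_max_right _ _)⟩
      exact n2 (key r m1 (right_mem_box _ _)).symm
    · have m1 : p ∈ box q r := (mem_box_of_axis_h e2).2 ⟨e1,
        (min_le_right _ _).trans hl, h.le.trans (le_max_left _ _)⟩
      exact n1 (key p (left_mem_box _ _) m1)
  · intro h
    by_contra hc
    push Not at hc
    have e1 : p.2 = q.2 := h1.resolve_left h.ne'
    have e2 : q.2 = r.2 := h2.resolve_left hc.ne
    rcases le_total p.1 r.1 with hl | hl
    · have m1 : p ∈ box q r := (mem_box_of_axis_h e2).2 ⟨e1,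
        (min_le_left _ _).trans h.le, hl.trans (le_max_right _ _)⟩
      exact n1 (key p (left_mem_box _ _) m1)
    · have m1 : r ∈ box p q := (mem_box_of_axis_h e1).2 ⟨(e1.trans e2).symm,
        (min_le_right _ _).trans hc.le, hl.trans (le_max_left _ _)⟩
      exact n2 (key r m1 (right_mem_box _ _)).symm
  · intro h
    by_contra hc
    push Not at hc
    have e1 : p.1 = q.1 := h1.resolve_right h.ne
    have e2 : q.1 = r.1 := h2.resolve_right hc.ne'
    rcases le_total p.2 r.2 with hl | hl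
    · have m1 : r ∈ box p q := (mem_box_of_axis_v e1).2 ⟨(e1.trans e2).symm,
        (min_le_left _ _).trans hl, hc.le.trans (le_max_right _ _)⟩
      exact n2 (key r m1 (right_mem_box _ _)).symm
    · have m1 : p ∈ box q r := (mem_box_of_axis_v e2).2 ⟨e1,
        (min_le_right _ _).trans hl, h.le.trans (le_max_left _ _)⟩
      exact n1 (key p (left_mem_box _ _) m1)
  · intro h
    by_contra hc
    push Not at hc
    have e1 : p.1 = q.1 := h1.resolve_right h.ne'
    have e2 : q.1 = r.1 := h2.resolve_right hc.ne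
    rcases le_total p.2 r.2 with hl | hl
    · have m1 : p ∈ box q r := (mem_box_of_axis_v e2).2 ⟨e1,
        (min_le_left _ _).trans h.le, hl.trans (le_max_right _ _)⟩
      exact n1 (key p (left_mem_box _ _) m1)
    · have m1 : r ∈ box p q := (mem_box_of_axis_v e1).2 ⟨(e1.trans e2).symm,
        (min_le_right _ _).trans hc.le, hl.trans (le_max_left _ _)⟩
      exact n2 (key r m1 (right_mem_box _ _)).symm

/-- Four kinds of a nondegenerate axis-parallel step. -/
theorem axis_cases {p q : Pt} (h : Axis p q) (n : p ≠ q) :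
    (p.1 < q.1 ∧ p.2 = q.2) ∨ (p.2 < q.2 ∧ p.1 = q.1) ∨ (q.1 < p.1 ∧ p.2 = q.2) ∨
      (q.2 < p.2 ∧ p.1 = q.1) := by
  rcases h with h | h
  · have : p.2 ≠ q.2 := fun e => n (Prod.ext h e)
    rcases lt_or_gt_of_ne this with h' | h'
    · exact Or.inr (Or.inl ⟨h', h⟩)
    · exact Or.inr (Or.inr (Or.inr ⟨h', h⟩))
  · have : p.1 ≠ q.1 := fun e => n (Prod.ext e h)
    rcases lt_or_gt_of_ne this with h' | h'
    · exact Or.inl ⟨h', h⟩
    · exact Or.inr (Or.inr (Or.inl ⟨h', h⟩))

/-- The vectors occurring in a turn share half planes. -/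
theorem turn_half {p q r : Pt} (h1 : Axis p q) (h2 : Axis q r) (n1 : p ≠ q) (n2 : q ≠ r)
    (ha : box p q ∩ box q r ⊆ {q}) :
    (∃ k, InH k (q - p) ∧ InH k (r - p)) ∧ (∃ k, InH k (r - p) ∧ InH k (r - q)) := by
  obtain ⟨f1, f2, f3, f4⟩ := no_fold h1 h2 n1 n2 ha
  rcases axis_cases h1 n1 with ⟨a, e⟩ | ⟨a, e⟩ | ⟨a, e⟩ | ⟨a, e⟩
  · refine ⟨⟨0, InH_zero.2 (by simpa using a), InH_zero.2 ?_⟩, ?_⟩
    · have := f1 a; simp only [Prod.fst_sub]; linarith
    · rcases axis_cases h2 n2 with ⟨b, g⟩ | ⟨b, g⟩ | ⟨b, g⟩ | ⟨b, g⟩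
      · exact ⟨0, InH_zero.2 (by simp only [Prod.fst_sub]; linarith),
          InH_zero.2 (by simp only [Prod.fst_sub]; linarith)⟩
      · exact ⟨1, InH_one.2 (by simp only [Prod.snd_sub]; linarith),
          InH_one.2 (by simp only [Prod.snd_sub]; linarith)⟩
      · have := f1 a; linarith
      · exact ⟨3, InH_three.2 (by simp only [Prod.snd_sub]; linarith),
          InH_three.2 (by simp only [Prod.snd_sub]; linarith)⟩
  · refine ⟨⟨1, InH_one.2 (by simpa using a), InH_one.2 ?_⟩, ?_⟩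
    · have := f3 a; simp only [Prod.snd_sub]; linarith
    · rcases axis_cases h2 n2 with ⟨b, g⟩ | ⟨b, g⟩ | ⟨b, g⟩ | ⟨b, g⟩
      · exact ⟨0, InH_zero.2 (by simp only [Prod.fst_sub]; linarith),
          InH_zero.2 (by simp only [Prod.fst_sub]; linarith)⟩
      · exact ⟨1, InH_one.2 (by simp only [Prod.snd_sub]; linarith),
          InH_one.2 (by simp only [Prod.snd_sub]; linarith)⟩
      · exact ⟨2, InH_two.2 (by simp only [Prod.fst_sub]; linarith),
          InH_two.2 (by simp only [Prod.fst_sub]; linarith)⟩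
      · have := f3 a; linarith
  · refine ⟨⟨2, InH_two.2 (by simpa using a), InH_two.2 ?_⟩, ?_⟩
    · have := f2 a; simp only [Prod.fst_sub]; linarith
    · rcases axis_cases h2 n2 with ⟨b, g⟩ | ⟨b, g⟩ | ⟨b, g⟩ | ⟨b, g⟩
      · have := f2 a; linarith
      · exact ⟨1, InH_one.2 (by simp only [Prod.snd_sub]; linarith),
          InH_one.2 (by simp only [Prod.snd_sub]; linarith)⟩
      · exact ⟨2, InH_two.2 (by simp only [Prod.fst_sub]; linarith),
          InH_two.2 (by simp only [Prod.fst_sub]; linarith)⟩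
      · exact ⟨3, InH_three.2 (by simp only [Prod.snd_sub]; linarith),
          InH_three.2 (by simp only [Prod.snd_sub]; linarith)⟩
  · refine ⟨⟨3, InH_three.2 (by simpa using a), InH_three.2 ?_⟩, ?_⟩
    · have := f4 a; simp only [Prod.snd_sub]; linarith
    · rcases axis_cases h2 n2 with ⟨b, g⟩ | ⟨b, g⟩ | ⟨b, g⟩ | ⟨b, g⟩
      · exact ⟨0, InH_zero.2 (by simp only [Prod.fst_sub]; linarith),
          InH_zero.2 (by simp only [Prod.fst_sub]; linarith)⟩
      · have := f4 a; linarith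
      · exact ⟨2, InH_two.2 (by simp only [Prod.fst_sub]; linarith),
          InH_two.2 (by simp only [Prod.fst_sub]; linarith)⟩
      · exact ⟨3, InH_three.2 (by simp only [Prod.snd_sub]; linarith),
          InH_three.2 (by simp only [Prod.snd_sub]; linarith)⟩

/-- The turn seen through reversed vectors. -/
theorem tau_neg {p q r : Pt} (h1 : Axis p q) (h2 : Axis q r) (n1 : p ≠ q) (n2 : q ≠ r)
    (ha : box p q ∩ box q r ⊆ {q}) :
    dl (p - q) (p - r) + dl (p - r) (q - r) = tau p q r := by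
  obtain ⟨⟨k, a, b⟩, ⟨k', c, d⟩⟩ := turn_half h1 h2 n1 n2 ha
  unfold tau
  rw [← dl_neg a b, ← dl_neg c d]
  simp only [neg_sub]

/-- Accumulated rotation of the secant from `P i`. -/
noncomputable def rowA (P : ℕ → Pt) (i j : ℕ) : ℤ :=
  ∑ t ∈ Finset.Ico (i + 1) j, dl (P t - P i) (P (t + 1) - P i)

theorem rowA_succ (P : ℕ → Pt) {i j : ℕ} (h : i + 1 ≤ j) :
    rowA P i (j + 1) = rowA P i j + dl (P j - P i) (P (j + 1) - P i) :=
  Finset.sum_Ico_succ_top h _

theorem rowA_self (P : ℕ → Pt) (i : ℕ) : rowA P i (i + 1) = 0 := by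
  simp [rowA]

namespace RPoly

variable {N : ℕ} {P : ℕ → Pt}

theorem row (h : RPoly N P) (i j : ℕ) (h1 : i + 2 ≤ j) (h2 : j ≤ i + N) :
    rowA P i j + dl (P j - P i) (P j - P (i + 1)) =
      tau (P i) (P (i + 1)) (P (i + 2)) + rowA P (i + 1) j := by
  induction j, h1 using Nat.le_induction with
  | base =>
    rw [rowA_succ P (le_refl (i + 1)), rowA_self, rowA_self]
    unfold tau; ring
  | succ j hj ih =>
    have ih' := ih (by omega)
    rw [rowA_succ P (by omega), rowA_succ P (by omega)]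
    have sq := square (h.disj i j hj (by omega))
    linarith

/-- The turn at `P i`. -/
noncomputable def T (N : ℕ) (P : ℕ → Pt) (i : ℕ) : ℤ := tau (P (i + N)) (P i) (P (i + 1))

theorem T_succ (h : RPoly N P) (i : ℕ) :
    T N P (i + 1) = tau (P i) (P (i + 1)) (P (i + 2)) := by
  unfold T
  rw [show i + 1 + N = i + (N + 1) by ring, h.per]

theorem adjp (h : RPoly N P) (i : ℕ) :
    box (P (i + N)) (P i) ∩ box (P i) (P (i + 1)) ⊆ {P i} := by
  have := h.adj (i + N)
  rw [show i + N + 1 = i + (N + 1) by ring, show i + N + 2 = i + 1 + (N + 1) by ring, h.per,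
    h.per] at this
  exact this

theorem axisp (h : RPoly N P) (i : ℕ) : Axis (P (i + N)) (P i) := by
  have := h.axis (i + N)
  rwa [show i + N + 1 = i + (N + 1) by ring, h.per] at this

theorem nep (h : RPoly N P) (i : ℕ) : P (i + N) ≠ P i := by
  have := h.ne (i + N)
  rwa [show i + N + 1 = i + (N + 1) by ring, h.per] at this

theorem T_neg (h : RPoly N P) (i : ℕ) :
    dl (P (i + N) - P i) (P (i + N) - P (i + 1)) + dl (P (i + N) - P (i + 1)) (P i - P (i + 1))
      = T N P i :=
  tau_neg (h.axisp i) (h.axis i) (h.nep i) (h.ne i) (h.adjp i)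

/-- `Lam i` is independent of `i`. -/
noncomputable def Lam (N : ℕ) (P : ℕ → Pt) (i : ℕ) : ℤ := rowA P i (i + N) + T N P i

theorem Lam_succ (h : RPoly N P) (i : ℕ) : Lam N P (i + 1) = Lam N P i := by
  have hN := h.hN
  have r := h.row i (i + N) (by omega) le_rfl
  have e : rowA P (i + 1) (i + 1 + N) = rowA P (i + 1) (i + N) +
      dl (P (i + N) - P (i + 1)) (P i - P (i + 1)) := by
    rw [show i + 1 + N = i + N + 1 by ring, rowA_succ P (by omega)]
    rw [show i + N + 1 = i + (N + 1) by ring, h.per]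
  have t := h.T_neg i
  unfold Lam
  rw [e, h.T_succ]
  linarith

theorem Lam_eq (h : RPoly N P) (i : ℕ) : Lam N P i = Lam N P 0 := by
  induction i with
  | zero => rfl
  | succ i ih => rw [h.Lam_succ, ih]

theorem not_mem_side (h : RPoly N P) {t : ℕ} (h1 : 1 ≤ t) (h2 : t < N) :
    P 0 ∉ box (P t) (P (t + 1)) := by
  intro hm
  rcases Nat.lt_or_ge t 2 with h3 | h3
  · have : t = 1 := by omega
    subst this
    have := h.adj 0 ⟨left_mem_box _ _, hm⟩
    exact h.ne 0 this
  · have := h.disj 0 t (by omega) (by omega)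
    exact Set.disjoint_left.1 this (left_mem_box _ _) hm

theorem side_half (h : RPoly N P) {t : ℕ} (h1 : 1 ≤ t) (h2 : t < N) :
    ∃ k, InH k (P t - P 0) ∧ InH k (P (t + 1) - P 0) := by
  have hd : Disjoint (box (P 0) (P 0)) (box (P t) (P (t + 1))) := by
    rw [Set.disjoint_left]
    intro z hz
    have : z = P 0 := by
      obtain ⟨a, b, c, d⟩ := hz
      simp only [min_self, max_self] at a b c d
      exact Prod.ext (le_antisymm b a) (le_antisymm d c)
    rw [this]
    exact h.not_mem_side h1 h2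
  obtain ⟨k, a, _, c, _⟩ := sep hd
  exact ⟨k, a, c⟩

/-- The total rotation is twice `Lam`. -/
theorem total (h : RPoly N P) : ∑ i ∈ Finset.range (N + 1), T N P i = 2 * Lam N P 0 := by
  have hN := h.hN
  have hper0 : P (N + 1) = P 0 := by have := h.per 0; rwa [zero_add] at this
  -- telescoped rows
  have key : ∀ m, 1 ≤ m → m ≤ N →
      rowA P 1 (N + 1) + ∑ i ∈ Finset.Ico 1 m, dl (P 0 - P i) (P 0 - P (i + 1)) =
        ∑ i ∈ Finset.Ico 1 m, T N P (i + 1) + rowA P m (N + 1) := by
    intro m hm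
    induction m, hm using Nat.le_induction with
    | base => intro _; simp
    | succ m hm ih =>
      intro hm2
      have ih' := ih (by omega)
      rw [Finset.sum_Ico_succ_top hm, Finset.sum_Ico_succ_top hm]
      have r := h.row m (N + 1) (by omega) (by omega)
      rw [← h.T_succ, hper0] at r
      linarith
  have k1 := key N (by omega) le_rfl
  rw [rowA_self] at k1
  have e1 : ∑ i ∈ Finset.Ico 1 N, dl (P 0 - P i) (P 0 - P (i + 1)) = rowA P 0 N := by
    unfold rowA
    refine Finset.sum_congr rfl fun t ht => ?_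
    rw [Finset.mem_Ico] at ht
    obtain ⟨k, a, b⟩ := h.side_half ht.1 ht.2
    rw [← dl_neg a b]
    simp only [neg_sub]
  have r0 := h.row 0 N (by omega) (by omega)
  rw [← h.T_succ] at r0
  have s0 : rowA P 1 (N + 1) = rowA P 1 N + dl (P N - P 1) (P 0 - P 1) := by
    rw [rowA_succ P (by omega), hper0]
  have t0 := h.T_neg 0
  simp only [zero_add] at t0 r0
  have e2 : ∑ i ∈ Finset.range (N + 1), T N P i =
      T N P 0 + T N P 1 + ∑ i ∈ Finset.Ico 1 N, T N P (i + 1) := by
    rw [Finset.range_eq_Ico, Finset.sum_eq_sum_Ico_succ_bot (by omega)]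
    rw [zero_add, Finset.sum_eq_sum_Ico_succ_bot (by omega)]
    have : ∑ k ∈ Finset.Ico (1 + 1) (N + 1), T N P k =
        ∑ i ∈ Finset.Ico 1 N, T N P (i + 1) := by
      rw [Finset.sum_Ico_add' (fun k => T N P k) 1 N 1]
    rw [this]; ring
  rw [e2]
  unfold Lam
  simp only [zero_add]
  linarith

/-- Shifting a polygon. -/
theorem shift (h : RPoly N P) (s : ℕ) : RPoly N (fun i => P (i + s)) where
  hN := h.hN
  per i := by
    show P (i + (N + 1) + s) = P (i + s)
    rw [show i + (N + 1) + s = i + s + (N + 1) by ring, h.per]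
  axis i := by
    show Axis (P (i + s)) (P (i + 1 + s))
    rw [show i + 1 + s = i + s + 1 by ring]; exact h.axis _
  ne i := by
    show P (i + s) ≠ P (i + 1 + s)
    rw [show i + 1 + s = i + s + 1 by ring]; exact h.ne _
  adj i := by
    show box (P (i + s)) (P (i + 1 + s)) ∩ box (P (i + 1 + s)) (P (i + 2 + s)) ⊆ {P (i + 1 + s)}
    rw [show i + 1 + s = i + s + 1 by ring, show i + 2 + s = i + s + 2 by ring]; exact h.adj _
  disj i j h1 h2 := by
    show Disjoint (box (P (i + s)) (P (i + 1 + s))) (box (P (j + s)) (P (j + 1 + s)))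
    rw [show i + 1 + s = i + s + 1 by ring, show j + 1 + s = j + s + 1 by ring]
    exact h.disj _ _ (by omega) (by omega)

theorem Lam_shift (h : RPoly N P) (s : ℕ) : Lam N (fun i => P (i + s)) 0 = Lam N P 0 := by
  rw [← h.Lam_eq s]
  unfold Lam T rowA
  have : ∑ t ∈ Finset.Ico (0 + 1) (0 + N), dl (P (t + s) - P (0 + s)) (P (t + 1 + s) - P (0 + s))
      = ∑ t ∈ Finset.Ico (s + 1) (s + N), dl (P t - P s) (P (t + 1) - P s) := by
    have := Finset.sum_Ico_add' (fun t => dl (P t - P s) (P (t + 1) - P s)) 1 N s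
    simp only [zero_add]
    rw [show s + 1 = 1 + s by ring, show s + N = N + s by ring, ← this]
    refine Finset.sum_congr rfl fun t _ => ?_
    rw [show t + 1 + s = t + s + 1 by ring]
  rw [this]
  simp only [zero_add]
  rw [show N + s = s + N by ring, show 1 + s = s + 1 by ring]

end RPoly

end Unbent
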