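import Pool.Agent.Unbent.Poly

/-!
The rotation number of a simple closed rectilinear polygon is `+1` or `-1`, and the
winding number (in octants) around points next to a side.
-/

namespace Unbent

open SignType

/-- Octant index of a vector. -/
noncomputable def oct (v : Pt) : ℤ := octS (sign v.1) (sign v.2)

/-- Lexicographically negative vectors. -/
def Low (v : Pt) : Prop := v.2 < 0 ∨ (v.2 = 0 ∧ v.1 < 0)

theorem dS_low : ∀ a b c d : SignType, (b = -1 ∨ (b = 0 ∧ a = -1)) → (d = -1 ∨ (d = 0 ∧ c = -1)) →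
    dS a b c d = octS c d - octS a b := by
  decide

theorem Low.sign {v : Pt} (h : Low v) :
    (sign v.2 = -1 ∨ (sign v.2 = 0 ∧ sign v.1 = -1)) := by
  rcases h with h | ⟨h, h'⟩
  · left; exact sign_neg h
  · right; exact ⟨by rw [h]; exact sign_zero, sign_neg h'⟩

theorem dl_low {v w : Pt} (hv : Low v) (hw : Low w) : dl v w = oct w - oct v :=
  dS_low _ _ _ _ hv.sign hw.sign

theorem dl_of {v w : Pt} {a b c d : SignType} (h1 : sign v.1 = a) (h2 : sign v.2 = b)
    (h3 : sign w.1 = c) (h4 : sign w.2 = d) : dl v w = dS a b c d := by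
  unfold dl; rw [h1, h2, h3, h4]

namespace RPoly

variable {N : ℕ} {P : ℕ → Pt}

theorem ne0 (h : RPoly N P) {t : ℕ} (h1 : 1 ≤ t) (h2 : t ≤ N) : P t ≠ P 0 := by
  intro he
  rcases Nat.lt_or_ge t N with h3 | h3
  · exact h.not_mem_side h1 h3 (he ▸ left_mem_box _ _)
  · have : t = N := le_antisymm h2 h3
    subst this
    have := h.nep 0
    rw [zero_add] at this
    exact this he

theorem rowA_low (h : RPoly N P) (hl : ∀ t, 1 ≤ t → t ≤ N → Low (P t - P 0)) (j : ℕ)
    (h1 : 1 ≤ j) (h2 : j ≤ N) : rowA P 0 j = oct (P j - P 0) - oct (P 1 - P 0) := by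
  induction j, h1 using Nat.le_induction with
  | base => rw [show (1:ℕ) = 0 + 1 from rfl, rowA_self]; ring
  | succ j hj ih =>
    rw [rowA_succ P (by omega), ih (by omega), dl_low (hl j hj (by omega))
      (hl (j + 1) (by omega) h2)]
    ring

theorem Lam_low (h : RPoly N P) (hl : ∀ t, 1 ≤ t → t ≤ N → Low (P t - P 0)) :
    Lam N P 0 = 4 ∨ Lam N P 0 = -4 := by
  have hN := h.hN
  have hr := h.rowA_low hl N (by omega) le_rfl
  have l1 := hl 1 le_rfl (by omega)
  have lN := hl N (by omega) le_rfl
  have a1 := h.axis 0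
  have aN := h.axisp 0
  have nf := no_fold aN a1 (h.nep 0) (h.ne 0) (h.adjp 0)
  simp only [zero_add] at a1 aN nf
  unfold Lam T tau
  simp only [zero_add]
  rw [hr]
  unfold Low at l1 lN
  simp only [Prod.fst_sub, Prod.snd_sub, sub_neg, sub_eq_zero] at l1 lN
  unfold Axis at a1 aN
  obtain ⟨nf1, nf2, nf3, nf4⟩ := nf
  -- P 1 is either straight down or to the left of P 0, and the same for P N
  have c1 : ((P 1).2 < (P 0).2 ∧ (P 1).1 = (P 0).1) ∨ ((P 1).2 = (P 0).2 ∧ (P 1).1 < (P 0).1) := by
    rcases l1 with l1 | l1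
    · left; refine ⟨l1, ?_⟩
      rcases a1 with a | a
      · exact a.symm
      · exact absurd a l1.ne'
    · right; exact l1
  have cN : ((P N).2 < (P 0).2 ∧ (P N).1 = (P 0).1) ∨ ((P N).2 = (P 0).2 ∧ (P N).1 < (P 0).1) := by
    rcases lN with l1 | l1
    · left; refine ⟨l1, ?_⟩
      rcases aN with a | a
      · exact a
      · exact absurd a l1.ne
    · right; exact l1
  rcases c1 with ⟨b1, e1⟩ | ⟨e1, b1⟩ <;> rcases cN with ⟨bN, eN⟩ | ⟨eN, bN⟩
  · have := nf3 bN; linarith
  · -- P 1 down, P N left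
    right
    have s1 : oct (P 1 - P 0) = 6 := by
      unfold oct; rw [Prod.fst_sub, Prod.snd_sub, e1, sub_self, sign_zero, sign_neg (by linarith)]
      rfl
    have sN : oct (P N - P 0) = 4 := by
      unfold oct; rw [Prod.fst_sub, Prod.snd_sub, eN, sub_self, sign_zero, sign_neg (by linarith)]
      rfl
    have d1 : dl (P 0 - P N) (P 1 - P N) = -1 := by
      rw [dl_of (a := 1) (b := 0) (c := 1) (d := -1) (sign_pos (by simp only [Prod.fst_sub]; linarith))
        (by rw [Prod.snd_sub, eN, sub_self, sign_zero])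
        (sign_pos (by simp only [Prod.fst_sub]; linarith))
        (sign_neg (by simp only [Prod.snd_sub]; linarith))]
      rfl
    have d2 : dl (P 1 - P N) (P 1 - P 0) = -1 := by
      rw [dl_of (a := 1) (b := -1) (c := 0) (d := -1)
        (sign_pos (by simp only [Prod.fst_sub]; linarith))
        (sign_neg (by simp only [Prod.snd_sub]; linarith))
        (by rw [Prod.fst_sub, e1, sub_self, sign_zero])
        (sign_neg (by simp only [Prod.snd_sub]; linarith))]
      rfl
    rw [s1, sN, d1, d2]; norm_num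
  · -- P 1 left, P N down
    left
    have s1 : oct (P 1 - P 0) = 4 := by
      unfold oct; rw [Prod.fst_sub, Prod.snd_sub, e1, sub_self, sign_zero, sign_neg (by linarith)]
      rfl
    have sN : oct (P N - P 0) = 6 := by
      unfold oct; rw [Prod.fst_sub, Prod.snd_sub, eN, sub_self, sign_zero, sign_neg (by linarith)]
      rfl
    have d1 : dl (P 0 - P N) (P 1 - P N) = 1 := by
      rw [dl_of (a := 0) (b := 1) (c := -1) (d := 1)
        (by rw [Prod.fst_sub, eN, sub_self, sign_zero])
        (sign_pos (by simp only [Prod.snd_sub]; linarith))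
        (sign_neg (by simp only [Prod.fst_sub]; linarith))
        (sign_pos (by simp only [Prod.snd_sub]; linarith))]
      rfl
    have d2 : dl (P 1 - P N) (P 1 - P 0) = 1 := by
      rw [dl_of (a := -1) (b := 1) (c := -1) (d := 0)
        (sign_neg (by simp only [Prod.fst_sub]; linarith))
        (sign_pos (by simp only [Prod.snd_sub]; linarith))
        (sign_neg (by simp only [Prod.fst_sub]; linarith))
        (by rw [Prod.snd_sub, e1, sub_self, sign_zero])]
      rfl
    rw [s1, sN, d1, d2]; norm_num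
  · have := nf1 bN; linarith

theorem per_mod (h : RPoly N P) (i : ℕ) : P (i % (N + 1)) = P i := by
  conv_rhs => rw [← Nat.mod_add_div i (N + 1)]
  generalize i / (N + 1) = q
  induction q with
  | zero => simp
  | succ q ih =>
    rw [ih, Nat.mul_succ, ← Nat.add_assoc, h.per]

/-- `Lam` is `4` or `-4`. -/
theorem Lam_cases (h : RPoly N P) : Lam N P 0 = 4 ∨ Lam N P 0 = -4 := by
  obtain ⟨s, _, hs⟩ := Finset.exists_max_image (Finset.range (N + 1))
    (fun i => toLex ((P i).2, (P i).1)) ⟨0, by simp⟩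
  have hmax : ∀ i, toLex ((P i).2, (P i).1) ≤ toLex ((P s).2, (P s).1) := by
    intro i
    have := hs (i % (N + 1)) (Finset.mem_range.2 (Nat.mod_lt _ (by omega)))
    simp only [h.per_mod] at this
    exact this
  rw [← h.Lam_shift s]
  refine (h.shift s).Lam_low fun t h1 h2 => ?_
  have hne := (h.shift s).ne0 h1 h2
  simp only [zero_add] at hne ⊢
  have hm := hmax (t + s)
  rw [Prod.Lex.toLex_le_toLex] at hm
  unfold Low
  simp only [Prod.fst_sub, Prod.snd_sub, sub_neg, sub_eq_zero]
  rcases hm with hm | ⟨e, hm⟩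
  · left; exact hm
  · right
    refine ⟨e, lt_of_le_of_ne hm fun e' => hne (Prod.ext e' e)⟩

end RPoly

end Unbent
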